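import Pool.Agent.Work.MP_02e829_s7.Final9

/-!
# Countably many rigid bodies around a piece transversal to a projective field: interface

Continues `MP_02e829_sb/Interface.lean` and `MP_02e829_s7/Interface.lean` (same notation).

THEOREM to prove (`Stmt_FTF` at the end): as `blk_FI9` (`MP_02e829_s7/Final9.lean`), with the new
alternative for the piece `C` of `{K > 0}`: the motions of the points of `frontier C` are countably
many, and some vector field `X(x) = c + L x + (k ⬝ x) x` (infinitesimal projective transformation)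
is nowhere tangent to `f 0` on `closure C`.

IDEA. `X = ∑ᵢ Aᵢ × Aᵢ'` with Killing fields `Aᵢ = aᵢ + bᵢ × x`, `Aᵢ' = aᵢ' + bᵢ' × x` (DEC).  For the
functionals `lᵢ = aᵢ ⬝ y + bᵢ ⬝ w`, `lᵢ'` of the motion `(y, w)` of a pair `f, g` the Jacobians satisfy
`∑ᵢ J(lᵢ, lᵢ') = (det k) (X(m) ⬝ n)` (JAC), and `det k ≤ 0` on `{K > 0}` (SGK).  The sign of
`X(m) ⬝ n` is an orientation `ν` of `C` (ORI).  Since `lᵢ` has countably many values on `frontier C`
the integral of `sg ν J(lᵢ, lᵢ')` over `C` is zero (LIM: cut off `δ(lᵢ) → 1`, Stokes GSB).  Hence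
`det k = 0`, `k = 0` on `C` (STT).  Then the family: the set of times at which `f t` is congruent to
`f 0` on `C` is open and closed.
-/

open Set Filter Manifold Matrix MeasureTheory Metric
open scoped Topology ContDiff Manifold

set_option autoImplicit false

universe w

namespace Pool.SXB

open Pool.FR (pd ee)

/-! ### Functions on the surface in charts -/

section defs

variable {S : Type w} [TopologicalSpace S] [ChartedSpace E2 S]

/-- a function in the chart at `q` -/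
noncomputable def ch (u : S → ℝ) (q : S) : E2 → ℝ := fun x => u ((extChartAt (𝓡 2) q).symm x)

/-- the function is of class `C¹` in all charts -/
def C1S (u : S → ℝ) : Prop := ∀ q, ContDiffOn ℝ 1 (ch u q) (extChartAt (𝓡 2) q).target

/-- the Jacobian of two functions in the chart at `q` -/
noncomputable def JJ (u W : S → ℝ) (q : S) (x : E2) : ℝ :=
  pd 0 (ch u q) x * pd 1 (ch W q) x - pd 1 (ch u q) x * pd 0 (ch W q) x

/-- the change of charts from `q` to `q'` -/
noncomputable def TT (q q' : S) : E2 → E2 :=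
  fun x => extChartAt (𝓡 2) q' ((extChartAt (𝓡 2) q).symm x)

/-- the set `C` in the chart at `q` -/
def dm (C : Set S) (q : S) : Set E2 :=
  (extChartAt (𝓡 2) q).target ∩ (extChartAt (𝓡 2) q).symm ⁻¹' C

/-- an orientation of the open set `C`: a density of sign `±` in every chart -/
structure Ori (C : Set S) (ν : S → E2 → ℝ) : Prop where
  cont : ∀ q, ContinuousOn (ν q) (extChartAt (𝓡 2) q).target
  ne : ∀ q, ∀ x ∈ dm C q, ν q x ≠ 0
  law : ∀ q q', ∀ x ∈ (extChartAt (𝓡 2) q).target,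
    (extChartAt (𝓡 2) q).symm x ∈ (extChartAt (𝓡 2) q').source →
    ν q x = (fderiv ℝ (TT q q') x).det * ν q' (TT q q' x)

/-- a partition of unity subordinate to the charts at the points of `F` -/
structure Pou (F : Finset S) (χ : S → S → ℝ) : Prop where
  c1 : ∀ q ∈ F, C1S (χ q)
  nonneg : ∀ q ∈ F, ∀ p, 0 ≤ χ q p
  sup : ∀ q ∈ F, tsupport (χ q) ⊆ (extChartAt (𝓡 2) q).source
  sum : ∀ p, ∑ q ∈ F, χ q p = 1

end defs

/-- the sign -/
noncomputable def sg (r : ℝ) : ℝ := r / |r|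

/-- PAR (130 lines; uses nothing): partition of unity.  Mathlib's needs a smooth manifold, ours is
`C²`.  For `p` take a `ContDiffBump` `b` at `φₚ p` with `closedBall (φₚ p) rOut` in the open target
and `β p z = b (φₚ z)` for `z` in the source, `0` otherwise.  `φₚ⁻¹ (closedBall)` is compact, so
closed: `tsupport (β p)` is in the source; in the chart at `q` at `x`: if `φ_q⁻¹ x` is in the source
of `p` then `β p` is `b ∘ TT q p` near `x` (`TT q p` is `C²` on the overlap: `contDiffOn_ext_coord_change`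
or composition of `contMDiffOn_extChartAt` with `contMDiffOn_extChartAt_symm`), otherwise it is zero
near `x`.  Compactness: finitely many sets `β p > 0` cover; divide by the sum. -/
def Stmt_PAR : Prop :=
  ∀ (S : Type w) [TopologicalSpace S] [ChartedSpace E2 S] [IsManifold (𝓡 2) 2 S] [T2Space S]
    [CompactSpace S], ∃ (F : Finset S) (χ : S → S → ℝ), Pou F χ

/-- JLW (90 lines; uses nothing): the Jacobian under a change of charts.  Near `x` (the overlap is
open) `ch u q = ch u q' ∘ TT q q'`, chain rule; for `L : E2 →L[ℝ] E2` and linear forms `α`, `β`: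
`α (L e₀) β (L e₁) - α (L e₁) β (L e₀) = L.det (α e₀ β e₁ - α e₁ β e₀)`. -/
def Stmt_JLW : Prop :=
  ∀ (S : Type w) [TopologicalSpace S] [ChartedSpace E2 S] [IsManifold (𝓡 2) 2 S] (u W : S → ℝ),
    C1S u → C1S W → ∀ q q', ∀ x ∈ (extChartAt (𝓡 2) q).target,
    (extChartAt (𝓡 2) q).symm x ∈ (extChartAt (𝓡 2) q').source →
    JJ u W q x = (fderiv ℝ (TT q q') x).det * JJ u W q' (TT q q' x)

/-- CHG (120 lines; uses JLW): change of variables.  With `s` the part of `dm C q` over the source of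
`q'` (open), `TT q q'` is injective on `s`, differentiable, with image the part of `dm C q'` over the
source of `q`: `integral_image_eq_integral_abs_det_fderiv_smul`; by JLW and the law of `Ori` the
integrand at `x` is `|det|` times the integrand at `TT q q' x` (`det ≠ 0` since `ν q x ≠ 0`); outside
the overlap `ρ` vanishes (`setIntegral_eq_of_subset_of_forall_sdiff_eq_zero` or indicators). -/
def Stmt_CHG : Prop :=
  ∀ (S : Type w) [TopologicalSpace S] [ChartedSpace E2 S] [IsManifold (𝓡 2) 2 S] (C : Set S)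
    (ν : S → E2 → ℝ), IsOpen C → Ori C ν → ∀ u W : S → ℝ, C1S u → C1S W → ∀ (q q' : S) (ρ : S → ℝ),
    (∀ p, ρ p ≠ 0 → p ∈ (extChartAt (𝓡 2) q).source ∧ p ∈ (extChartAt (𝓡 2) q').source) →
    ∫ x in dm C q, ch ρ q x * (JJ u W q x * sg (ν q x)) =
      ∫ x in dm C q', ch ρ q' x * (JJ u W q' x * sg (ν q' x))

/-- ITG (80 lines; uses nothing): integrability.  `h` is continuous on the open target and vanishes
outside the compact set `φ_q (T)` of the target; `sg (ν q)` is continuous on the open set `dm C q`, of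
absolute value at most one. -/
def Stmt_ITG : Prop :=
  ∀ (S : Type w) [TopologicalSpace S] [ChartedSpace E2 S] [IsManifold (𝓡 2) 2 S]
    [CompactSpace S] (C : Set S) (ν : S → E2 → ℝ), IsOpen C → Ori C ν → ∀ (q : S) (T : Set S),
    IsClosed T → T ⊆ (extChartAt (𝓡 2) q).source → ∀ h : E2 → ℝ,
    ContinuousOn h (extChartAt (𝓡 2) q).target →
    (∀ x ∈ (extChartAt (𝓡 2) q).target, (extChartAt (𝓡 2) q).symm x ∉ T → h x = 0) →
    IntegrableOn (fun x => h x * sg (ν q x)) (dm C q) volume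

/-- GSA (150 lines; uses W0): Stokes in one chart.  Apply W0 in `O = dm C q` to
`ψ = η δ(l) W` (in the chart, `0` outside `O`) and to `sg(ν) l`.  The support of `ψ` is compact in
`O`: it is contained in the image of the compact set of the points of `closure C ∩ tsupport η` with
`l` in the closed set `tsupport δ`, which contains no value of `l` on `frontier C`; `sg (ν q)` is
locally constant on `O`.  `J(η δ(l) W, l) = δ(l) W J(η, l) + η δ(l) J(W, l)` (`J(l, l) = 0`). -/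
def Stmt_GSA : Prop :=
  ∀ (S : Type w) [TopologicalSpace S] [ChartedSpace E2 S] [IsManifold (𝓡 2) 2 S]
    [CompactSpace S] (C : Set S) (ν : S → E2 → ℝ), IsOpen C → Ori C ν → ∀ η l W : S → ℝ,
    C1S η → C1S l → C1S W → ∀ q, tsupport η ⊆ (extChartAt (𝓡 2) q).source →
    ∀ δ : ℝ → ℝ, ContDiff ℝ 1 δ → (∀ p ∈ frontier C, ∀ᶠ s in 𝓝 (l p), δ s = 0) →
    ∫ x in dm C q, ch η q x * ((δ (ch l q x) * JJ l W q x) * sg (ν q x)) =
      ∫ x in dm C q, (δ (ch l q x) * ch W q x) * (JJ η l q x * sg (ν q x))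

/-- GSB (150 lines; uses GSA, CHG, ITG): Stokes.  By GSA the sum over `q` is the sum of the integrals
of `δ(l) W J(χ_q, l) sg ν` over `dm C q`; insert `1 = ∑_r χ_r` (ITG with `T = tsupport χ_q`:
`J(χ_q, l)` vanishes off `T`), carry the term `(q, r)` to the chart at `r` by CHG with
`ρ = χ_r δ(l) W` cut to the source of `q` (in the chart at `r` the cut may be dropped again:
`J(χ_q, l) = 0` off the source of `q`), and sum over `q` (ITG with `T = tsupport χ_r`):
`∑_q J(χ_q, l) = J(1, l) = 0`. -/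
def Stmt_GSB : Prop :=
  ∀ (S : Type w) [TopologicalSpace S] [ChartedSpace E2 S] [IsManifold (𝓡 2) 2 S]
    [CompactSpace S] (C : Set S) (ν : S → E2 → ℝ), IsOpen C → Ori C ν → ∀ (F : Finset S)
    (χ : S → S → ℝ), Pou F χ → ∀ l W : S → ℝ, C1S l → C1S W → ∀ δ : ℝ → ℝ, ContDiff ℝ 1 δ →
    (∀ p ∈ frontier C, ∀ᶠ s in 𝓝 (l p), δ s = 0) →
    ∑ q ∈ F, ∫ x in dm C q, ch (χ q) q x * ((δ (ch l q x) * JJ l W q x) * sg (ν q x)) = 0

/-- LVL (100 lines; uses nothing): almost every point of a level set is critical.  Enough: one value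
`c`, one index `i`, locally (countable cover): near a point with `pd i l ≠ 0` the function `l` is
strictly monotone in the direction `ee i` on a small square, so every line in this direction meets
the level set in at most one point; Fubini (`measure_prod_null` after
`EuclideanSpace.volume_preserving_measurableEquiv` / `MeasurableEquiv.finTwoArrow`). -/
def Stmt_LVL : Prop :=
  ∀ (O : Set E2) (l : E2 → ℝ) (K : Set ℝ), IsOpen O → ContDiffOn ℝ 1 l O → K.Countable →
    ∀ᵐ x : E2, x ∈ O → l x ∈ K → pd 0 l x = 0 ∧ pd 1 l x = 0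

/-- TAU (60 lines; uses nothing): cut off functions.  For `n` take a smooth function with values in
`[0, 1]`, zero on `cthickening (1 / (n + 1)) K` and one off `thickening (2 / (n + 1)) K` (smooth
Urysohn: `exists_contMDiff_zero_iff_one_iff_of_isClosed`, `exists_contMDiffMap_zero_one_of_isClosed`,
or an explicit one). -/
def Stmt_TAU : Prop :=
  ∀ K : Set ℝ, IsClosed K → ∃ δ : ℕ → ℝ → ℝ, (∀ n, ContDiff ℝ 1 (δ n)) ∧
    (∀ n s, 0 ≤ δ n s ∧ δ n s ≤ 1) ∧ (∀ n, ∀ s ∈ K, ∀ᶠ r in 𝓝 s, δ n r = 0) ∧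
    ∀ s, s ∉ K → Tendsto (fun n => δ n s) atTop (𝓝 1)

/-- LIM (130 lines; uses GSB, LVL, TAU, ITG): `δ_n → 1` off the compact countable set
`K = l '' frontier C` (`l` is continuous: `C1S`), dominated convergence in every chart, and `JJ l W = 0`
almost everywhere where `l ∈ K` (LVL on the target). -/
def Stmt_LIM : Prop :=
  ∀ (S : Type w) [TopologicalSpace S] [ChartedSpace E2 S] [IsManifold (𝓡 2) 2 S]
    [CompactSpace S] (C : Set S) (ν : S → E2 → ℝ), IsOpen C → Ori C ν → ∀ (F : Finset S)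
    (χ : S → S → ℝ), Pou F χ → ∀ l W : S → ℝ, C1S l → C1S W → (l '' frontier C).Countable →
    ∑ q ∈ F, ∫ x in dm C q, ch (χ q) q x * (JJ l W q x * sg (ν q x)) = 0

/-! ### Projective fields -/

/-- an infinitesimal projective transformation -/
noncomputable def XX (c : V3) (L : Matrix (Fin 3) (Fin 3) ℝ) (k : V3) (x : V3) : V3 :=
  c + L *ᵥ x + (k ⬝ᵥ x) • x

/-- DEC (70 lines; uses nothing): `c = ∑ⱼ cⱼ e_{j+1} × e_{j+2}`;
`(b × x) × (b' × x) = (x ⬝ (b × b')) x`, so the last term is `∑ⱼ kⱼ (e_{j+1} × x) × (e_{j+2} × x)`;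
`eⱼ × (eᵢ × x) = xⱼ eᵢ - δᵢⱼ x`, so `L x = ∑ᵢⱼ (Lᵢⱼ - ½ (tr L) δᵢⱼ) eⱼ × (eᵢ × x)`.  Index set
`Fin 3 ⊕ Fin 3 ⊕ Fin 3 × Fin 3`. -/
def Stmt_DEC : Prop :=
  ∀ (c : V3) (L : Matrix (Fin 3) (Fin 3) ℝ) (k : V3), ∃ (ι : Type) (_ : Fintype ι)
    (a b a' b' : ι → V3), ∀ x : V3,
    ∑ i, (a i + b i ⨯₃ x) ⨯₃ (a' i + b' i ⨯₃ x) = XX c L k x

/-- PSH (80 lines; uses nothing): the image of a projective field under a motion `A x = R x + β`:
`k' = R k`, `L' = R L Rᵀ - β (R k)ᵀ - ((R k) ⬝ β) 1`, `c' = R c - R L Rᵀ β + ((R k) ⬝ β) β`.  The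
matrix `R`: see `isoE_exists` in `MP_02e829_s7/Mot9.lean`. -/
def Stmt_PSH : Prop :=
  ∀ (c : V3) (L : Matrix (Fin 3) (Fin 3) ℝ) (k : V3) (A : E3 ≃ᵃⁱ[ℝ] E3), Proper A →
    ∃ (c' : V3) (L' : Matrix (Fin 3) (Fin 3) ℝ) (k' : V3), ∀ x u : E3, L3 u = XX c L k (L3 x) →
    XX c' L' k' (L3 (A x)) = L3 (A.linearIsometryEquiv u)

/-! ### The static theorem -/

/-- C1L (60 lines; uses YC1, LOC, GLB): the functionals are of class `C¹`. -/
def Stmt_C1L : Prop :=
  ∀ (S : Type w) [TopologicalSpace S] [ChartedSpace E2 S] [IsManifold (𝓡 2) 2 S] (f g : S → E3),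
    MPair f g → ∀ a b : V3, C1S fun p => LP a b 0 (Mo f g p)

/-- JAC (100 lines; uses DL7, DIF, LOC, GLB): on the target `ch (LP a b 0 ∘ Mo) q = l7 .. a b 0`
(GLB), `∂ᵢ l = A ⬝ ∂ᵢ y` with `A = a + b × m` (DL7), `∂₀ y × ∂₁ y = (k₀₀ k₁₁ - k₀₁²) n` (DIF). -/
def Stmt_JAC : Prop :=
  ∀ (S : Type w) [TopologicalSpace S] [ChartedSpace E2 S] [IsManifold (𝓡 2) 2 S] (f g : S → E3),
    MPair f g → ∀ (a b a' b' : V3) (q : S), ∀ x ∈ (extChartAt (𝓡 2) q).target,
    JJ (fun p => LP a b 0 (Mo f g p)) (fun p => LP a' b' 0 (Mo f g p)) q x =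
      (kk (loc f q) (loc g q) 0 0 x * kk (loc f q) (loc g q) 1 1 x -
        kk (loc f q) (loc g q) 0 1 x ^ 2) *
      (((a + b ⨯₃ mm (loc f q) (loc g q) x) ⨯₃ (a' + b' ⨯₃ mm (loc f q) (loc g q) x)) ⬝ᵥ
        nn (loc f q) (loc g q) x)

/-- SGK (50 lines; uses DIF, MIX, BND): the sign of `det k`. -/
def Stmt_SGK : Prop :=
  ∀ (U : Set E2) (F G : E2 → V3), Pair U F G → ∀ x ∈ U, PosAt F G x →
    kk F G 0 0 x * kk F G 1 1 x - kk F G 0 1 x ^ 2 ≤ 0 ∧
    (kk F G 0 0 x * kk F G 1 1 x - kk F G 0 1 x ^ 2 = 0 → ∀ i, pd i (yy F G) x = 0)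

section defs2

variable {S : Type w} [TopologicalSpace S] [ChartedSpace E2 S]

/-- the field is not tangent to the mean surface of `f`, `g` at the points of `P` -/
def TrM (c : V3) (L : Matrix (Fin 3) (Fin 3) ℝ) (k : V3) (f g : S → E3) (P : Set S) : Prop :=
  ∀ p ∈ P, ∀ v, (1 / 2 : ℝ) • (L3 (FRD.dvec f p v) + L3 (FRD.dvec g p v)) ≠
    XX c L k ((1 / 2 : ℝ) • (L3 (f p) + L3 (g p)))

/-- the density of a field -/
noncomputable def nu (c : V3) (L : Matrix (Fin 3) (Fin 3) ℝ) (k : V3) (f g : S → E3) (q : S)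
    (x : E2) : ℝ :=
  XX c L k (mm (loc f q) (loc g q) x) ⬝ᵥ nn (loc f q) (loc g q) x

end defs2

/-- ORI (130 lines; uses LOC): `nu` is an orientation.  Law: near `x`
`mm (loc f q) (loc g q) = mm (loc f q') (loc g q') ∘ TT q q'` and `(L e₀) × (L e₁)` for `L = M ∘ D` is
`D.det` times `(M e₀) × (M e₁)`.  If `nu = 0` at `x`, `p = φ_q⁻¹ x`, then the field is in the span of
`∂₀ m, ∂₁ m` (`n ≠ 0` is orthogonal to it), which are the vectors of `TrM` (`LOC_D`, `LOC_pd` in
`B_LOC.lean`, `chart_injective` / `CLO_surj`). -/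
def Stmt_ORI : Prop :=
  ∀ (S : Type w) [TopologicalSpace S] [ChartedSpace E2 S] [IsManifold (𝓡 2) 2 S] (f g : S → E3),
    MPair f g → ∀ (C : Set S) (c : V3) (L : Matrix (Fin 3) (Fin 3) ℝ) (k : V3),
    TrM c L k f g C → Ori C (nu c L k f g)

/-- TLE (130 lines; uses JLW, C1L, JAC, SGK, SIG, LOC, ORI, LCN): the sign of the density.  First part:
at `x` in the chart at `q` put `p = φ_q⁻¹ x`; by JLW and the law of ORI the density at `x` is `|det|` times
the density at the centre of the chart at `p`, which by JAC is `(det k) |nu|`, and `det k ≤ 0` by SGK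
(`PosAt` at the centre of the chart at `p`: `STA_pos` in `B_STA.lean`).  Second part: in the chart at `q`
near its centre (`PosAt` is open: `BAD_pos` in `B_BAD.lean`) `det k = 0` by JAC and `nu ≠ 0`, so
`∂ᵢ y = 0` by SGK: `Rig`, LCN. -/
def Stmt_TLE : Prop :=
  ∀ (S : Type w) [TopologicalSpace S] [ChartedSpace E2 S] [IsManifold (𝓡 2) 2 S] (f g : S → E3),
    MPair f g → ∀ C : Set S, IsOpen C → (∀ q ∈ C, Ell f g q) →
    ∀ (c : V3) (L : Matrix (Fin 3) (Fin 3) ℝ) (k : V3), TrM c L k f g C →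
    ∀ (ι : Type) [Fintype ι] (a b a' b' : ι → V3),
    (∀ x : V3, ∑ i, (a i + b i ⨯₃ x) ⨯₃ (a' i + b' i ⨯₃ x) = XX c L k x) →
    (∀ q, ∀ x ∈ dm C q, (∑ i, JJ (fun p => LP (a i) (b i) 0 (Mo f g p))
      (fun p => LP (a' i) (b' i) 0 (Mo f g p)) q x) * sg (nu c L k f g q x) ≤ 0) ∧
    ((∀ q, ∀ x ∈ dm C q, (∑ i, JJ (fun p => LP (a i) (b i) 0 (Mo f g p))
      (fun p => LP (a' i) (b' i) 0 (Mo f g p)) q x) * sg (nu c L k f g q x) = 0) →
      ∀ q ∈ C, LC f g q)

/-- STT (150 lines; uses PAR, LIM, ITG, DEC, C1L, JLW, ORI, TLE): the static theorem.  Sum LIM over the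
functionals of DEC (each `LP .. ∘ Mo` has countably many values on `frontier C`): the sum over `q ∈ F`
of the integrals of `χ_q T` is zero, `T ≤ 0` the density of TLE, so each integral is zero, `χ_q T = 0`
almost everywhere on the open set `dm C q`, everywhere by continuity (`JJ` of `C¹` functions is
continuous, `sg nu` is locally constant); so `T = 0` in the charts at `q ∈ F` where `χ_q > 0`, in all
charts by JLW and the law of ORI; TLE. -/
def Stmt_STT : Prop :=
  ∀ (S : Type w) [TopologicalSpace S] [ChartedSpace E2 S] [IsManifold (𝓡 2) 2 S] [T2Space S]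
    [CompactSpace S] (f g : S → E3), MPair f g → ∀ C : Set S, IsOpen C → (∀ q ∈ C, Ell f g q) →
    (Mo f g '' frontier C).Countable → ∀ (c : V3) (L : Matrix (Fin 3) (Fin 3) ℝ) (k : V3),
    TrM c L k f g C → ∀ q ∈ C, LC f g q

/-! ### The family -/

section fam

variable {S : Type w} [TopologicalSpace S] [ChartedSpace E2 S]

/-- continuous in the `C²` topology, values included -/
structure Fam3 (f : ℝ → S → E3) : Prop where
  fam : Fam2 f
  cont0 : ∀ p : S, ContinuousOn (fun z : ℝ × E2 => f z.1 ((extChartAt (𝓡 2) p).symm z.2))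
    (Icc (0 : ℝ) 1 ×ˢ (extChartAt (𝓡 2) p).target)

/-- some projective field is nowhere tangent to `f` on `P` -/
def Transv (f : S → E3) (P : Set S) : Prop :=
  ∃ (c : V3) (L : Matrix (Fin 3) (Fin 3) ℝ) (k : V3), ∀ p ∈ P, ∀ v,
    L3 (FRD.dvec f p v) ≠ XX c L k (L3 (f p))

/-- at time `s` the surface is congruent on `C` to the surface at time `0` -/
def TC (f : ℝ → S → E3) (C : Set S) (s : ℝ) : Prop :=
  ∃ A : E3 ≃ᵃⁱ[ℝ] E3, Proper A ∧ ∀ p ∈ C, f s p = A (f 0 p)

/-- the hypothesis on the family -/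
def HypF (f : ℝ → S → E3) : Prop :=
  (∀ q, PosCurv (f 0) q → ∃ C : Set S, IsOpen C ∧ IsPreconnected C ∧ q ∈ C ∧
    (∀ p ∈ C, PosCurv (f 0) p) ∧ ∀ t ∈ Icc (0 : ℝ) 1, Special9 (Mset (f 0) (f t) (frontier C)) ∨
      ((Mset (f 0) (f t) (frontier C)).Countable ∧ Transv (f 0) (closure C))) ∧
  ∀ t ∈ Icc (0 : ℝ) 1, ∀ q ∈ interior {p | ¬ PosCurv (f 0) p}, ∃ B : E3 ≃ᵃⁱ[ℝ] E3, Proper B ∧
    ∀ᶠ p in 𝓝 q, f t p = B (f 0 p)

end fam

/-- TRV (150 lines; uses nothing): stability of transversality.  `X = XX c L k` is continuous.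
(1) There is `d > 0` with `d ≤ ‖X (f p) - df_p v‖` for all `p ∈ K`, `v`: near `p₀` in the chart at `p₀`
the distance is at least `|X ⬝ N| / |N|`, `N = ∂₀F × ∂₁F` (all `df_p v` are orthogonal to `N`), which is
continuous and positive at `p₀`; `K` is compact.  (2) If `½ (df v + D v) = X(½ (f p + z))`, `a = df v`:
`‖½ (a + D v) - a‖ ≤ ½ η ‖a‖`, so `‖a‖ ≤ 2 sup ‖X‖` on the `1`-neighbourhood of `f(K)` (`η ≤ 1`), and
`‖X(½ (f p + z)) - X(f p)‖` is small by uniform continuity on a compact neighbourhood: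
`‖X(f p) - a‖ < d` for small `η`. -/
def Stmt_TRV : Prop :=
  ∀ (S : Type w) [TopologicalSpace S] [ChartedSpace E2 S] [IsManifold (𝓡 2) 2 S]
    [CompactSpace S] (f : S → E3), ContMDiff (𝓡 2) (𝓡 3) 2 f →
    (∀ p, Function.Injective (FRD.dvec f p)) → ∀ K : Set S, IsClosed K →
    ∀ (c : V3) (L : Matrix (Fin 3) (Fin 3) ℝ) (k : V3),
    (∀ p ∈ K, ∀ v, L3 (FRD.dvec f p v) ≠ XX c L k (L3 (f p))) → ∃ η : ℝ, 0 < η ∧ ∀ p ∈ K,
    ∀ (z : E3) (D : E2 → E3), ‖z - f p‖ ≤ η → (∀ v, ‖D v - FRD.dvec f p v‖ ≤ η * ‖FRD.dvec f p v‖) →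
    ∀ v, (1 / 2 : ℝ) • (L3 (FRD.dvec f p v) + L3 (D v)) ≠ XX c L k ((1 / 2 : ℝ) • (L3 (f p) + L3 z))

/-- CLE (120 lines; uses nothing): as `B_CLO.lean`, with an arbitrary constant, and for the values. -/
def Stmt_CLE : Prop :=
  ∀ (S : Type w) [TopologicalSpace S] [ChartedSpace E2 S] [IsManifold (𝓡 2) 2 S]
    [CompactSpace S] (f : ℝ → S → E3), Fam3 f → ∀ η : ℝ, 0 < η → ∀ t0 ∈ Icc (0 : ℝ) 1,
    ∀ᶠ t in 𝓝[Icc (0 : ℝ) 1] t0, (∀ p, ‖f t p - f t0 p‖ ≤ η) ∧
      ∀ p v, ‖FRD.dvec (f t) p v - FRD.dvec (f t0) p v‖ ≤ η * ‖FRD.dvec (f t0) p v‖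

/-- DN9 (60 lines; uses YC1, LOC, GLB, LCN): local form of DN7 (edit of `B_DN7.lean`). -/
def Stmt_DN9 : Prop :=
  ∀ (S : Type w) [TopologicalSpace S] [ChartedSpace E2 S] [IsManifold (𝓡 2) 2 S] (f g : S → E3),
    MPair f g → ∀ U : Set S, IsOpen U → (∀ q ∈ U, q ∈ closure {q' | LC f g q'}) →
    ∀ q ∈ U, LC f g q

/-- MLC (60 lines; uses ROT, GLB): `Mo` is constant on the open preconnected set `C`
(`IsPreconnected.constant_of_...` or `IsPreconnected.subset_of_closure_inter_subset`), then ROT as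
in `blk_FI9`. -/
def Stmt_MLC : Prop :=
  ∀ (S : Type w) [TopologicalSpace S] [ChartedSpace E2 S] [IsManifold (𝓡 2) 2 S] (f g : S → E3),
    MPair f g → ∀ C : Set S, IsOpen C → IsPreconnected C → (∀ q ∈ C, LC f g q) →
    ∃ A : E3 ≃ᵃⁱ[ℝ] E3, Proper A ∧ ∀ p ∈ C, g p = A (f p)

/-- CLD (100 lines; uses nothing): the relation `f' = A ∘ f` on the open set `C` goes over, with the
first derivatives, to the closure (continuity of the values and of `fderiv` of `loc` in the chart at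
the point; `Pool.RL.fderiv_chart`, `CLO_surj`; see `FIN_dvec` in `B_FIN.lean` for the open part). -/
def Stmt_CLD : Prop :=
  ∀ (S : Type w) [TopologicalSpace S] [ChartedSpace E2 S] [IsManifold (𝓡 2) 2 S] (f f' : S → E3),
    ContMDiff (𝓡 2) (𝓡 3) 2 f → ContMDiff (𝓡 2) (𝓡 3) 2 f' → ∀ (A : E3 ≃ᵃⁱ[ℝ] E3) (C : Set S),
    IsOpen C → (∀ p ∈ C, f' p = A (f p)) → ∀ p ∈ closure C, f' p = A (f p) ∧
      ∀ v, FRD.dvec f' p v = A.linearIsometryEquiv (FRD.dvec f p v)

/-- MSC (60 lines; uses nothing): edit of `MS8` in `MP_02e829_s7/Final8.lean`. -/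
def Stmt_MSC : Prop :=
  ∀ (S : Type w) [TopologicalSpace S] [ChartedSpace E2 S] (f f' g : S → E3) (A : E3 ≃ᵃⁱ[ℝ] E3)
    (P : Set S), Proper A → (∀ p ∈ P, f' p = A (f p) ∧
      ∀ v, FRD.dvec f' p v = A.linearIsometryEquiv (FRD.dvec f p v)) →
    Mset f' g P = (fun B => A.symm.trans B) '' Mset f g P

/-- MCO (60 lines; uses CY7, UQ7, ROT, GLB): countably many first order motions, countably many
Cayley data (`EX8` in `Final8.lean`; each motion has at most one Cayley datum). -/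
def Stmt_MCO : Prop :=
  ∀ (S : Type w) [TopologicalSpace S] [ChartedSpace E2 S] [IsManifold (𝓡 2) 2 S] (f g : S → E3),
    MPair f g → ∀ P : Set S, (Mset f g P).Countable → (Mo f g '' P).Countable

/-- CMF (130 lines; uses STT, MCO, CLD, MSC, PSH): one step for a countable set of motions.
`f s = A ∘ f 0` on `closure C` with first derivatives (CLD); `Mset (f s) (f t)` by MSC; the field
`XX c' L' k'` of PSH is transversal to the mean surface of `f s`, `f t` on `C`: otherwise apply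
`A⁻¹`; the hypothesis with `z = A⁻¹ (f t p)`, `D v = A.lin⁻¹ (dvec (f t) p v)`. -/
def Stmt_CMF : Prop :=
  ∀ (S : Type w) [TopologicalSpace S] [ChartedSpace E2 S] [IsManifold (𝓡 2) 2 S] [T2Space S]
    [CompactSpace S] (f0 fs ft : S → E3), ContMDiff (𝓡 2) (𝓡 3) 2 f0 → MPair fs ft →
    ∀ C : Set S, IsOpen C → (∀ q ∈ C, Ell fs ft q) → (Mset f0 ft (frontier C)).Countable →
    ∀ (c : V3) (L : Matrix (Fin 3) (Fin 3) ℝ) (k : V3) (η : ℝ), (∀ p ∈ closure C,
      ∀ (z : E3) (D : E2 → E3), ‖z - f0 p‖ ≤ η → (∀ v, ‖D v - FRD.dvec f0 p v‖ ≤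
        η * ‖FRD.dvec f0 p v‖) → ∀ v, (1 / 2 : ℝ) • (L3 (FRD.dvec f0 p v) + L3 (D v)) ≠
        XX c L k ((1 / 2 : ℝ) • (L3 (f0 p) + L3 z))) →
    (∀ p, ‖ft p - fs p‖ ≤ η) →
    (∀ p v, ‖FRD.dvec ft p v - FRD.dvec fs p v‖ ≤ η * ‖FRD.dvec fs p v‖) →
    ∀ A : E3 ≃ᵃⁱ[ℝ] E3, Proper A → (∀ p ∈ C, fs p = A (f0 p)) → ∀ q ∈ C, LC fs ft q

/-- FTF (200 lines; uses CMF, TRV, CLE, DN9, MLC, CLD, MSC, LR7, DN7, CLO, ELP, SGN, ROT, GLB and the
hypotheses of `CM9`, `SP9` in `Final9.lean`).  (1) For every `C` of the hypothesis `TC f C` is open and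
closed in `[0, 1]`: for `t` near `s` (CLO, CLE with the `η` of TRV) each of `TC f C s`, `TC f C t`
implies the other (`CM9` + DN9, or CMF; then MLC).  (2) So `f t = A_{t,C} f 0` on `C` for all `t`; for
`s, t` close, `f t = A_{t,C} A_{s,C}⁻¹ f s` on `C`, LR7; the same on the interior of the complement;
DN7; end as in `FI9_step`. -/
def Stmt_FTF : Prop :=
  ∀ (S : Type w) [TopologicalSpace S] [ChartedSpace E2 S] [IsManifold (𝓡 2) 2 S] [T2Space S]
    [CompactSpace S] [ConnectedSpace S] (f : ℝ → S → E3), Fam3 f → HypF f →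
    ∀ t ∈ Icc (0 : ℝ) 1, ∃ A : E3 ≃ᵃⁱ[ℝ] E3, Proper A ∧ ∀ p, f t p = A (f 0 p)

end Pool.SXB
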