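import Pool.Agent.Work.MP_02e829_sf.Interface

/-!
# Block C1L: the functionals are of class C¹
-/

open Set Filter Manifold Matrix MeasureTheory Metric
open scoped Topology ContDiff Manifold

set_option autoImplicit false

universe w

namespace Pool.SXB

open Pool.FR (pd ee)

theorem C1L_dot {U : Set E2} (a : V3) {F : E2 → V3} (hF : ContDiffOn ℝ 1 F U) :
    ContDiffOn ℝ 1 (fun x => a ⬝ᵥ F x) U := by
  have h1 : ∀ i, ContDiffOn ℝ 1 (fun x => F x i) U := contDiffOn_pi.1 hF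
  have h2 : ContDiffOn ℝ 1 (fun x => ∑ i, a i * F x i) U :=
    ContDiffOn.sum fun i _ => contDiffOn_const.mul (h1 i)
  exact h2

theorem blk_C1L (hYC1 : Stmt_YC1) (hLOC : Stmt_LOC.{w}) (hGLB : Stmt_GLB.{w}) :
    Stmt_C1L.{w} := by
  intro S _ _ _ f g hfg a b q
  obtain ⟨hY, hW, -⟩ := hYC1 _ (loc f q) (loc g q) (hLOC S f g hfg q)
  have hglb := (hGLB S f g hfg).1 q
  have h1 : ContDiffOn ℝ 1 (fun x => a ⬝ᵥ yy (loc f q) (loc g q) x +
      b ⬝ᵥ ww (loc f q) (loc g q) x) (extChartAt (𝓡 2) q).target :=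
    (C1L_dot a hY).add (C1L_dot b hW)
  refine h1.congr ?_
  intro x hx
  have h2 := hglb x hx
  show LP a b 0 (Mo f g ((extChartAt (𝓡 2) q).symm x)) = _
  simp only [LP, Mo, h2.1, h2.2]
  simp

end Pool.SXB
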