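import Pool.Agent.Work.MP_02e829_sf.B_JLW

/-!
# Block CHG: change of variables
-/

open Set Filter Manifold Matrix MeasureTheory Metric
open scoped Topology ContDiff Manifold

set_option autoImplicit false

universe w

namespace Pool.SXB

open Pool.FR (pd ee)

section

variable {S : Type w} [TopologicalSpace S] [ChartedSpace E2 S]

lemma CHG_back (q q' : S) {x : E2} (hx : x ∈ JLW_ov q q') : TT q' q (TT q q' x) = x := by
  have h1 : TT q' q (TT q q' x) = extChartAt (𝓡 2) q ((extChartAt (𝓡 2) q).symm x) := by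
    rw [← JLW_symm q q' hx]; rfl
  rw [h1]
  exact (extChartAt (𝓡 2) q).right_inv hx.1

/-- the part of `dm C q` over the source of `q'` -/
def CHG_s (C : Set S) (q q' : S) : Set E2 := JLW_ov q q' ∩ (extChartAt (𝓡 2) q).symm ⁻¹' C

lemma CHG_s_eq (C : Set S) (q q' : S) :
    CHG_s C q q' = (extChartAt (𝓡 2) q).target ∩ (extChartAt (𝓡 2) q).symm ⁻¹'
      ((extChartAt (𝓡 2) q').source ∩ C) := by
  ext x
  simp only [CHG_s, JLW_ov, mem_inter_iff, mem_preimage]
  tauto

lemma CHG_s_open {C : Set S} (hC : IsOpen C) (q q' : S) : IsOpen (CHG_s C q q') := by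
  rw [CHG_s_eq]
  exact (continuousOn_extChartAt_symm q).isOpen_inter_preimage (isOpen_extChartAt_target q)
    ((isOpen_extChartAt_source q').inter hC)

lemma CHG_dm_open {C : Set S} (hC : IsOpen C) (q : S) : IsOpen (dm C q) :=
  (continuousOn_extChartAt_symm q).isOpen_inter_preimage (isOpen_extChartAt_target q) hC

lemma CHG_s_sub (C : Set S) (q q' : S) : CHG_s C q q' ⊆ dm C q := fun _ hx => ⟨hx.1.1, hx.2⟩

lemma CHG_maps (C : Set S) (q q' : S) {x : E2} (hx : x ∈ CHG_s C q q') :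
    TT q q' x ∈ CHG_s C q' q := by
  refine ⟨⟨JLW_mem q q' hx.1, ?_⟩, ?_⟩
  · show (extChartAt (𝓡 2) q').symm (TT q q' x) ∈ (extChartAt (𝓡 2) q).source
    rw [JLW_symm q q' hx.1]
    exact (extChartAt (𝓡 2) q).map_target hx.1.1
  · show (extChartAt (𝓡 2) q').symm (TT q q' x) ∈ C
    rw [JLW_symm q q' hx.1]
    exact hx.2

lemma CHG_image (C : Set S) (q q' : S) : TT q q' '' CHG_s C q q' = CHG_s C q' q := by
  apply Subset.antisymm
  · rintro _ ⟨x, hx, rfl⟩
    exact CHG_maps C q q' hx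
  · intro y hy
    exact ⟨TT q' q y, CHG_maps C q' q hy, CHG_back q' q hy.1⟩

lemma CHG_inj (C : Set S) (q q' : S) : InjOn (TT q q') (CHG_s C q q') := by
  intro x hx y hy h
  rw [← CHG_back q q' hx.1, h, CHG_back q q' hy.1]

/-- `sg (d * r) * d = |d| * sg r` -/
lemma CHG_sg {d r : ℝ} (hd : d ≠ 0) : d * sg (d * r) = |d| * sg r := by
  unfold sg
  rcases eq_or_ne r 0 with rfl | hr
  · simp
  · rw [abs_mul]
    have h1 : |d| ≠ 0 := abs_ne_zero.2 hd
    have h2 : |r| ≠ 0 := abs_ne_zero.2 hr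
    have h3 : |d| * |d| = d * d := abs_mul_abs_self d
    field_simp
    rw [pow_two, pow_two, h3]

/-- the integral over `dm C q` is the integral over the overlap -/
lemma CHG_red {C : Set S} (hC : IsOpen C) (q q' : S) (ρ : S → ℝ)
    (hρ : ∀ p, ρ p ≠ 0 → p ∈ (extChartAt (𝓡 2) q').source) (h : E2 → ℝ) :
    ∫ x in dm C q, ch ρ q x * h x = ∫ x in CHG_s C q q', ch ρ q x * h x := by
  refine (setIntegral_eq_of_subset_of_forall_sdiff_eq_zero (CHG_dm_open hC q).measurableSet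
    (CHG_s_sub C q q') ?_)
  rintro x ⟨hx1, hx2⟩
  have h1 : ch ρ q x = 0 := by
    by_contra hne
    exact hx2 ⟨⟨hx1.1, hρ _ hne⟩, hx1.2⟩
  rw [h1, zero_mul]

end

theorem p_CHG (hJLW : Stmt_JLW.{w}) : Stmt_CHG.{w} := by
  intro S _ _ _ C ν hC hν u W hu hW q q' ρ hρ
  rw [CHG_red hC q q' ρ (fun p hp => (hρ p hp).2) fun x => JJ u W q x * sg (ν q x),
    CHG_red hC q' q ρ (fun p hp => (hρ p hp).1) fun x => JJ u W q' x * sg (ν q' x)]
  rw [← CHG_image C q q']
  have hd : ∀ x ∈ CHG_s C q q', HasFDerivWithinAt (TT q q') (fderiv ℝ (TT q q') x)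
      (CHG_s C q q') x := fun x hx =>
    ((JLW_smooth q q' hx.1).differentiableAt (by norm_num)).hasFDerivAt.hasFDerivWithinAt
  rw [integral_image_eq_integral_abs_det_fderiv_smul volume (CHG_s_open hC q q').measurableSet hd
    (CHG_inj C q q')]
  refine setIntegral_congr_fun (CHG_s_open hC q q').measurableSet fun x hx => ?_
  have h1 := hJLW S u W hu hW q q' x hx.1.1 hx.1.2
  have h2 := hν.law q q' x hx.1.1 hx.1.2
  have h3 : ν q x ≠ 0 := hν.ne q x (CHG_s_sub C q q' hx)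
  have h4 : (fderiv ℝ (TT q q') x).det ≠ 0 := by
    intro h5
    rw [h5, zero_mul] at h2
    exact h3 h2
  show ch ρ q x * (JJ u W q x * sg (ν q x)) = |(fderiv ℝ (TT q q') x).det| •
    (ch ρ q' (TT q q' x) * (JJ u W q' (TT q q' x) * sg (ν q' (TT q q' x))))
  rw [h1, h2, JLW_ch ρ q q' hx.1, smul_eq_mul]
  have h5 := CHG_sg (r := ν q' (TT q q' x)) h4
  linear_combination (ch ρ q' (TT q q' x) * JJ u W q' (TT q q' x)) * h5

end Pool.SXB
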