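import Pool.Agent.Work.MP_02e829_sf.Interface
import Pool.Agent.Work.MP_02e829_sb.B_CLO

/-!
# Block CLD (MP_02e829_gt): a rigid motion on an open set goes over to the closure
-/

open Set Filter Manifold Matrix MeasureTheory Metric
open scoped Topology ContDiff Manifold

set_option autoImplicit false

universe w

namespace Pool.SXB

open Pool.FR (pd ee)

theorem CLD_A (A : E3 ≃ᵃⁱ[ℝ] E3) (z : E3) : HasFDerivAt (⇑A)
    (A.linearIsometryEquiv.toContinuousLinearEquiv : E3 →L[ℝ] E3) z := by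
  have h3 : (⇑A) = fun z => A.linearIsometryEquiv z + A 0 := by
    funext z
    have h4 := A.map_vadd (0 : E3) z
    simp only [vadd_eq_add, add_zero] at h4
    rw [h4]
  rw [h3]
  exact (A.linearIsometryEquiv.toContinuousLinearEquiv.hasFDerivAt (x := z)).add_const (A 0)

section CLD

variable {S : Type w} [TopologicalSpace S] [ChartedSpace E2 S] [IsManifold (𝓡 2) 2 S]

theorem CLD_cd {f : S → E3} (hf : ContMDiff (𝓡 2) (𝓡 3) 2 f) (p : S) :
    ContDiffOn ℝ 2 (fun x => f ((extChartAt (𝓡 2) p).symm x)) (extChartAt (𝓡 2) p).target := by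
  have h1 : ContMDiffOn 𝓘(ℝ, E2) (𝓡 2) 2 (extChartAt (𝓡 2) p).symm
      (extChartAt (𝓡 2) p).target := contMDiffOn_extChartAt_symm (n := 2) p
  have h2 := hf.comp_contMDiffOn h1
  exact contMDiffOn_iff_contDiffOn.1 h2

theorem CLD_open {f f' : S → E3} (hf : ContMDiff (𝓡 2) (𝓡 3) 2 f)
    (A : E3 ≃ᵃⁱ[ℝ] E3) {C : Set S} (hC : IsOpen C) (h : ∀ p ∈ C, f' p = A (f p)) (p : S) {x : E2}
    (hx : x ∈ (extChartAt (𝓡 2) p).target) (hxC : (extChartAt (𝓡 2) p).symm x ∈ C) :
    fderiv ℝ (fun x => f' ((extChartAt (𝓡 2) p).symm x)) x =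
      (A.linearIsometryEquiv.toContinuousLinearEquiv : E3 →L[ℝ] E3).comp
        (fderiv ℝ (fun x => f ((extChartAt (𝓡 2) p).symm x)) x) := by
  have hT : IsOpen (extChartAt (𝓡 2) p).target := isOpen_extChartAt_target p
  have h1 : ∀ᶠ z in 𝓝 x, (extChartAt (𝓡 2) p).symm z ∈ C :=
    ((continuousOn_extChartAt_symm p).continuousAt (hT.mem_nhds hx)).eventually
      (hC.mem_nhds hxC)
  have h2 : (fun x => f' ((extChartAt (𝓡 2) p).symm x)) =ᶠ[𝓝 x]
      fun x => A (f ((extChartAt (𝓡 2) p).symm x)) := by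
    filter_upwards [h1] with z hz
    exact h _ hz
  rw [h2.fderiv_eq]
  have h3 : DifferentiableAt ℝ (fun x => f ((extChartAt (𝓡 2) p).symm x)) x :=
    ((CLD_cd hf p).contDiffAt (hT.mem_nhds hx)).differentiableAt (by norm_num)
  exact ((CLD_A A _).comp x h3.hasFDerivAt).fderiv

end CLD

theorem blk_CLD : Stmt_CLD.{w} := by
  intro S _ _ _ f f' hf hf' A C hC h p hp
  refine ⟨?_, ?_⟩
  · have h1 : IsClosed {q : S | f' q = A (f q)} :=
      isClosed_eq hf'.continuous (A.continuous.comp hf.continuous)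
    exact closure_minimal h h1 hp
  · set φ := extChartAt (𝓡 2) p with hφ
    have hT : IsOpen φ.target := isOpen_extChartAt_target p
    have hps : p ∈ φ.source := mem_extChartAt_source (I := 𝓡 2) p
    have hxp : φ p ∈ φ.target := φ.map_source hps
    -- the set of points of the target over `C`
    set D : Set E2 := φ.target ∩ φ.symm ⁻¹' C with hD
    have hcl : φ p ∈ closure D := by
      rw [mem_closure_iff_nhds]
      intro N hN
      have h1 : ∀ᶠ q in 𝓝 p, φ q ∈ N :=
        (continuousAt_extChartAt (I := 𝓡 2) p).eventually hN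
      have h2 : ∀ᶠ q in 𝓝 p, q ∈ φ.source := extChartAt_source_mem_nhds (I := 𝓡 2) p
      obtain ⟨q, ⟨hq1, hq2⟩, hqC⟩ := mem_closure_iff_nhds.1 hp _ (h1.and h2)
      refine ⟨φ q, hq1, φ.map_source hq2, ?_⟩
      change φ.symm (φ q) ∈ C
      rw [φ.left_inv hq2]
      exact hqC
    have c1 : ContinuousAt (fun x => fderiv ℝ (fun x => f' (φ.symm x)) x) (φ p) :=
      ((CLD_cd hf' p).continuousOn_fderiv_of_isOpen hT (by norm_num)).continuousAt
        (hT.mem_nhds hxp)
    have c2 : ContinuousAt (fun x => fderiv ℝ (fun x => f (φ.symm x)) x) (φ p) :=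
      ((CLD_cd hf p).continuousOn_fderiv_of_isOpen hT (by norm_num)).continuousAt
        (hT.mem_nhds hxp)
    have c3 : ContinuousAt (fun x =>
        (A.linearIsometryEquiv.toContinuousLinearEquiv : E3 →L[ℝ] E3).comp
          (fderiv ℝ (fun x => f (φ.symm x)) x)) (φ p) :=
      continuousAt_const.clm_comp c2
    have key : fderiv ℝ (fun x => f' (φ.symm x)) (φ p) =
        (A.linearIsometryEquiv.toContinuousLinearEquiv : E3 →L[ℝ] E3).comp
          (fderiv ℝ (fun x => f (φ.symm x)) (φ p)) := by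
      have : (𝓝[D] (φ p)).NeBot := mem_closure_iff_nhdsWithin_neBot.1 hcl
      have t1 := c1.tendsto.mono_left (nhdsWithin_le_nhds (s := D))
      have t3 := c3.tendsto.mono_left (nhdsWithin_le_nhds (s := D))
      refine tendsto_nhds_unique t1 (t3.congr' ?_)
      filter_upwards [self_mem_nhdsWithin] with x hx
      exact (CLD_open hf A hC h p hx.1 hx.2).symm
    intro v
    obtain ⟨u, hu⟩ := CLO_surj p hxp v
    have e1 : fderiv ℝ (fun x => f' (φ.symm x)) (φ p) u = FRD.dvec f' p v := by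
      have := Pool.RL.fderiv_chart hf' p hxp u
      rw [hu, φ.left_inv hps] at this
      exact this
    have e2 : fderiv ℝ (fun x => f (φ.symm x)) (φ p) u = FRD.dvec f p v := by
      have := Pool.RL.fderiv_chart hf p hxp u
      rw [hu, φ.left_inv hps] at this
      exact this
    rw [← e1, key, ← e2]
    rfl

end Pool.SXB
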