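import Pool.Agent.Work.MP_02e829_sf.Interface
import Pool.Agent.Work.MP_02e829_sb.B_CLO

/-! # Block CLE: nearby times give close maps -/

open Set Filter Manifold Matrix MeasureTheory Metric
open scoped Topology ContDiff Manifold

set_option autoImplicit false

universe w

namespace Pool.SXB

open Pool.FR (pd ee)

theorem CLE_op {A B C : E2 →L[ℝ] E3} {c δ η : ℝ} (hη : 0 < η) (hC : ∀ v, c * ‖v‖ ≤ ‖C v‖)
    (hδ1 : δ ≤ c / 2) (hδ2 : δ ≤ η * c / 4)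
    (hA : ‖A - C‖ ≤ δ) (hB : ‖B - C‖ ≤ δ) (v : E2) : ‖A v - B v‖ ≤ η * ‖B v‖ := by
  have h1 : ‖A v - C v‖ ≤ δ * ‖v‖ := by
    have := (A - C).le_of_opNorm_le hA v
    simpa using this
  have h2 : ‖B v - C v‖ ≤ δ * ‖v‖ := by
    have := (B - C).le_of_opNorm_le hB v
    simpa using this
  have h3 : ‖A v - B v‖ ≤ ‖A v - C v‖ + ‖B v - C v‖ := by
    have := norm_sub_le (A v - C v) (B v - C v)
    simpa using this
  have h4 : ‖C v‖ ≤ ‖B v‖ + ‖B v - C v‖ := by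
    have := norm_sub_le (B v) (B v - C v)
    simpa using this
  have h5 := hC v
  have h6 := norm_nonneg v
  have h7 : c / 2 * ‖v‖ ≤ ‖B v‖ := by
    have h8 : δ * ‖v‖ ≤ c / 2 * ‖v‖ := mul_le_mul_of_nonneg_right hδ1 h6
    have h9 : c * ‖v‖ = c / 2 * ‖v‖ + c / 2 * ‖v‖ := by ring
    linarith
  have h8 : δ * ‖v‖ ≤ η * c / 4 * ‖v‖ := mul_le_mul_of_nonneg_right hδ2 h6
  have h9 : η * (c / 2 * ‖v‖) ≤ η * ‖B v‖ := mul_le_mul_of_nonneg_left h7 hη.le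
  have h10 : η * (c / 2 * ‖v‖) = η * c / 4 * ‖v‖ + η * c / 4 * ‖v‖ := by ring
  linarith

section surface

variable {S : Type w} [TopologicalSpace S] [ChartedSpace E2 S] [IsManifold (𝓡 2) 2 S]

theorem CLE_close {f : ℝ → S → E3} (hf : Fam3 f) {η : ℝ} (hη : 0 < η) {t0 : ℝ}
    (ht0 : t0 ∈ Icc (0 : ℝ) 1) (p : S) :
    ∀ᶠ z : ℝ × S in 𝓝 (t0, p), z.1 ∈ Icc (0 : ℝ) 1 →
      ‖f z.1 z.2 - f t0 z.2‖ ≤ η ∧
      ∀ v, ‖FRD.dvec (f z.1) z.2 v - FRD.dvec (f t0) z.2 v‖ ≤ η * ‖FRD.dvec (f t0) z.2 v‖ := by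
  set φ := extChartAt (𝓡 2) p with hφ
  set A : ℝ × E2 → (E2 →L[ℝ] E3) := fun z => fderiv ℝ (fun x => f z.1 (φ.symm x)) z.2 with hA
  set V : ℝ × E2 → E3 := fun z => f z.1 (φ.symm z.2) with hV
  have hxp : φ p ∈ φ.target := φ.map_source (mem_extChartAt_source (I := 𝓡 2) p)
  have hinj : Function.Injective (A (t0, φ p)) := by
    have h1 : ⇑(A (t0, φ p)) = FRD.dvec (f t0) (φ.symm (φ p)) ∘
        (mfderiv 𝓘(ℝ, E2) (𝓡 2) φ.symm (φ p)) :=
      funext fun w => Pool.RL.fderiv_chart (hf.fam.smooth t0 ht0) p hxp w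
    rw [h1]
    exact (hf.fam.imm t0 ht0 _).comp (Pool.RL.chart_injective p hxp)
  obtain ⟨c, hc, hcl⟩ := CLO_lower hinj
  obtain ⟨δ, hδ⟩ : ∃ δ : ℝ, δ = min (c / 2) (η * c / 4) := ⟨_, rfl⟩
  have hδ0 : 0 < δ := by
    rw [hδ]
    exact lt_min (by positivity) (by positivity)
  have hδ1 : δ ≤ c / 2 := by
    rw [hδ]
    exact min_le_left _ _
  have hδ2 : δ ≤ η * c / 4 := by
    rw [hδ]
    exact min_le_right _ _
  have hcont : ∀ᶠ z in 𝓝[Icc (0 : ℝ) 1 ×ˢ φ.target] (t0, φ p), ‖A z - A (t0, φ p)‖ ≤ δ := by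
    have h1 : ContinuousWithinAt A (Icc (0 : ℝ) 1 ×ˢ φ.target) (t0, φ p) :=
      hf.fam.cont1 p (t0, φ p) ⟨ht0, hxp⟩
    have h2 := Metric.continuousWithinAt_iff'.1 h1 δ hδ0
    filter_upwards [h2] with z hz
    rw [dist_eq_norm] at hz
    exact hz.le
  have hcont0 : ∀ᶠ z in 𝓝[Icc (0 : ℝ) 1 ×ˢ φ.target] (t0, φ p), ‖V z - V (t0, φ p)‖ ≤ η / 2 := by
    have h1 : ContinuousWithinAt V (Icc (0 : ℝ) 1 ×ˢ φ.target) (t0, φ p) :=
      hf.cont0 p (t0, φ p) ⟨ht0, hxp⟩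
    have h2 := Metric.continuousWithinAt_iff'.1 h1 (η / 2) (by positivity)
    filter_upwards [h2] with z hz
    rw [dist_eq_norm] at hz
    exact hz.le
  rw [eventually_nhdsWithin_iff] at hcont hcont0
  have hφc : ContinuousAt φ p := continuousAt_extChartAt (I := 𝓡 2) p
  have c1 : Tendsto (fun z : ℝ × S => (z.1, φ z.2)) (𝓝 (t0, p)) (𝓝 (t0, φ p)) := by
    have h1 : ContinuousAt (fun z : ℝ × S => (z.1, φ z.2)) (t0, p) :=
      continuousAt_fst.prodMk (ContinuousAt.comp (f := Prod.snd) (g := φ) hφc continuousAt_snd)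
    exact h1
  have c2 : Tendsto (fun z : ℝ × S => (t0, φ z.2)) (𝓝 (t0, p)) (𝓝 (t0, φ p)) := by
    have h1 : ContinuousAt (fun z : ℝ × S => (t0, φ z.2)) (t0, p) :=
      continuousAt_const.prodMk (ContinuousAt.comp (f := Prod.snd) (g := φ) hφc continuousAt_snd)
    exact h1
  have c3 : ∀ᶠ z : ℝ × S in 𝓝 (t0, p), z.2 ∈ φ.source := by
    have h1 : Tendsto (fun z : ℝ × S => z.2) (𝓝 (t0, p)) (𝓝 p) := continuousAt_snd
    exact h1.eventually (extChartAt_source_mem_nhds (I := 𝓡 2) p)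
  filter_upwards [c1.eventually hcont, c2.eventually hcont, c3, c1.eventually hcont0,
    c2.eventually hcont0] with z h1 h2 h3 g1 g2 hz
  have hx : φ z.2 ∈ φ.target := φ.map_source h3
  refine ⟨?_, fun v => ?_⟩
  · have h4 := g1 ⟨hz, hx⟩
    have h5 := g2 ⟨ht0, hx⟩
    have e1 : V (z.1, φ z.2) = f z.1 z.2 := by
      show f z.1 (φ.symm (φ z.2)) = f z.1 z.2
      rw [φ.left_inv h3]
    have e2 : V (t0, φ z.2) = f t0 z.2 := by
      show f t0 (φ.symm (φ z.2)) = f t0 z.2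
      rw [φ.left_inv h3]
    rw [e1] at h4
    rw [e2] at h5
    have h6 := norm_sub_le (f z.1 z.2 - V (t0, φ p)) (f t0 z.2 - V (t0, φ p))
    rw [sub_sub_sub_cancel_right] at h6
    linarith
  · have h4 := h1 ⟨hz, hx⟩
    have h5 := h2 ⟨ht0, hx⟩
    obtain ⟨w, hw⟩ := CLO_surj p hx v
    have h6 := CLE_op hη hcl hδ1 hδ2 h4 h5 w
    have e1 : A (z.1, φ z.2) w = FRD.dvec (f z.1) z.2 v := by
      have := Pool.RL.fderiv_chart (hf.fam.smooth z.1 hz) p hx w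
      rw [hw, φ.left_inv h3] at this
      exact this
    have e2 : A (t0, φ z.2) w = FRD.dvec (f t0) z.2 v := by
      have := Pool.RL.fderiv_chart (hf.fam.smooth t0 ht0) p hx w
      rw [hw, φ.left_inv h3] at this
      exact this
    rw [e1, e2] at h6
    exact h6

end surface

theorem blk_CLE : Stmt_CLE.{w} := by
  intro S _ _ _ _ f hf η hη t0 ht0
  have h1 : ∀ᶠ t in 𝓝 t0, ∀ p ∈ (univ : Set S), t ∈ Icc (0 : ℝ) 1 →
      ‖f t p - f t0 p‖ ≤ η ∧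
      ∀ v, ‖FRD.dvec (f t) p v - FRD.dvec (f t0) p v‖ ≤ η * ‖FRD.dvec (f t0) p v‖ :=
    isCompact_univ.eventually_forall_of_forall_eventually fun p _ => CLE_close hf hη ht0 p
  rw [eventually_nhdsWithin_iff]
  filter_upwards [h1] with t ht htI
  exact ⟨fun p => (ht p (mem_univ p) htI).1, fun p => (ht p (mem_univ p) htI).2⟩

end Pool.SXB
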