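import Pool.Agent.Work.MP_02e829_sf.Interface

/-! Block CMF (helper24). -/

open Set Filter Manifold Matrix MeasureTheory Metric
open scoped Topology ContDiff Manifold

set_option autoImplicit false

universe w

namespace Pool.SXB

open Pool.FR (pd ee)

theorem CMF_aff (A : E3 ≃ᵃⁱ[ℝ] E3) (x : E3) : A x = A.linearIsometryEquiv x + A 0 := by
  have h := A.map_vadd 0 x
  simpa only [vadd_eq_add, add_zero] using h

theorem CMF_mid (A : E3 ≃ᵃⁱ[ℝ] E3) (a b : E3) :
    A ((1 / 2 : ℝ) • (a + b)) = (1 / 2 : ℝ) • (A a + A b) := by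
  rw [CMF_aff A ((1 / 2 : ℝ) • (a + b)), CMF_aff A a, CMF_aff A b, map_smul, map_add]
  module

theorem CMF_inj {u v : E3} (h : L3 u = L3 v) : u = v :=
  (EuclideanSpace.equiv (Fin 3) ℝ).injective h

theorem CMF_surj (w : V3) : ∃ u : E3, L3 u = w :=
  (EuclideanSpace.equiv (Fin 3) ℝ).surjective w

theorem blk_CMF (hSTT : Stmt_STT.{w}) (hMCO : Stmt_MCO.{w}) (hCLD : Stmt_CLD.{w})
    (hMSC : Stmt_MSC.{w}) (hPSH : Stmt_PSH) : Stmt_CMF.{w} := by
  intro S _ _ _ _ _ f0 fs ft hf0 hP C hC hE hM c L k η hH hη1 hη2 A hA hfs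
  have hcl := hCLD S f0 fs hf0 hP.smf A C hC hfs
  have hM' : (Mset fs ft (frontier C)).Countable := by
    rw [hMSC S f0 fs ft A (frontier C) hA fun p hp => hcl p (frontier_subset_closure hp)]
    exact hM.image _
  have hMo := hMCO S fs ft hP (frontier C) hM'
  obtain ⟨c', L', k', hX⟩ := hPSH c L k A hA
  refine hSTT S fs ft hP C hC hE hMo c' L' k' ?_
  intro p hp v heq
  obtain ⟨e1, e2⟩ := hcl p (subset_closure hp)
  have hz : A (A.symm (ft p)) = ft p := A.apply_symm_apply _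
  have hD : ∀ v', A.linearIsometryEquiv (A.linearIsometryEquiv.symm (FRD.dvec ft p v')) =
      FRD.dvec ft p v' := fun v' => A.linearIsometryEquiv.apply_symm_apply _
  have n1 : ‖A.symm (ft p) - f0 p‖ ≤ η := by
    have h1 := A.dist_map (A.symm (ft p)) (f0 p)
    rw [hz, ← e1, dist_eq_norm, dist_eq_norm] at h1
    rw [← h1]
    exact hη1 p
  have n2 : ∀ v', ‖A.linearIsometryEquiv.symm (FRD.dvec ft p v') - FRD.dvec f0 p v'‖ ≤
      η * ‖FRD.dvec f0 p v'‖ := by
    intro v'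
    have h1 := A.linearIsometryEquiv.norm_map
      (A.linearIsometryEquiv.symm (FRD.dvec ft p v') - FRD.dvec f0 p v')
    rw [map_sub, hD, ← e2] at h1
    have h2 := A.linearIsometryEquiv.norm_map (FRD.dvec f0 p v')
    rw [← e2] at h2
    rw [← h1, ← h2]
    exact hη2 p v'
  have hne := hH p (subset_closure hp) (A.symm (ft p))
    (fun v' => A.linearIsometryEquiv.symm (FRD.dvec ft p v')) n1 n2 v
  apply hne
  obtain ⟨u, hu⟩ := CMF_surj (XX c L k ((1 / 2 : ℝ) • (L3 (f0 p) + L3 (A.symm (ft p)))))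
  have hx : L3 ((1 / 2 : ℝ) • (f0 p + A.symm (ft p))) =
      (1 / 2 : ℝ) • (L3 (f0 p) + L3 (A.symm (ft p))) := by
    rw [map_smul, map_add]
  have h1 := hX ((1 / 2 : ℝ) • (f0 p + A.symm (ft p))) u (by rw [hu, hx])
  rw [CMF_mid, hz, ← e1, map_smul, map_add, ← heq] at h1
  have h2 : (1 / 2 : ℝ) • (FRD.dvec fs p v + FRD.dvec ft p v) = A.linearIsometryEquiv u := by
    apply CMF_inj
    rw [map_smul, map_add]
    exact h1
  rw [e2, ← hD v, ← map_add, ← map_smul] at h2
  have h3 := A.linearIsometryEquiv.injective h2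
  rw [← hu, ← h3, map_smul, map_add]

end Pool.SXB
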