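import Pool.Agent.Work.MP_02e829_sf.Interface

/-! # Block DEC (helper73): a projective field is a sum of cross products of Killing fields -/

open Set Filter Manifold Matrix MeasureTheory Metric
open scoped Topology ContDiff Manifold

set_option autoImplicit false

universe w

namespace Pool.SXB

open Pool.FR (pd ee)

/-- the unit vectors -/
def DEC_e (j : Fin 3) : V3 := fun i => if i = j then 1 else 0

theorem blk_DEC : Stmt_DEC := by
  intro c L k
  set α : Fin 3 → Fin 3 → ℝ := fun i j =>
    L i j - if i = j then (L 0 0 + L 1 1 + L 2 2) / 2 else 0 with hα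
  refine ⟨Fin 3 ⊕ Fin 3 ⊕ (Fin 3 × Fin 3), inferInstance,
    Sum.elim (fun j => c j • DEC_e (j + 1)) (Sum.elim (fun _ => 0) fun p => α p.1 p.2 • DEC_e p.2),
    Sum.elim (fun _ => 0) (Sum.elim (fun j => k j • DEC_e (j + 1)) fun _ => 0),
    Sum.elim (fun j => DEC_e (j + 2)) (Sum.elim (fun _ => 0) fun _ => 0),
    Sum.elim (fun _ => 0) (Sum.elim (fun j => DEC_e (j + 2)) fun p => DEC_e p.1), ?_⟩
  intro x
  rw [Fintype.sum_sum_type, Fintype.sum_sum_type, Fintype.sum_prod_type]
  simp only [Sum.elim_inl, Sum.elim_inr, Fin.sum_univ_three]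
  ext i
  fin_cases i <;>
    simp [XX, cross_apply, DEC_e, hα, Matrix.mulVec, dotProduct, Fin.sum_univ_three] <;> ring

end Pool.SXB
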