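import Pool.Agent.Work.MP_02e829_sf.Interface

/-!
# Block DN9: local form of DN7
-/

open Set Filter Manifold Matrix MeasureTheory Metric
open scoped Topology ContDiff Manifold

set_option autoImplicit false

universe w

namespace Pool.SXB

open Pool.FR (pd ee)

theorem blk_DN9 (hYC1 : Stmt_YC1) (hLOC : Stmt_LOC.{w}) (hGLB : Stmt_GLB.{w})
    (hLCN : Stmt_LCN.{w}) : Stmt_DN9.{w} := by
  intro S _ _ _ f g hfg U hU hD q hqU
  have hTo : IsOpen (extChartAt (𝓡 2) q).target := isOpen_extChartAt_target q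
  have hY := (hYC1 _ (loc f q) (loc g q) (hLOC S f g hfg q)).1
  have hglb := (hGLB S f g hfg).1 q
  -- the derivative vanishes at the points of `D`
  have h1 : ∀ x ∈ (extChartAt (𝓡 2) q).target, LC f g ((extChartAt (𝓡 2) q).symm x) →
      ∀ i, pd i (yy (loc f q) (loc g q)) x = 0 := by
    intro x hx hxD i
    have hc : ContinuousAt (extChartAt (𝓡 2) q).symm x :=
      (continuousOn_extChartAt_symm q).continuousAt (hTo.mem_nhds hx)
    have h2 : ∀ᶠ x' in 𝓝 x, Mo f g ((extChartAt (𝓡 2) q).symm x') =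
        Mo f g ((extChartAt (𝓡 2) q).symm x) := hc.eventually hxD
    have h3 : yy (loc f q) (loc g q) =ᶠ[𝓝 x] fun _ => yy (loc f q) (loc g q) x := by
      filter_upwards [h2, hTo.mem_nhds hx] with x' h4 h5
      rw [← (hglb x' h5).1, ← (hglb x hx).1]
      exact congrArg Prod.fst h4
    rw [pd, h3.fderiv_eq]
    simp
  -- the derivative vanishes on the part of the target over `U`
  have h2 : ∀ x ∈ (extChartAt (𝓡 2) q).target, (extChartAt (𝓡 2) q).symm x ∈ U →
      ∀ i, pd i (yy (loc f q) (loc g q)) x = 0 := by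
    intro x hx hxU i
    by_contra hne
    have hc : ContinuousOn (pd i (yy (loc f q) (loc g q))) (extChartAt (𝓡 2) q).target :=
      (Pool.FR.pd_contDiffOn (m := 0) hTo hY (by norm_num) i).continuousOn
    have hO : IsOpen ((extChartAt (𝓡 2) q).target ∩
        (pd i (yy (loc f q) (loc g q))) ⁻¹' {0}ᶜ) :=
      hc.isOpen_inter_preimage hTo isClosed_singleton.isOpen_compl
    have hV : IsOpen ((extChartAt (𝓡 2) q).source ∩ (extChartAt (𝓡 2) q) ⁻¹'
        ((extChartAt (𝓡 2) q).target ∩ (pd i (yy (loc f q) (loc g q))) ⁻¹' {0}ᶜ)) :=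
      (continuousOn_extChartAt q).isOpen_inter_preimage (isOpen_extChartAt_source q) hO
    have hmem : (extChartAt (𝓡 2) q).symm x ∈ (extChartAt (𝓡 2) q).source ∩
        (extChartAt (𝓡 2) q) ⁻¹' ((extChartAt (𝓡 2) q).target ∩
          (pd i (yy (loc f q) (loc g q))) ⁻¹' {0}ᶜ) := by
      refine ⟨(extChartAt (𝓡 2) q).map_target hx, ?_⟩
      rw [mem_preimage, (extChartAt (𝓡 2) q).right_inv hx]
      exact ⟨hx, hne⟩
    obtain ⟨p, ⟨hps, hpt, hpn⟩, hpD⟩ := mem_closure_iff.1 (hD _ hxU) _ hV hmem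
    refine hpn (h1 _ hpt ?_ i)
    rw [(extChartAt (𝓡 2) q).left_inv hps]
    exact hpD
  have hx0 : extChartAt (𝓡 2) q q ∈ (extChartAt (𝓡 2) q).target :=
    mem_extChartAt_target (I := 𝓡 2) q
  have hcq : ContinuousAt (extChartAt (𝓡 2) q).symm (extChartAt (𝓡 2) q q) :=
    (continuousOn_extChartAt_symm q).continuousAt (hTo.mem_nhds hx0)
  have hUq : ∀ᶠ x in 𝓝 (extChartAt (𝓡 2) q q), (extChartAt (𝓡 2) q).symm x ∈ U := by
    apply hcq.eventually
    rw [extChartAt_to_inv q]
    exact hU.mem_nhds hqU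
  have h3 : Rig (loc f q) (loc g q) (extChartAt (𝓡 2) q q) := by
    filter_upwards [hTo.mem_nhds hx0, hUq] with x hx hxU
    exact h2 x hx hxU
  filter_upwards [hLCN S f g hfg q h3] with q' hq'
  exact Prod.ext hq'.1 hq'.2

end Pool.SXB
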