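import Pool.Agent.Work.MP_02e829_sf.Interface
import Pool.Agent.Work.MP_02e829_sb.B_CLO

/-!
# Block FTF: the theorem for families
-/

open Set Filter Manifold Matrix MeasureTheory Metric
open scoped Topology ContDiff Manifold

set_option autoImplicit false

universe w

namespace Pool.SXB

open Pool.FR (pd ee)

section FTF

variable {S : Type w} [TopologicalSpace S] [ChartedSpace E2 S] [IsManifold (𝓡 2) 2 S]

/-- the stability constant of a field -/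
def FTF_stab (f0 : S → E3) (K : Set S) (c : V3) (L : Matrix (Fin 3) (Fin 3) ℝ) (k : V3) (η : ℝ) :
    Prop :=
  ∀ p ∈ K, ∀ (z : E3) (D : E2 → E3), ‖z - f0 p‖ ≤ η →
    (∀ v, ‖D v - FRD.dvec f0 p v‖ ≤ η * ‖FRD.dvec f0 p v‖) → ∀ v,
    (1 / 2 : ℝ) • (L3 (FRD.dvec f0 p v) + L3 (D v)) ≠ XX c L k ((1 / 2 : ℝ) • (L3 (f0 p) + L3 z))

/-- the two surfaces are close -/
def FTF_close (f g : S → E3) (η : ℝ) : Prop :=
  (∀ p, ‖g p - f p‖ ≤ η) ∧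
    ∀ p v, ‖FRD.dvec g p v - FRD.dvec f p v‖ ≤ η * ‖FRD.dvec f p v‖

/-- one step on one piece -/
lemma FTF_step (hCM9 : ∀ f g : S → E3, MPair f g → ∀ C : Set S, IsOpen C → IsPreconnected C →
      (∀ q ∈ C, Ell f g q) → Special9 (Mset f g (frontier C)) →
      ∀ q ∈ C, q ∈ closure {q' | LC f g q'})
    (hCMF : Stmt_CMF.{w}) (hDN9 : Stmt_DN9.{w}) (hMLC : Stmt_MLC.{w}) (hCLD : Stmt_CLD.{w})
    (hMSC : Stmt_MSC.{w}) (hELP : Stmt_ELP.{w}) (hSGN : Stmt_SGN.{w}) [T2Space S] [CompactSpace S]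
    {f : ℝ → S → E3} (hf : Fam3 f) {C : Set S} (hC : IsOpen C) (hCc : IsPreconnected C)
    (hCP : ∀ p ∈ C, PosCurv (f 0) p) {s t : ℝ} (hs : s ∈ Icc (0 : ℝ) 1) (ht : t ∈ Icc (0 : ℝ) 1)
    (hM : MPair (f s) (f t))
    (hH : Special9 (Mset (f 0) (f t) (frontier C)) ∨
      ((Mset (f 0) (f t) (frontier C)).Countable ∧ ∃ (c : V3) (L : Matrix (Fin 3) (Fin 3) ℝ)
        (k : V3) (η : ℝ), FTF_stab (f 0) (closure C) c L k η ∧ FTF_close (f s) (f t) η))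
    (hT : TC f C s) : TC f C t := by
  obtain ⟨A, hA, hAf⟩ := hT
  have h0 : (0 : ℝ) ∈ Icc (0 : ℝ) 1 := ⟨le_rfl, zero_le_one⟩
  have hE : ∀ q ∈ C, Ell (f s) (f t) q := fun q hq =>
    hSGN S f hf.fam q (hELP S (f 0) (hf.fam.smooth 0 h0) (hf.fam.imm 0 h0) q (hCP q hq)) s hs t ht
  have hLC : ∀ q ∈ C, LC (f s) (f t) q := by
    rcases hH with hH | ⟨hH, c, L, k, η, hst, hcl⟩
    · refine hDN9 S (f s) (f t) hM C hC (hCM9 (f s) (f t) hM C hC hCc hE ?_)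
      rw [hMSC S (f 0) (f s) (f t) A (frontier C) hA fun p hp =>
        hCLD S (f 0) (f s) (hf.fam.smooth 0 h0) (hf.fam.smooth s hs) A C hC hAf p
          (frontier_subset_closure hp)]
      exact SP9 A hH
    · exact hCMF S (f 0) (f s) (f t) (hf.fam.smooth 0 h0) hM C hC hE hH c L k η hst hcl.1 hcl.2
        A hA hAf
  obtain ⟨A', hA', h1⟩ := hMLC S (f s) (f t) hM C hC hCc hLC
  refine ⟨A.trans A', FIN_trans hA hA', fun p hp => ?_⟩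
  rw [h1 p hp, hAf p hp]
  rfl

lemma FTF_sub {T : Set (Icc (0 : ℝ) 1)} (h0 : (⟨0, le_rfl, zero_le_one⟩ : Icc (0 : ℝ) 1) ∈ T)
    (hev : ∀ s : Icc (0 : ℝ) 1, ∀ᶠ r : Icc (0 : ℝ) 1 in 𝓝 s, (r ∈ T ↔ s ∈ T)) :
    ∀ t, t ∈ T := by
  have hcl : IsClopen T := by
    constructor
    · rw [← isOpen_compl_iff, isOpen_iff_mem_nhds]
      intro s hs
      filter_upwards [hev s] with r hr h
      exact hs (hr.1 h)
    · rw [isOpen_iff_mem_nhds]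
      intro s hs
      filter_upwards [hev s] with r hr
      exact hr.2 hs
  have : ConnectedSpace (Icc (0 : ℝ) 1) :=
    Subtype.connectedSpace (isConnected_Icc (zero_le_one' ℝ))
  have hu := hcl.eq_univ ⟨_, h0⟩
  intro t
  rw [hu]
  exact mem_univ t

lemma FTF_tend (s : Icc (0 : ℝ) 1) :
    Tendsto (Subtype.val : Icc (0 : ℝ) 1 → ℝ) (𝓝 s) (𝓝[Icc (0 : ℝ) 1] (s : ℝ)) :=
  tendsto_nhdsWithin_iff.2 ⟨continuous_subtype_val.tendsto s, Eventually.of_forall fun x => x.2⟩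

/-- one piece at all times -/
lemma FTF_piece (hCM9 : ∀ f g : S → E3, MPair f g → ∀ C : Set S, IsOpen C → IsPreconnected C →
      (∀ q ∈ C, Ell f g q) → Special9 (Mset f g (frontier C)) →
      ∀ q ∈ C, q ∈ closure {q' | LC f g q'})
    (hCMF : Stmt_CMF.{w}) (hTRV : Stmt_TRV.{w}) (hCLE : Stmt_CLE.{w}) (hDN9 : Stmt_DN9.{w})
    (hMLC : Stmt_MLC.{w}) (hCLD : Stmt_CLD.{w}) (hMSC : Stmt_MSC.{w}) (hCLO : Stmt_CLO.{w})
    (hELP : Stmt_ELP.{w}) (hSGN : Stmt_SGN.{w}) [T2Space S] [CompactSpace S]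
    {f : ℝ → S → E3} (hf : Fam3 f) {C : Set S} (hC : IsOpen C) (hCc : IsPreconnected C)
    (hCP : ∀ p ∈ C, PosCurv (f 0) p)
    (hH : ∀ t ∈ Icc (0 : ℝ) 1, Special9 (Mset (f 0) (f t) (frontier C)) ∨
      ((Mset (f 0) (f t) (frontier C)).Countable ∧ Transv (f 0) (closure C))) :
    ∀ t ∈ Icc (0 : ℝ) 1, TC f C t := by
  have h0 : (0 : ℝ) ∈ Icc (0 : ℝ) 1 := ⟨le_rfl, zero_le_one⟩
  have key : ∀ s : Icc (0 : ℝ) 1, ∀ᶠ r : Icc (0 : ℝ) 1 in 𝓝 s,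
      (TC f C r ↔ TC f C s) := by
    intro s
    have h1 := (FTF_tend s).eventually (hCLO S f hf.fam s s.2)
    by_cases hTr : Transv (f 0) (closure C)
    · obtain ⟨c, L, k, hX⟩ := hTr
      obtain ⟨η, hη, hst⟩ := hTRV S (f 0) (hf.fam.smooth 0 h0) (hf.fam.imm 0 h0) (closure C)
        isClosed_closure c L k hX
      have h2 := (FTF_tend s).eventually (hCLE S f hf η hη s s.2)
      filter_upwards [h1, h2] with r hr h3
      have h4 : FTF_close (f s) (f r) η := h3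
      have h5 : FTF_close (f r) (f s) η := by
        refine ⟨fun p => ?_, fun p v => ?_⟩
        · rw [norm_sub_rev]
          exact h3.1 p
        · rw [norm_sub_rev, CLO_norm (f := f r) (g := f s) (fun p v w => by
            rw [hf.fam.iso r r.2, hf.fam.iso s s.2]) p v]
          exact h3.2 p v
      constructor
      · refine FTF_step hCM9 hCMF hDN9 hMLC hCLD hMSC hELP hSGN hf hC hCc hCP r.2 s.2 hr.2 ?_
        rcases hH s s.2 with h6 | ⟨h6, -⟩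
        · exact Or.inl h6
        · exact Or.inr ⟨h6, c, L, k, η, hst, h5⟩
      · refine FTF_step hCM9 hCMF hDN9 hMLC hCLD hMSC hELP hSGN hf hC hCc hCP s.2 r.2 hr.1 ?_
        rcases hH r r.2 with h6 | ⟨h6, -⟩
        · exact Or.inl h6
        · exact Or.inr ⟨h6, c, L, k, η, hst, h4⟩
    · filter_upwards [h1] with r hr
      have h6 : ∀ t ∈ Icc (0 : ℝ) 1, Special9 (Mset (f 0) (f t) (frontier C)) := by
        intro t ht
        rcases hH t ht with h7 | ⟨-, h7⟩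
        · exact h7
        · exact absurd h7 hTr
      exact ⟨FTF_step hCM9 hCMF hDN9 hMLC hCLD hMSC hELP hSGN hf hC hCc hCP r.2 s.2 hr.2
          (Or.inl (h6 s s.2)),
        FTF_step hCM9 hCMF hDN9 hMLC hCLD hMSC hELP hSGN hf hC hCc hCP s.2 r.2 hr.1
          (Or.inl (h6 r r.2))⟩
  intro t ht
  exact FTF_sub (T := {s : Icc (0 : ℝ) 1 | TC f C s})
    ⟨AffineIsometryEquiv.refl ℝ E3, FIN_refl, fun p _ => rfl⟩ key ⟨t, ht⟩

/-- one global step -/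
lemma FTF_glob (hLR7 : Stmt_LR7.{w}) (hDN7 : Stmt_DN7.{w}) (hROT : Stmt_ROT)
    (hGLB : Stmt_GLB.{w}) [CompactSpace S] [ConnectedSpace S] {f : ℝ → S → E3}
    (h1 : ∀ q, PosCurv (f 0) q → ∃ C : Set S, IsOpen C ∧ q ∈ C ∧
      ∀ t ∈ Icc (0 : ℝ) 1, TC f C t)
    (h2 : ∀ t ∈ Icc (0 : ℝ) 1, ∀ q ∈ interior {p | ¬ PosCurv (f 0) p},
      ∃ B : E3 ≃ᵃⁱ[ℝ] E3, Proper B ∧ ∀ᶠ p in 𝓝 q, f t p = B (f 0 p))
    {s t : ℝ} (hs : s ∈ Icc (0 : ℝ) 1) (ht : t ∈ Icc (0 : ℝ) 1) (hM : MPair (f s) (f t))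
    (hT : FIN_T f s) : FIN_T f t := by
  have h3 : ∀ q, (∃ B B' : E3 ≃ᵃⁱ[ℝ] E3, Proper B ∧ Proper B' ∧ (∀ᶠ p in 𝓝 q, f s p = B (f 0 p)) ∧
      ∀ᶠ p in 𝓝 q, f t p = B' (f 0 p)) → LC (f s) (f t) q := by
    rintro q ⟨B, B', hB, hB', h4, h5⟩
    refine hLR7 S (f s) (f t) hM (B.symm.trans B') (FIN_trans (FIN_symm hB) hB') q ?_
    filter_upwards [h4, h5] with p h6 h7
    rw [h7, h6]
    change _ = B' (B.symm (B (f 0 p)))
    rw [AffineIsometryEquiv.symm_apply_apply]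
  have h4 : ∀ q, LC (f s) (f t) q := by
    refine hDN7 S (f s) (f t) hM _ (FI7_dense {p | PosCurv (f 0) p}) ?_
    rintro q (hq | hq)
    · obtain ⟨C, hC, hqC, hCt⟩ := h1 q hq
      obtain ⟨B, hB, hBf⟩ := hCt s hs
      obtain ⟨B', hB', hBf'⟩ := hCt t ht
      refine h3 q ⟨B, B', hB, hB', ?_, ?_⟩
      · filter_upwards [hC.mem_nhds hqC] with p hp
        exact hBf p hp
      · filter_upwards [hC.mem_nhds hqC] with p hp
        exact hBf' p hp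
    · obtain ⟨B, hB, hBf⟩ := h2 s hs q hq
      obtain ⟨B', hB', hBf'⟩ := h2 t ht q hq
      exact h3 q ⟨B, B', hB, hB', hBf, hBf'⟩
  obtain ⟨A, hA, hAf⟩ := hT
  obtain ⟨c, hc⟩ := STA_const (P := Mo (f s) (f t)) h4
  obtain ⟨A', hA', hA'z⟩ := hROT c.1 c.2
  refine ⟨A.trans A', FIN_trans hA hA', fun p => ?_⟩
  have h5 := (hGLB S (f s) (f t) hM).2.2 p
  have h6 : Yg (f s) (f t) p = c.1 := congrArg Prod.fst (hc p)
  have h7 : Wg (f s) (f t) p = c.2 := congrArg Prod.snd (hc p)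
  rw [h6, h7] at h5
  have h8 := hA'z (f s p) (f t p) h5
  rw [h8, hAf p]
  rfl

end FTF

theorem blk_FTF (hCY7 : Stmt_CY7.{w}) (hUQ7 : Stmt_UQ7) (hRB7 : Stmt_RB7) (hRP7 : Stmt_RP7)
    (hNS7 : Stmt_NS7.{w}) (hAL7 : Stmt_AL7) (hST7 : Stmt_ST7.{w}) (hSH9 : Stmt_SH9.{w})
    (hLR7 : Stmt_LR7.{w}) (hDN7 : Stmt_DN7.{w}) (hROT : Stmt_ROT) (hGLB : Stmt_GLB.{w})
    (hCLO : Stmt_CLO.{w}) (hELP : Stmt_ELP.{w}) (hSGN : Stmt_SGN.{w})
    (hCMF : Stmt_CMF.{w}) (hTRV : Stmt_TRV.{w}) (hCLE : Stmt_CLE.{w}) (hDN9 : Stmt_DN9.{w})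
    (hMLC : Stmt_MLC.{w}) (hCLD : Stmt_CLD.{w}) (hMSC : Stmt_MSC.{w}) : Stmt_FTF.{w} := by
  intro S _ _ _ _ _ _ f hf hH t ht
  obtain ⟨hH1, hH2⟩ := hH
  have hCM9 : ∀ f g : S → E3, MPair f g → ∀ C : Set S, IsOpen C → IsPreconnected C →
      (∀ q ∈ C, Ell f g q) → Special9 (Mset f g (frontier C)) →
      ∀ q ∈ C, q ∈ closure {q' | LC f g q'} := fun f g hfg C hC hCc hE hS =>
    CM9 hCY7 hUQ7 hRB7 hRP7 hNS7 hAL7 hST7 hSH9 hROT hGLB hfg hC hCc hE hS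
  have h1 : ∀ q, PosCurv (f 0) q → ∃ C : Set S, IsOpen C ∧ q ∈ C ∧
      ∀ t ∈ Icc (0 : ℝ) 1, TC f C t := by
    intro q hq
    obtain ⟨C, hC, hCc, hqC, hCP, hCt⟩ := hH1 q hq
    exact ⟨C, hC, hqC, FTF_piece hCM9 hCMF hTRV hCLE hDN9 hMLC hCLD hMSC hCLO hELP hSGN hf hC
      hCc hCP hCt⟩
  have key : ∀ s : Icc (0 : ℝ) 1, ∀ᶠ r : Icc (0 : ℝ) 1 in 𝓝 s, (FIN_T f r ↔ FIN_T f s) := by
    intro s
    filter_upwards [(FTF_tend s).eventually (hCLO S f hf.fam s s.2)] with r hr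
    exact ⟨FTF_glob hLR7 hDN7 hROT hGLB h1 hH2 r.2 s.2 hr.2,
      FTF_glob hLR7 hDN7 hROT hGLB h1 hH2 s.2 r.2 hr.1⟩
  exact FTF_sub (T := {s : Icc (0 : ℝ) 1 | FIN_T f s})
    ⟨AffineIsometryEquiv.refl ℝ E3, FIN_refl, fun p => rfl⟩ key ⟨t, ht⟩

end Pool.SXB
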