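import Pool.Agent.Work.MP_02e829_sf.Interface

/-! # Block GSA: Stokes in one chart -/

open Set Filter Manifold Matrix MeasureTheory Metric
open scoped Topology ContDiff Manifold

set_option autoImplicit false

universe w

namespace Pool.SXB

open Pool.FR (pd ee)

theorem GSA_sg {O : Set E2} (hO : IsOpen O) {ν : E2 → ℝ} (hc : ContinuousOn ν O)
    (hne : ∀ x ∈ O, ν x ≠ 0) {x : E2} (hx : x ∈ O) : ∀ᶠ y in 𝓝 x, sg (ν y) = sg (ν x) := by
  have hca : ContinuousAt ν x := hc.continuousAt (hO.mem_nhds hx)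
  rcases lt_or_gt_of_ne (hne x hx) with h | h
  · filter_upwards [hca.eventually_lt continuousAt_const h] with y hy
    unfold sg
    rw [abs_of_neg h, abs_of_neg hy, div_neg, div_neg, div_self hy.ne, div_self h.ne]
  · filter_upwards [continuousAt_const.eventually_lt hca h] with y hy
    unfold sg
    rw [abs_of_pos h, abs_of_pos hy, div_self hy.ne', div_self h.ne']

theorem GSA_pd {a b w : E2 → ℝ} {δ : ℝ → ℝ} {x : E2} (ha : DifferentiableAt ℝ a x)
    (hb : DifferentiableAt ℝ b x) (hw : DifferentiableAt ℝ w x) (hδ : DifferentiableAt ℝ δ (b x))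
    (i : Fin 2) : pd i (fun x => a x * δ (b x) * w x) x =
      a x * δ (b x) * pd i w x + w x * (a x * (deriv δ (b x) * pd i b x) + δ (b x) * pd i a x) := by
  have h1 : HasFDerivAt (fun y => δ (b y)) (deriv δ (b x) • fderiv ℝ b x) x :=
    hδ.hasDerivAt.comp_hasFDerivAt x hb.hasFDerivAt
  have h2 := (ha.hasFDerivAt.mul h1).mul hw.hasFDerivAt
  have h3 : fderiv ℝ (fun x => a x * δ (b x) * w x) x = _ := h2.fderiv
  unfold pd
  rw [h3]
  rfl

theorem GSA_cont {S : Type w} [TopologicalSpace S] [ChartedSpace E2 S] {l : S → ℝ} (hl : C1S l) :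
    Continuous l := by
  rw [continuous_iff_continuousAt]
  intro p
  have h1 : ContinuousAt (ch l p) (extChartAt (𝓡 2) p p) :=
    ((hl p).continuousOn).continuousAt (extChartAt_target_mem_nhds p)
  have h2 : ContinuousAt (extChartAt (𝓡 2) p) p := continuousAt_extChartAt p
  have h3 : ContinuousAt (ch l p ∘ extChartAt (𝓡 2) p) p := h1.comp h2
  refine h3.congr ?_
  filter_upwards [extChartAt_source_mem_nhds (I := 𝓡 2) p] with y hy
  show l ((extChartAt (𝓡 2) p).symm (extChartAt (𝓡 2) p y)) = l y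
  rw [(extChartAt (𝓡 2) p).left_inv hy]

theorem GSA_int {O K : Set E2} (hO : IsOpen O) (hK : IsCompact K) (hKO : K ⊆ O) {f : E2 → ℝ}
    (hf : ContinuousOn f O) (h0 : ∀ x ∈ O, x ∉ K → f x = 0) : IntegrableOn f O volume := by
  have h1 : IntegrableOn f K volume := (hf.mono hKO).integrableOn_compact hK
  exact h1.of_forall_sdiff_eq_zero hO.measurableSet fun x hx => h0 x hx.1 hx.2

theorem GSA_core (hW0 : Stmt_W0) {O K : Set E2} (hO : IsOpen O) (hK : IsCompact K) (hKO : K ⊆ O)
    {a b w σ : E2 → ℝ} {δ : ℝ → ℝ} (ha : ContDiffOn ℝ 1 a O) (hb : ContDiffOn ℝ 1 b O)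
    (hw : ContDiffOn ℝ 1 w O) (hδ : ContDiff ℝ 1 δ)
    (hσ : ∀ x ∈ O, ∀ᶠ y in 𝓝 x, σ y = σ x)
    (h0 : ∀ x ∈ O, x ∉ K → (∀ᶠ y in 𝓝 x, a y = 0) ∨ δ (b x) = 0) :
    ∫ x in O, a x * ((δ (b x) * (pd 0 b x * pd 1 w x - pd 1 b x * pd 0 w x)) * σ x) =
      ∫ x in O, (δ (b x) * w x) * ((pd 0 a x * pd 1 b x - pd 1 a x * pd 0 b x) * σ x) := by
  classical
  have hz : ∀ x ∈ O, x ∉ K → (∀ i, δ (b x) * pd i a x = 0) ∧ a x * δ (b x) = 0 := by
    intro x hx hxK
    rcases h0 x hx hxK with h | h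
    · refine ⟨fun i => ?_, ?_⟩
      · have : a =ᶠ[𝓝 x] fun _ => (0 : ℝ) := h
        unfold pd
        rw [this.fderiv_eq, fderiv_const_apply]
        simp
      · rw [h.self_of_nhds, zero_mul]
    · refine ⟨fun i => by rw [h, zero_mul], by rw [h, mul_zero]⟩
  set ψ : E2 → ℝ := O.indicator fun x => a x * δ (b x) * w x with hψ
  have hψO : ∀ x ∈ O, ψ =ᶠ[𝓝 x] fun x => a x * δ (b x) * w x := by
    intro x hx
    filter_upwards [hO.mem_nhds hx] with y hy
    rw [hψ, indicator_of_mem hy]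
  have hsupp : Function.support ψ ⊆ K := by
    intro x hx
    by_contra hxK
    apply hx
    by_cases hxO : x ∈ O
    · rw [(hψO x hxO).eq_of_nhds]
      show a x * δ (b x) * w x = 0
      rw [(hz x hxO hxK).2, zero_mul]
    · rw [hψ, indicator_of_notMem hxO]
  have hts : tsupport ψ ⊆ K := closure_minimal hsupp hK.isClosed
  have hcs : HasCompactSupport ψ := hK.of_isClosed_subset (isClosed_tsupport _) hts
  have hψ0 : ∀ x, x ∉ K → ψ =ᶠ[𝓝 x] fun _ => (0 : ℝ) := by
    intro x hx
    filter_upwards [hK.isClosed.isOpen_compl.mem_nhds hx] with y hy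
    by_contra h
    exact hy (hsupp h)
  have hψC : ContDiff ℝ 1 ψ := by
    rw [contDiff_iff_contDiffAt]
    intro x
    by_cases hxK : x ∈ K
    · have hx := hKO hxK
      have h1 : ContDiffAt ℝ 1 (fun x => a x * δ (b x) * w x) x :=
        ((ha.contDiffAt (hO.mem_nhds hx)).mul
          (hδ.contDiffAt.comp x (hb.contDiffAt (hO.mem_nhds hx)))).mul
          (hw.contDiffAt (hO.mem_nhds hx))
      exact h1.congr_of_eventuallyEq (hψO x hx)
    · exact contDiffAt_const.congr_of_eventuallyEq (hψ0 x hxK)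
  have hbσ : ContDiffOn ℝ 1 (fun x => σ x * b x) O := by
    intro x hx
    refine ContDiffAt.contDiffWithinAt ?_
    have h1 : ContDiffAt ℝ 1 (fun y => σ x * b y) x :=
      contDiffAt_const.mul (hb.contDiffAt (hO.mem_nhds hx))
    refine h1.congr_of_eventuallyEq ?_
    filter_upwards [hσ x hx] with y hy
    rw [hy]
  have hbσp : ∀ x ∈ O, ∀ i, pd i (fun x => σ x * b x) x = σ x * pd i b x := by
    intro x hx i
    have h1 : (fun y => σ y * b y) =ᶠ[𝓝 x] fun y => σ x * b y := by
      filter_upwards [hσ x hx] with y hy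
      rw [hy]
    have hbd : DifferentiableAt ℝ b x :=
      (hb.contDiffAt (hO.mem_nhds hx)).differentiableAt one_ne_zero
    unfold pd
    rw [h1.fderiv_eq, fderiv_const_mul hbd]
    rfl
  have key := hW0 O ψ (fun x => σ x * b x) hO hψC hcs (hts.trans hKO) hbσ
  set A : E2 → ℝ := fun x =>
    a x * ((δ (b x) * (pd 0 b x * pd 1 w x - pd 1 b x * pd 0 w x)) * σ x) with hA
  set B : E2 → ℝ := fun x =>
    (δ (b x) * w x) * ((pd 0 a x * pd 1 b x - pd 1 a x * pd 0 b x) * σ x) with hB
  have e1 : (fun x => pd 0 ψ x * pd 1 (fun x => σ x * b x) x -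
      pd 1 ψ x * pd 0 (fun x => σ x * b x) x) = O.indicator fun x => B x - A x := by
    funext x
    by_cases hx : x ∈ O
    · rw [indicator_of_mem hx, hbσp x hx, hbσp x hx]
      have e2 : ∀ i, pd i ψ x = pd i (fun x => a x * δ (b x) * w x) x := by
        intro i
        unfold pd
        rw [(hψO x hx).fderiv_eq]
      have hd : ∀ {u : E2 → ℝ}, ContDiffOn ℝ 1 u O → DifferentiableAt ℝ u x := fun hu =>
        (hu.contDiffAt (hO.mem_nhds hx)).differentiableAt one_ne_zero
      rw [e2, e2, GSA_pd (hd ha) (hd hb) (hd hw) ((hδ.differentiable one_ne_zero) _),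
        GSA_pd (hd ha) (hd hb) (hd hw) ((hδ.differentiable one_ne_zero) _), hA, hB]
      ring
    · rw [indicator_of_notMem hx]
      have e2 : ∀ i, pd i ψ x = 0 := by
        intro i
        unfold pd
        rw [(hψ0 x fun h => hx (hKO h)).fderiv_eq, fderiv_const_apply]
        rfl
      rw [e2, e2, zero_mul, zero_mul, sub_zero]
  rw [e1, integral_indicator hO.measurableSet] at key
  have hpc : ∀ {u : E2 → ℝ}, ContDiffOn ℝ 1 u O → ∀ i, ContinuousOn (pd i u) O := by
    intro u hu i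
    have h1 : ContinuousOn (fderiv ℝ u) O := hu.continuousOn_fderiv_of_isOpen hO le_rfl
    exact h1.clm_apply continuousOn_const
  have hσc : ContinuousOn σ O := by
    intro x hx
    refine ContinuousAt.continuousWithinAt ?_
    exact (continuousAt_const : ContinuousAt (fun _ => σ x) x).congr
      ((hσ x hx).mono fun y hy => hy.symm)
  have hδb : ContinuousOn (fun x => δ (b x)) O := hδ.continuous.comp_continuousOn hb.continuousOn
  have hAi : IntegrableOn A O volume := by
    refine GSA_int hO hK hKO ?_ ?_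
    · exact ha.continuousOn.mul ((hδb.mul (((hpc hb 0).mul (hpc hw 1)).sub
        ((hpc hb 1).mul (hpc hw 0)))).mul hσc)
    · intro x hx hxK
      have h := (hz x hx hxK).2
      rw [hA]
      show a x * ((δ (b x) * (pd 0 b x * pd 1 w x - pd 1 b x * pd 0 w x)) * σ x) = 0
      linear_combination ((pd 0 b x * pd 1 w x - pd 1 b x * pd 0 w x) * σ x) * h
  have hBi : IntegrableOn B O volume := by
    refine GSA_int hO hK hKO ?_ ?_
    · exact (hδb.mul hw.continuousOn).mul ((((hpc ha 0).mul (hpc hb 1)).sub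
        ((hpc ha 1).mul (hpc hb 0))).mul hσc)
    · intro x hx hxK
      have h := (hz x hx hxK).1
      rw [hB]
      show (δ (b x) * w x) * ((pd 0 a x * pd 1 b x - pd 1 a x * pd 0 b x) * σ x) = 0
      linear_combination (w x * pd 1 b x * σ x) * h 0 - (w x * pd 0 b x * σ x) * h 1
  rw [integral_sub hBi hAi] at key
  linarith

theorem blk_GSA (hW0 : Stmt_W0) : Stmt_GSA.{w} := by
  intro S _ _ _ _ C ν hC hν η l W hη hl hW q hs δ hδ hfr
  have hdo : IsOpen (dm C q) :=
    (continuousOn_extChartAt_symm q).isOpen_inter_preimage (isOpen_extChartAt_target q) hC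
  have hdt : dm C q ⊆ (extChartAt (𝓡 2) q).target := inter_subset_left
  have hlc : Continuous l := GSA_cont hl
  set K0 : Set S := closure C ∩ tsupport η ∩ l ⁻¹' tsupport δ with hK0
  have hK0c : IsClosed K0 :=
    (isClosed_closure.inter (isClosed_tsupport _)).inter ((isClosed_tsupport _).preimage hlc)
  have hK0s : K0 ⊆ (extChartAt (𝓡 2) q).source := fun p hp => hs hp.1.2
  have hK0C : K0 ⊆ C := by
    rintro p ⟨⟨h1, -⟩, h3⟩
    by_contra hp
    have h4 : p ∈ frontier C := by
      rw [hC.frontier_eq]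
      exact ⟨h1, hp⟩
    have h5 : l p ∉ tsupport δ := by
      rw [notMem_tsupport_iff_eventuallyEq]
      exact hfr p h4
    exact h5 h3
  set K : Set E2 := (extChartAt (𝓡 2) q) '' K0 with hKdef
  have hK : IsCompact K :=
    hK0c.isCompact.image_of_continuousOn ((continuousOn_extChartAt q).mono hK0s)
  have hKO : K ⊆ dm C q := by
    rintro x ⟨p, hp, rfl⟩
    refine ⟨(extChartAt (𝓡 2) q).map_source (hK0s hp), ?_⟩
    show (extChartAt (𝓡 2) q).symm (extChartAt (𝓡 2) q p) ∈ C
    rw [(extChartAt (𝓡 2) q).left_inv (hK0s hp)]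
    exact hK0C hp
  refine GSA_core hW0 hdo hK hKO ((hη q).mono hdt) ((hl q).mono hdt) ((hW q).mono hdt) hδ
    (fun x hx => GSA_sg hdo ((hν.cont q).mono hdt) (hν.ne q) hx) ?_
  intro x hx hxK
  by_cases h1 : (extChartAt (𝓡 2) q).symm x ∈ tsupport η
  · right
    by_contra h2
    apply hxK
    refine ⟨(extChartAt (𝓡 2) q).symm x, ⟨⟨subset_closure hx.2, h1⟩, subset_closure h2⟩, ?_⟩
    exact (extChartAt (𝓡 2) q).right_inv hx.1
  · left
    rw [notMem_tsupport_iff_eventuallyEq] at h1
    have h2 : ContinuousAt (extChartAt (𝓡 2) q).symm x :=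
      (continuousOn_extChartAt_symm q).continuousAt ((isOpen_extChartAt_target q).mem_nhds hx.1)
    exact h2.eventually h1

end Pool.SXB
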