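import Pool.Agent.Work.MP_02e829_sf.Interface

/-! # Block ITG: integrability -/

open Set Filter Manifold Matrix MeasureTheory Metric
open scoped Topology ContDiff Manifold

set_option autoImplicit false

universe w

namespace Pool.SXB

lemma ITG_sg (r : ℝ) : |sg r| ≤ 1 := by
  unfold sg
  rw [abs_div, abs_abs]
  exact div_self_le_one _

lemma ITG_sgc : ContinuousOn sg {r : ℝ | r ≠ 0} := by
  intro r hr
  refine ContinuousAt.continuousWithinAt ?_
  unfold sg
  exact continuousAt_id.div continuous_abs.continuousAt (abs_ne_zero.mpr hr)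

theorem blk_ITG : Stmt_ITG.{w} := by
  intro S _ _ _ _ C ν hC hν q T hT hTs h hh h0
  have hdo : IsOpen (dm C q) :=
    (continuousOn_extChartAt_symm q).isOpen_inter_preimage (isOpen_extChartAt_target q) hC
  have hdt : dm C q ⊆ (extChartAt (𝓡 2) q).target := inter_subset_left
  have hTc : IsCompact T := hT.isCompact
  set K : Set E2 := (extChartAt (𝓡 2) q) '' T with hKdef
  have hK : IsCompact K := hTc.image_of_continuousOn ((continuousOn_extChartAt q).mono hTs)
  have hKt : K ⊆ (extChartAt (𝓡 2) q).target := by
    rintro x ⟨p, hp, rfl⟩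
    exact (extChartAt (𝓡 2) q).map_source (hTs hp)
  obtain ⟨M, hM⟩ := hK.exists_bound_of_continuousOn (hh.mono hKt)
  have hmeas : AEStronglyMeasurable (fun x => h x * sg (ν q x)) (volume.restrict (dm C q)) := by
    refine ContinuousOn.aestronglyMeasurable ?_ hdo.measurableSet
    refine (hh.mono hdt).mul ?_
    exact ITG_sgc.comp ((hν.cont q).mono hdt) (fun x hx => hν.ne q x hx)
  have hg : IntegrableOn (K.indicator fun _ => M) (dm C q) volume := by
    refine Integrable.integrableOn ?_
    rw [integrable_indicator_iff hK.measurableSet]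
    exact integrableOn_const hK.measure_lt_top.ne
  refine Integrable.mono' hg hmeas ?_
  refine ae_restrict_of_forall_mem hdo.measurableSet fun x hx => ?_
  rw [Real.norm_eq_abs, abs_mul]
  by_cases hxK : x ∈ K
  · rw [indicator_of_mem hxK]
    calc |h x| * |sg (ν q x)| ≤ |h x| * 1 :=
          mul_le_mul_of_nonneg_left (ITG_sg _) (abs_nonneg _)
      _ = ‖h x‖ := by rw [mul_one, Real.norm_eq_abs]
      _ ≤ M := hM x hxK
  · rw [indicator_of_notMem hxK]
    have : h x = 0 := by
      refine h0 x (hdt hx) fun hT' => hxK ⟨_, hT', ?_⟩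
      exact (extChartAt (𝓡 2) q).right_inv (hdt hx)
    rw [this, abs_zero, zero_mul]

end Pool.SXB
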