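import Pool.Agent.Work.MP_02e829_sf.Interface

/-!
# Block JAC (MP_02e829_gt): the Jacobian of two functionals of the motion
-/

open Set Filter Manifold Matrix MeasureTheory Metric
open scoped Topology ContDiff Manifold

set_option autoImplicit false

universe w

namespace Pool.SXB

open Pool.FR (pd ee)

theorem JAC_alg (A A' m0 m1 : V3) (k0 k1 k2 : ℝ) :
    (A ⬝ᵥ (k1 • m0 - k0 • m1)) * (A' ⬝ᵥ (k2 • m0 - k1 • m1)) -
      (A ⬝ᵥ (k2 • m0 - k1 • m1)) * (A' ⬝ᵥ (k1 • m0 - k0 • m1)) =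
      (k0 * k2 - k1 ^ 2) * ((A ⨯₃ A') ⬝ᵥ (m0 ⨯₃ m1)) := by
  simp only [cross_apply, dotProduct, Fin.sum_univ_three, Pi.sub_apply,
    Pi.smul_apply, smul_eq_mul, Matrix.cons_val_zero, Matrix.cons_val_one, Matrix.cons_val]
  ring

theorem JAC_pd (hDL7 : Stmt_DL7) (hLOC : Stmt_LOC.{w}) (hGLB : Stmt_GLB.{w}) {S : Type w}
    [TopologicalSpace S] [ChartedSpace E2 S] [IsManifold (𝓡 2) 2 S] {f g : S → E3}
    (hM : MPair f g) (a b : V3) (q : S) {x : E2} (hx : x ∈ (extChartAt (𝓡 2) q).target)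
    (i : Fin 2) :
    pd i (ch (fun p => LP a b 0 (Mo f g p)) q) x =
      (a + b ⨯₃ mm (loc f q) (loc g q) x) ⬝ᵥ pd i (yy (loc f q) (loc g q)) x := by
  have hP := hLOC S f g hM q
  have h1 : pd i (ch (fun p => LP a b 0 (Mo f g p)) q) x =
      pd i (l7 (loc f q) (loc g q) a b 0) x := by
    refine Pool.FR.pd_congr hP.op (fun z hz => ?_) i hx
    obtain ⟨h2, h3⟩ := (hGLB S f g hM).1 q z hz
    simp only [ch, LP, Mo, l7]
    rw [h2, h3]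
  rw [h1, ((hDL7 _ _ _ hP a b 0).2.2 x hx).1 i]
  simp [A7]

theorem blk_JAC (hDL7 : Stmt_DL7) (hDIF : Stmt_DIF) (hLOC : Stmt_LOC.{w})
    (hGLB : Stmt_GLB.{w}) : Stmt_JAC.{w} := by
  intro S _ _ _ f g hM a b a' b' q x hx
  have hP := hLOC S f g hM q
  obtain ⟨hd0, hd1, -, -⟩ := hDIF _ _ _ hP x hx
  rw [JJ, JAC_pd hDL7 hLOC hGLB hM a b q hx, JAC_pd hDL7 hLOC hGLB hM a b q hx,
    JAC_pd hDL7 hLOC hGLB hM a' b' q hx, JAC_pd hDL7 hLOC hGLB hM a' b' q hx, hd0, hd1]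
  exact JAC_alg _ _ _ _ _ _ _

end Pool.SXB
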