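import Pool.Agent.Work.MP_02e829_sf.Interface

/-!
# Block JLW: the Jacobian under a change of charts
-/

open Set Filter Manifold Matrix MeasureTheory Metric
open scoped Topology ContDiff Manifold

set_option autoImplicit false

universe w

namespace Pool.SXB

open Pool.FR (pd ee)

/-- expansion of a vector of the plane -/
lemma JLW_expand (v : E2) : v = v 0 • ee 0 + v 1 • ee 1 := by
  ext i
  fin_cases i <;> simp [ee]

lemma JLW_det (L : E2 →L[ℝ] E2) : L.det = L (ee 0) 0 * L (ee 1) 1 - L (ee 1) 0 * L (ee 0) 1 := by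
  rw [ContinuousLinearMap.det, ← LinearMap.det_toMatrix (EuclideanSpace.basisFun (Fin 2) ℝ).toBasis,
    Matrix.det_fin_two]
  simp only [LinearMap.toMatrix_apply, OrthonormalBasis.coe_toBasis, EuclideanSpace.basisFun_apply,
    OrthonormalBasis.coe_toBasis_repr_apply, EuclideanSpace.basisFun_repr,
    ContinuousLinearMap.coe_coe]
  rfl

lemma JLW_alg (L : E2 →L[ℝ] E2) (a b : E2 →L[ℝ] ℝ) :
    a (L (ee 0)) * b (L (ee 1)) - a (L (ee 1)) * b (L (ee 0)) =
      L.det * (a (ee 0) * b (ee 1) - a (ee 1) * b (ee 0)) := by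
  rw [JLW_det]
  have h0 := JLW_expand (L (ee 0))
  have h1 := JLW_expand (L (ee 1))
  have e : ∀ (c : E2 →L[ℝ] ℝ) (v : E2), c v = v 0 * c (ee 0) + v 1 * c (ee 1) := fun c v => by
    conv_lhs => rw [JLW_expand v]
    rw [map_add, map_smul, map_smul, smul_eq_mul, smul_eq_mul]
  rw [e a (L (ee 0)), e a (L (ee 1)), e b (L (ee 0)), e b (L (ee 1))]
  ring

section

variable {S : Type w} [TopologicalSpace S] [ChartedSpace E2 S]

/-- the overlap in the chart at `q` -/
def JLW_ov (q q' : S) : Set E2 :=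
  (extChartAt (𝓡 2) q).target ∩ (extChartAt (𝓡 2) q).symm ⁻¹' (extChartAt (𝓡 2) q').source

lemma JLW_ov_open (q q' : S) : IsOpen (JLW_ov q q') :=
  (continuousOn_extChartAt_symm q).isOpen_inter_preimage (isOpen_extChartAt_target q)
    (isOpen_extChartAt_source q')

lemma JLW_ov_src (q q' : S) {x : E2} (hx : x ∈ JLW_ov q q') :
    x ∈ ((extChartAt (𝓡 2) q).symm ≫ extChartAt (𝓡 2) q').source := by
  rw [PartialEquiv.trans_source]
  exact hx

/-- the change of charts is `C²` on the overlap -/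
lemma JLW_smooth [IsManifold (𝓡 2) 2 S] (q q' : S) {x : E2} (hx : x ∈ JLW_ov q q') :
    ContDiffAt ℝ 2 (TT q q') x := by
  have h1 := contDiffWithinAt_ext_coord_change (I := 𝓡 2) (n := 2) q' q (JLW_ov_src q q' hx)
  rw [(𝓡 2).range_eq_univ, contDiffWithinAt_univ] at h1
  exact h1

lemma JLW_mem (q q' : S) {x : E2} (hx : x ∈ JLW_ov q q') :
    TT q q' x ∈ (extChartAt (𝓡 2) q').target := (extChartAt (𝓡 2) q').map_source hx.2

lemma JLW_symm (q q' : S) {x : E2} (hx : x ∈ JLW_ov q q') :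
    (extChartAt (𝓡 2) q').symm (TT q q' x) = (extChartAt (𝓡 2) q).symm x :=
  (extChartAt (𝓡 2) q').left_inv hx.2

lemma JLW_ch (u : S → ℝ) (q q' : S) {x : E2} (hx : x ∈ JLW_ov q q') :
    ch u q x = ch u q' (TT q q' x) := by
  unfold ch
  rw [JLW_symm q q' hx]

/-- the chain rule -/
lemma JLW_pd [IsManifold (𝓡 2) 2 S] {u : S → ℝ} (hu : C1S u) (q q' : S) {x : E2}
    (hx : x ∈ JLW_ov q q') (i : Fin 2) :
    pd i (ch u q) x = fderiv ℝ (ch u q') (TT q q' x) (fderiv ℝ (TT q q') x (ee i)) := by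
  have h1 : ch u q =ᶠ[𝓝 x] fun y => ch u q' (TT q q' y) := by
    filter_upwards [(JLW_ov_open q q').mem_nhds hx] with y hy
    exact JLW_ch u q q' hy
  have h2 : DifferentiableAt ℝ (TT q q') x := (JLW_smooth q q' hx).differentiableAt (by norm_num)
  have h3 : DifferentiableAt ℝ (ch u q') (TT q q' x) :=
    Pool.FR.diff_at (isOpen_extChartAt_target q') (hu q') le_rfl (JLW_mem q q' hx)
  have h4 := fderiv_comp x h3 h2
  rw [pd, h1.fderiv_eq]
  have h5 : (fun y => ch u q' (TT q q' y)) = ch u q' ∘ TT q q' := rfl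
  rw [h5, h4]
  rfl

end

theorem p_JLW : Stmt_JLW.{w} := by
  intro S _ _ _ u W hu hW q q' x hx hx'
  have hov : x ∈ JLW_ov q q' := ⟨hx, hx'⟩
  have h1 := JLW_alg (fderiv ℝ (TT q q') x) (fderiv ℝ (ch u q') (TT q q' x))
    (fderiv ℝ (ch W q') (TT q q' x))
  unfold JJ
  rw [JLW_pd hu q q' hov, JLW_pd hu q q' hov, JLW_pd hW q q' hov, JLW_pd hW q q' hov, h1]
  rfl

end Pool.SXB
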