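import Pool.Agent.Work.MP_02e829_sf.Interface

/-!
# Block LIM: dominated convergence for the cut off functions (typed by helper10)
-/

open Set Filter Manifold Matrix MeasureTheory Metric
open scoped Topology ContDiff Manifold

set_option autoImplicit false

universe w

namespace Pool.SXB

open Pool.FR (pd ee)

section LIM

variable {S : Type w} [TopologicalSpace S] [ChartedSpace E2 S]

theorem LIM_cont {l : S → ℝ} (hl : C1S l) : Continuous l := by
  rw [continuous_iff_continuousAt]
  intro p
  have h1 : ContinuousAt (ch l p) (extChartAt (𝓡 2) p p) :=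
    (hl p).continuousOn.continuousAt
      ((isOpen_extChartAt_target (I := 𝓡 2) p).mem_nhds (mem_extChartAt_target (I := 𝓡 2) p))
  have h2 : ContinuousAt (fun z => ch l p (extChartAt (𝓡 2) p z)) p :=
    ContinuousAt.comp (f := extChartAt (𝓡 2) p) h1 (continuousAt_extChartAt p)
  refine h2.congr ?_
  filter_upwards [(isOpen_extChartAt_source (I := 𝓡 2) p).mem_nhds
    (mem_extChartAt_source (I := 𝓡 2) p)] with z hz
  unfold ch
  rw [(extChartAt (𝓡 2) p).left_inv hz]

theorem LIM_JJ {l W : S → ℝ} (hl : C1S l) (hW : C1S W) (q : S) :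
    ContinuousOn (JJ l W q) (extChartAt (𝓡 2) q).target := by
  have hO := isOpen_extChartAt_target (I := 𝓡 2) q
  have h : ∀ (u : S → ℝ), C1S u → ∀ i,
      ContinuousOn (pd i (ch u q)) (extChartAt (𝓡 2) q).target := by
    intro u hu i
    exact ((hu q).continuousOn_fderiv_of_isOpen hO le_rfl).clm_apply continuousOn_const
  unfold JJ
  exact ((h l hl 0).mul (h W hW 1)).sub ((h l hl 1).mul (h W hW 0))

end LIM

theorem blk_LIM (hGSB : Stmt_GSB.{w}) (hLVL : Stmt_LVL) (hTAU : Stmt_TAU)
    (hITG : Stmt_ITG.{w}) : Stmt_LIM.{w} := by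
  intro S _ _ _ _ C ν hC hν F χ hχ l W hl hW hcnt
  have hK : IsCompact (l '' frontier C) :=
    (isClosed_frontier.isCompact).image (LIM_cont hl)
  obtain ⟨δ, hδ1, hδ2, hδ3, hδ4⟩ := hTAU _ hK.isClosed
  have key : ∀ q ∈ F, Tendsto (fun n => ∫ x in dm C q,
      ch (χ q) q x * ((δ n (ch l q x) * JJ l W q x) * sg (ν q x))) atTop
      (𝓝 (∫ x in dm C q, ch (χ q) q x * (JJ l W q x * sg (ν q x)))) := by
    intro q hq
    have hO := isOpen_extChartAt_target (I := 𝓡 2) q
    have hdm : IsOpen (dm C q) :=
      (continuousOn_extChartAt_symm (I := 𝓡 2) q).isOpen_inter_preimage hO hC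
    have hcχ : ContinuousOn (ch (χ q) q) (extChartAt (𝓡 2) q).target :=
      (hχ.c1 q hq q).continuousOn
    have hcJ := LIM_JJ hl hW q
    have hcl : ContinuousOn (ch l q) (extChartAt (𝓡 2) q).target := (hl q).continuousOn
    have hi : ∀ h : E2 → ℝ, ContinuousOn h (extChartAt (𝓡 2) q).target →
        IntegrableOn (fun x => (ch (χ q) q x * h x) * sg (ν q x)) (dm C q) volume := by
      intro h hh
      refine hITG S C ν hC hν q (tsupport (χ q)) (isClosed_tsupport _) (hχ.sup q hq)
        (fun x => ch (χ q) q x * h x) (hcχ.mul hh) (fun x _ hxT => ?_)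
      have h0 : χ q ((extChartAt (𝓡 2) q).symm x) = 0 := image_eq_zero_of_notMem_tsupport hxT
      change χ q ((extChartAt (𝓡 2) q).symm x) * h x = 0
      rw [h0, zero_mul]
    refine tendsto_integral_of_dominated_convergence
      (fun x => ‖ch (χ q) q x * JJ l W q x * sg (ν q x)‖) ?_ ?_ ?_ ?_
    · intro n
      have h1 := (hi (fun x => δ n (ch l q x) * JJ l W q x)
        (((hδ1 n).continuous.comp_continuousOn hcl).mul hcJ)).aestronglyMeasurable
      have h2 : (fun x => ch (χ q) q x * ((δ n (ch l q x) * JJ l W q x) * sg (ν q x))) =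
          fun x => (ch (χ q) q x * (δ n (ch l q x) * JJ l W q x)) * sg (ν q x) := by
        funext x
        ring
      rw [h2]
      exact h1
    · exact (hi _ hcJ).norm
    · intro n
      refine Eventually.of_forall fun x => ?_
      have h1 : ch (χ q) q x * ((δ n (ch l q x) * JJ l W q x) * sg (ν q x)) =
          δ n (ch l q x) * (ch (χ q) q x * JJ l W q x * sg (ν q x)) := by ring
      rw [h1, norm_mul, Real.norm_of_nonneg (hδ2 n _).1]
      exact mul_le_of_le_one_left (norm_nonneg _) (hδ2 n _).2
    · have h1 := hLVL _ (ch l q) (l '' frontier C) hO (hl q) hcnt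
      filter_upwards [ae_restrict_of_ae h1, ae_restrict_mem hdm.measurableSet] with x h2 h3
      by_cases hx : ch l q x ∈ l '' frontier C
      · obtain ⟨h4, h5⟩ := h2 h3.1 hx
        have h6 : JJ l W q x = 0 := by
          unfold JJ
          rw [h4, h5]
          ring
        simp only [h6, mul_zero, zero_mul]
        exact tendsto_const_nhds
      · have h4 := hδ4 _ hx
        have h5 : Tendsto (fun n => ch (χ q) q x * ((δ n (ch l q x) * JJ l W q x) *
            sg (ν q x))) atTop (𝓝 (ch (χ q) q x * ((1 * JJ l W q x) * sg (ν q x)))) :=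
          ((h4.mul_const _).mul_const _).const_mul _
        rw [one_mul] at h5
        exact h5
  have h := tendsto_finsetSum F key
  have h0 : (fun n => ∑ q ∈ F, ∫ x in dm C q,
      ch (χ q) q x * ((δ n (ch l q x) * JJ l W q x) * sg (ν q x))) = fun _ => 0 := by
    funext n
    exact hGSB S C ν hC hν F χ hχ l W hl hW (δ n) (hδ1 n)
      (fun p hp => hδ3 n _ ⟨p, hp, rfl⟩)
  rw [h0] at h
  exact tendsto_nhds_unique h tendsto_const_nhds

end Pool.SXB
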