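import Pool.Agent.Work.MP_02e829_sf.Interface

/-!
# Block LVL: almost every point of a level set is critical (helper40)
-/

open Set Filter Manifold Matrix MeasureTheory Metric
open scoped Topology ContDiff Manifold

set_option autoImplicit false

universe w

namespace Pool.SXB

open Pool.FR (pd ee)

/-- coordinates -/
noncomputable def LVL_P (p : ℝ × ℝ) : E2 := WithLp.toLp 2 ![p.1, p.2]

lemma LVL_mp : MeasurePreserving LVL_P volume volume := by
  have h := (PiLp.volume_preserving_toLp (Fin 2)).comp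
    ((volume_preserving_finTwoArrow ℝ).symm MeasurableEquiv.finTwoArrow)
  have h2 : LVL_P = (WithLp.toLp 2) ∘ (MeasurableEquiv.finTwoArrow.symm : ℝ × ℝ → Fin 2 → ℝ) := by
    funext p
    unfold LVL_P
    show WithLp.toLp 2 ![p.1, p.2] = WithLp.toLp 2 (MeasurableEquiv.finTwoArrow.symm p)
    congr 1
  rw [h2]
  exact h

lemma LVL_count (f : ℝ → ℝ) (c : ℝ) (S : Set ℝ)
    (h : ∀ t ∈ S, f t = c ∧ ∃ d, HasDerivAt f d t ∧ d ≠ 0) : S.Countable := by
  have h1 : S ⊆ {x ∈ S | 𝓝[S ∩ Ioi x] x = ⊥} := by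
    intro t ht
    refine ⟨ht, ?_⟩
    obtain ⟨h2, d, h3, h4⟩ := h t ht
    have h5 := h3.eventually_ne (c := c) h4
    rw [← Filter.empty_mem_iff_bot]
    have h6 : {z | f z ≠ c} ∈ 𝓝[S ∩ Ioi t] t :=
      nhdsWithin_mono t (fun z hz => ne_of_gt hz.2) h5
    have h7 : S ∩ Ioi t ∈ 𝓝[S ∩ Ioi t] t := self_mem_nhdsWithin
    filter_upwards [h6, h7] with z hz hz2
    exact hz (h z hz2.1).1
  exact (countable_setOfPred_isolated_right_within).mono h1

lemma LVL_null {O : Set E2} {l : E2 → ℝ} (hO : IsOpen O) (hl : ContDiffOn ℝ 1 l O) (c : ℝ)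
    (i : Fin 2) (Ψ : ℝ × ℝ → E2) (hΨ : MeasurePreserving Ψ volume volume)
    (hd : ∀ s t, HasDerivAt (fun t => Ψ (s, t)) (ee i) t) :
    volume {x : E2 | x ∈ O ∧ l x = c ∧ pd i l x ≠ 0} = 0 := by
  set A : Set E2 := {x : E2 | x ∈ O ∧ l x = c ∧ pd i l x ≠ 0} with hA
  have hAm : MeasurableSet A := by
    have h1 : IsOpen (O ∩ l ⁻¹' {c}ᶜ) :=
      hl.continuousOn.isOpen_inter_preimage hO isOpen_compl_singleton
    have h2 : ContinuousOn (pd i l) O :=
      (Pool.FR.pd_contDiffOn hO hl (m := 0) (by norm_num) i).continuousOn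
    have h3 : IsOpen (O ∩ (pd i l) ⁻¹' {0}ᶜ) :=
      h2.isOpen_inter_preimage hO isOpen_compl_singleton
    have h4 : A = (O \ (O ∩ l ⁻¹' {c}ᶜ)) ∩ (O ∩ (pd i l) ⁻¹' {0}ᶜ) := by
      ext x
      constructor
      · rintro ⟨a1, a2, a3⟩
        exact ⟨⟨a1, fun a4 => a4.2 a2⟩, a1, a3⟩
      · rintro ⟨⟨a1, a2⟩, _, a3⟩
        refine ⟨a1, ?_, a3⟩
        by_contra a4
        exact a2 ⟨a1, a4⟩
    rw [h4]
    exact (hO.measurableSet.diff h1.measurableSet).inter h3.measurableSet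
  rw [← hΨ.measure_preimage hAm.nullMeasurableSet]
  have hm : MeasurableSet (Ψ ⁻¹' A) := hΨ.measurable hAm
  show (volume.prod volume) (Ψ ⁻¹' A) = 0
  rw [Measure.measure_prod_null hm]
  refine Filter.Eventually.of_forall fun s => ?_
  show volume (Prod.mk s ⁻¹' (Ψ ⁻¹' A)) = 0
  apply Set.Countable.measure_zero
  apply LVL_count (fun t => l (Ψ (s, t))) c
  intro t ht
  have ht' : Ψ (s, t) ∈ A := ht
  obtain ⟨a1, a2, a3⟩ := ht'
  refine ⟨a2, pd i l (Ψ (s, t)), ?_, a3⟩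
  have hdl : DifferentiableAt ℝ l (Ψ (s, t)) := Pool.FR.diff_at hO hl le_rfl a1
  exact hdl.hasFDerivAt.comp_hasDerivAt t (hd s t)

lemma LVL_all {O : Set E2} {l : E2 → ℝ} (hO : IsOpen O) (hl : ContDiffOn ℝ 1 l O) (c : ℝ)
    (i : Fin 2) : volume {x : E2 | x ∈ O ∧ l x = c ∧ pd i l x ≠ 0} = 0 := by
  fin_cases i
  · refine LVL_null hO hl c 0 (LVL_P ∘ Prod.swap) (LVL_mp.comp Measure.measurePreserving_swap) ?_
    intro s t
    have h1 : (fun t => (LVL_P ∘ Prod.swap) (s, t)) = fun t : ℝ => LVL_P (0, s) + t • ee 0 := by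
      funext t
      show LVL_P (t, s) = _
      ext j
      fin_cases j <;> simp [LVL_P, ee]
    rw [h1]
    have h2 := ((hasDerivAt_id t).smul_const (ee 0)).const_add (LVL_P (0, s))
    rw [one_smul] at h2
    exact h2
  · refine LVL_null hO hl c 1 LVL_P LVL_mp ?_
    intro s t
    have h1 : (fun t => LVL_P (s, t)) = fun t : ℝ => LVL_P (s, 0) + t • ee 1 := by
      funext t
      ext j
      fin_cases j <;> simp [LVL_P, ee]
    rw [h1]
    have h2 := ((hasDerivAt_id t).smul_const (ee 1)).const_add (LVL_P (s, 0))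
    rw [one_smul] at h2
    exact h2

theorem blk_LVL : Stmt_LVL := by
  intro O l K hO hl hK
  rw [ae_iff]
  have hsub : {x : E2 | ¬ (x ∈ O → l x ∈ K → pd 0 l x = 0 ∧ pd 1 l x = 0)} ⊆
      ⋃ c ∈ K, ({x : E2 | x ∈ O ∧ l x = c ∧ pd 0 l x ≠ 0} ∪
        {x : E2 | x ∈ O ∧ l x = c ∧ pd 1 l x ≠ 0}) := by
    intro x hx
    rw [mem_ofPred_eq] at hx
    push Not at hx
    obtain ⟨h1, h2, h3⟩ := hx
    refine mem_biUnion h2 ?_
    by_cases h4 : pd 0 l x = 0
    · exact Or.inr ⟨h1, rfl, h3 h4⟩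
    · exact Or.inl ⟨h1, rfl, h4⟩
  refine measure_mono_null hsub ?_
  rw [measure_biUnion_null_iff hK]
  intro c _
  exact measure_union_null (LVL_all hO hl c 0) (LVL_all hO hl c 1)

end Pool.SXB
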