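import Pool.Agent.Work.MP_02e829_sf.Interface

/-! # Block MCO: countably many motions -/

open Set Filter Manifold Matrix MeasureTheory Metric
open scoped Topology ContDiff Manifold

set_option autoImplicit false

universe w

namespace Pool.SXB

open Pool.FR (pd ee)

theorem blk_MCO (hCY7 : Stmt_CY7.{w}) (hUQ7 : Stmt_UQ7) (hROT : Stmt_ROT) (hGLB : Stmt_GLB.{w}) :
    Stmt_MCO.{w} := by
  intro S _ _ _ f g hfg P hcount
  have hCar := EX8 hROT hGLB hfg P
  refine (hcount.biUnion (t := fun B _ => {Q | Cay B Q}) ?_).mono ?_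
  · intro B _
    refine Set.Subsingleton.countable ?_
    intro Q hQ Q' hQ'
    exact hUQ7 B Q Q' hQ hQ'
  · rintro _ ⟨p, hp, rfl⟩
    obtain ⟨B, hB, h1, h2⟩ := hCar p hp
    exact mem_biUnion hB (hCY7 S f g hfg B hB.1 p h1 h2)

end Pool.SXB
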