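import Pool.Agent.Work.MP_02e829_sf.Interface

open Set Filter Manifold Matrix MeasureTheory Metric
open scoped Topology ContDiff Manifold

set_option autoImplicit false

universe w

namespace Pool.SXB

open Pool.FR (pd ee)

theorem blk_MLC (hROT : Stmt_ROT) (hGLB : Stmt_GLB.{w}) : Stmt_MLC.{w} := by
  intro S _ _ _ f g hfg C hC hCc hLC
  rcases C.eq_empty_or_nonempty with rfl | ⟨p0, hp0⟩
  · exact ⟨AffineIsometryEquiv.refl ℝ E3, FIN_refl, fun p hp => absurd hp (notMem_empty p)⟩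
  have h1 : ∀ p ∈ C, Mo f g p = Mo f g p0 := by
    have h2 : C ⊆ {p | p ∈ C ∧ Mo f g p = Mo f g p0} := by
      refine hCc.subset_of_closure_inter_subset ?_ ⟨p0, hp0, hp0, rfl⟩ ?_
      · rw [isOpen_iff_mem_nhds]
        rintro p ⟨hp, hp1⟩
        filter_upwards [hC.mem_nhds hp, hLC p hp] with p' h3 h4
        exact ⟨h3, h4.trans hp1⟩
      · rintro p ⟨hp, hpC⟩
        refine ⟨hpC, ?_⟩
        obtain ⟨p', h3, -, h4⟩ := _root_.mem_closure_iff_nhds.1 hp _ (hLC p hpC)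
        exact (h3 : Mo f g p' = Mo f g p).symm.trans h4
    exact fun p hp => (h2 hp).2
  obtain ⟨A, hA, hAz⟩ := hROT (Mo f g p0).1 (Mo f g p0).2
  refine ⟨A, hA, fun p hp => hAz _ _ ?_⟩
  have h3 := (hGLB S f g hfg).2.2 p
  have h4 : Yg f g p = (Mo f g p0).1 := congrArg Prod.fst (h1 p hp)
  have h5 : Wg f g p = (Mo f g p0).2 := congrArg Prod.snd (h1 p hp)
  rw [h4, h5] at h3
  exact h3

end Pool.SXB
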