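import Pool.Agent.Work.MP_02e829_sf.Interface

open Set Filter Manifold Matrix MeasureTheory Metric
open scoped Topology ContDiff Manifold

set_option autoImplicit false

universe w

namespace Pool.SXB

/-- change of the first surface on a set of points -/
theorem blk_MSC : Stmt_MSC.{w} := by
  intro S _ _ f f' g A P hA hd
  ext B
  constructor
  · rintro ⟨hB, p, hp, h1, h2⟩
    refine ⟨A.trans B, ⟨FIN_trans hA hB, p, hp, ?_, fun v => ?_⟩, ?_⟩
    · rw [h1, (hd p hp).1]
      rfl
    · rw [h2 v, (hd p hp).2 v]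
      rfl
    · ext1 z
      show B (A (A.symm z)) = B z
      rw [AffineIsometryEquiv.apply_symm_apply]
  · rintro ⟨B, ⟨hB, p, hp, h1, h2⟩, rfl⟩
    refine ⟨FIN_trans (FIN_symm hA) hB, p, hp, ?_, fun v => ?_⟩
    · show g p = B (A.symm (f' p))
      rw [h1, (hd p hp).1, AffineIsometryEquiv.symm_apply_apply]
    · show _ = B.linearIsometryEquiv (A.linearIsometryEquiv.symm (FRD.dvec f' p v))
      rw [h2 v, (hd p hp).2 v, LinearIsometryEquiv.symm_apply_apply]

end Pool.SXB
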