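import Pool.Agent.Work.MP_02e829_sf.Interface
import Pool.Agent.Work.MP_02e829_sf.B_JLW
import Pool.Agent.Work.MP_02e829_sb.B_LOC

/-!
# Block ORI: the density of a transversal field is an orientation (helper40)
-/

open Set Filter Manifold Matrix MeasureTheory Metric
open scoped Topology ContDiff Manifold

set_option autoImplicit false

universe w

namespace Pool.SXB

open Pool.FR (pd ee)

lemma ORI_cross (a b c d : ℝ) (m n : V3) :
    (a • m + b • n) ⨯₃ (c • m + d • n) = (a * d - c * b) • (m ⨯₃ n) := by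
  ext i
  fin_cases i <;>
    simp [cross_apply] <;> ring

lemma ORI_span (a b X : V3) :
    ((a ⨯₃ b) ⬝ᵥ (a ⨯₃ b)) • X = (a ⬝ᵥ (X ⨯₃ (a ⨯₃ b))) • b - (b ⬝ᵥ (X ⨯₃ (a ⨯₃ b))) • a +
      ((X ⬝ᵥ (a ⨯₃ b))) • (a ⨯₃ b) := by
  ext i
  fin_cases i <;>
    simp [cross_apply, vec3_dotProduct, Matrix.vecHead, Matrix.vecTail] <;> ring

lemma ORI_ex {a b X : V3} (hn : a ⨯₃ b ≠ 0) (h : X ⬝ᵥ (a ⨯₃ b) = 0) :
    ∃ r s : ℝ, X = r • a + s • b := by
  have h1 : (a ⨯₃ b) ⬝ᵥ (a ⨯₃ b) ≠ 0 := fun h2 => hn (dotProduct_self_eq_zero.1 h2)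
  have h2 := ORI_span a b X
  rw [h, zero_smul, add_zero] at h2
  refine ⟨-(((a ⨯₃ b) ⬝ᵥ (a ⨯₃ b))⁻¹ * (b ⬝ᵥ (X ⨯₃ (a ⨯₃ b)))),
    ((a ⨯₃ b) ⬝ᵥ (a ⨯₃ b))⁻¹ * (a ⬝ᵥ (X ⨯₃ (a ⨯₃ b))), ?_⟩
  calc X = ((a ⨯₃ b) ⬝ᵥ (a ⨯₃ b))⁻¹ • (((a ⨯₃ b) ⬝ᵥ (a ⨯₃ b)) • X) := by
        rw [smul_smul, inv_mul_cancel₀ h1, one_smul]
    _ = _ := by
        rw [h2]
        module

lemma ORI_crossc : Continuous fun p : V3 × V3 => p.1 ⨯₃ p.2 := by
  apply continuous_pi
  intro i
  simp only [cross_apply]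
  fin_cases i <;> simp <;> fun_prop

section ORI

variable {S : Type w} [TopologicalSpace S] [ChartedSpace E2 S] [IsManifold (𝓡 2) 2 S]

lemma ORI_sm {U : Set E2} {F G : E2 → V3} (hP : Pair U F G) : ContDiffOn ℝ 2 (mm F G) U :=
  (hP.smF.add hP.smG).const_smul (1 / 2 : ℝ)

lemma ORI_mm {U : Set E2} {F G : E2 → V3} (hP : Pair U F G) {x : E2} (hx : x ∈ U) (i : Fin 2) :
    pd i (mm F G) x = (1 / 2 : ℝ) • (pd i F x + pd i G x) := by
  have hdF : DifferentiableAt ℝ F x := Pool.FR.diff_at hP.op hP.smF (by norm_num) hx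
  have hdG : DifferentiableAt ℝ G x := Pool.FR.diff_at hP.op hP.smG (by norm_num) hx
  rw [← Pool.FR.pd_add i hdF hdG]
  change fderiv ℝ (fun y => (1 / 2 : ℝ) • (F y + G y)) x (ee i) = _
  rw [fderiv_fun_const_smul (hdF.fun_add hdG)]
  rfl

omit [IsManifold (𝓡 2) 2 S] in
lemma ORI_mt (f g : S → E3) (q q' : S) {x : E2} (hx : x ∈ JLW_ov q q') :
    mm (loc f q) (loc g q) x = mm (loc f q') (loc g q') (TT q q' x) := by
  unfold mm loc
  rw [JLW_symm q q' hx]

end ORI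

theorem blk_ORI (hLOC : Stmt_LOC.{w}) : Stmt_ORI.{w} := by
  intro S _ _ _ f g h C c L k hT
  have hP := hLOC S f g h
  refine ⟨?_, ?_, ?_⟩
  · intro q
    have h1 : ContinuousOn (mm (loc f q) (loc g q)) (extChartAt (𝓡 2) q).target :=
      (ORI_sm (hP q)).continuousOn
    have h2 : ∀ i, ContinuousOn (pd i (mm (loc f q) (loc g q))) (extChartAt (𝓡 2) q).target :=
      fun i => (Pool.FR.pd_contDiffOn (hP q).op (ORI_sm (hP q)) (m := 1) (by norm_num)
        i).continuousOn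
    have h3 : ContinuousOn (nn (loc f q) (loc g q)) (extChartAt (𝓡 2) q).target :=
      ORI_crossc.comp_continuousOn ((h2 0).prodMk (h2 1))
    have h4 : Continuous (XX c L k) := by
      unfold XX
      exact (continuous_const.add (continuous_const.matrix_mulVec continuous_id)).add
        ((continuous_const.dotProduct continuous_id).smul continuous_id)
    have h5 : ContinuousOn (fun x => XX c L k (mm (loc f q) (loc g q) x))
        (extChartAt (𝓡 2) q).target := h4.comp_continuousOn h1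
    have h6 : Continuous fun p : V3 × V3 => p.1 ⬝ᵥ p.2 := continuous_fst.dotProduct continuous_snd
    exact h6.comp_continuousOn (h5.prodMk h3)
  · intro q x hx h0
    obtain ⟨hxt, hxC⟩ := hx
    have hn : nn (loc f q) (loc g q) x ≠ 0 := (hP q).imm x hxt
    obtain ⟨r, s, hrs⟩ := ORI_ex hn h0
    apply hT ((extChartAt (𝓡 2) q).symm x) hxC (LOC_D q x (r • ee 0 + s • ee 1))
    have e1 : ∀ k : S → E3, FRD.dvec k ((extChartAt (𝓡 2) q).symm x)
        (LOC_D q x (r • ee 0 + s • ee 1)) =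
        r • FRD.dvec k ((extChartAt (𝓡 2) q).symm x) (LOC_D q x (ee 0)) +
        s • FRD.dvec k ((extChartAt (𝓡 2) q).symm x) (LOC_D q x (ee 1)) := by
      intro k
      rw [map_add, map_smul, map_smul, LOC_lin]
    have e2 : XX c L k ((1 / 2 : ℝ) • (L3 (f ((extChartAt (𝓡 2) q).symm x)) +
        L3 (g ((extChartAt (𝓡 2) q).symm x)))) = XX c L k (mm (loc f q) (loc g q) x) := rfl
    rw [e2, hrs, ORI_mm (hP q) hxt, ORI_mm (hP q) hxt, LOC_pd h.smf q hxt, LOC_pd h.smg q hxt,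
      LOC_pd h.smf q hxt, LOC_pd h.smg q hxt, e1, e1]
    simp only [map_add, map_smul]
    module
  · intro q q' x hx hx'
    have hov : x ∈ JLW_ov q q' := ⟨hx, hx'⟩
    have h1 : mm (loc f q) (loc g q) =ᶠ[𝓝 x] fun y => mm (loc f q') (loc g q') (TT q q' y) := by
      filter_upwards [(JLW_ov_open q q').mem_nhds hov] with y hy
      exact ORI_mt f g q q' hy
    have h2 : DifferentiableAt ℝ (TT q q') x :=
      (JLW_smooth q q' hov).differentiableAt (by norm_num)
    have h3 : DifferentiableAt ℝ (mm (loc f q') (loc g q')) (TT q q' x) :=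
      Pool.FR.diff_at (hP q').op (ORI_sm (hP q')) (by norm_num) (JLW_mem q q' hov)
    have h4 := fderiv_comp x h3 h2
    have h5 : (fun y => mm (loc f q') (loc g q') (TT q q' y)) =
      mm (loc f q') (loc g q') ∘ TT q q' := rfl
    have hpd : ∀ i, pd i (mm (loc f q) (loc g q)) x =
        fderiv ℝ (mm (loc f q') (loc g q')) (TT q q' x) (fderiv ℝ (TT q q') x (ee i)) := by
      intro i
      rw [pd, h1.fderiv_eq, h5, h4]
      rfl
    have hnn : nn (loc f q) (loc g q) x =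
        (fderiv ℝ (TT q q') x).det • nn (loc f q') (loc g q') (TT q q' x) := by
      unfold nn
      rw [hpd 0, hpd 1]
      have a0 := JLW_expand (fderiv ℝ (TT q q') x (ee 0))
      have a1 := JLW_expand (fderiv ℝ (TT q q') x (ee 1))
      have b0 : fderiv ℝ (mm (loc f q') (loc g q')) (TT q q' x) (fderiv ℝ (TT q q') x (ee 0)) =
          (fderiv ℝ (TT q q') x (ee 0)) 0 • pd 0 (mm (loc f q') (loc g q')) (TT q q' x) +
          (fderiv ℝ (TT q q') x (ee 0)) 1 • pd 1 (mm (loc f q') (loc g q')) (TT q q' x) := by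
        conv_lhs => rw [a0]
        rw [map_add, map_smul, map_smul]
        rfl
      have b1 : fderiv ℝ (mm (loc f q') (loc g q')) (TT q q' x) (fderiv ℝ (TT q q') x (ee 1)) =
          (fderiv ℝ (TT q q') x (ee 1)) 0 • pd 0 (mm (loc f q') (loc g q')) (TT q q' x) +
          (fderiv ℝ (TT q q') x (ee 1)) 1 • pd 1 (mm (loc f q') (loc g q')) (TT q q' x) := by
        conv_lhs => rw [a1]
        rw [map_add, map_smul, map_smul]
        rfl
      rw [b0, b1, ORI_cross, JLW_det]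
    unfold nu
    rw [hnn, ORI_mt f g q q' hov, dotProduct_smul, smul_eq_mul]

theorem p_ORI (hLOC : Stmt_LOC.{w}) : Stmt_ORI.{w} := blk_ORI hLOC

end Pool.SXB
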