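import Pool.Agent.Work.MP_02e829_sf.Interface

/-! # Block PAR: a partition of unity of class C² on a compact surface of class C²
(typed by helper77) -/

open Set Filter Manifold Matrix MeasureTheory Metric
open scoped Topology ContDiff Manifold

set_option autoImplicit false

universe w

namespace Pool.SXB

/-- bump functions are of class `C²` on a `C²` surface -/
theorem PAR_smooth {S : Type w} [TopologicalSpace S] [ChartedSpace E2 S] [IsManifold (𝓡 2) 2 S]
    [T2Space S] {c : S} (f : SmoothBumpFunction (𝓡 2) c) :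
    ContMDiff (𝓡 2) 𝓘(ℝ, ℝ) 2 (f : S → ℝ) := by
  refine contMDiff_of_tsupport fun x hx => ?_
  have h1 : x ∈ (chartAt E2 c).source := f.tsupport_subset_chartAt_source hx
  refine ContMDiffAt.congr_of_eventuallyEq ?_ <| f.eqOn_source.eventuallyEq_of_mem <|
    (chartAt E2 c).open_source.mem_nhds h1
  exact (f.contDiffAt (n := 2)).contMDiffAt.comp _ (contMDiffAt_extChartAt' h1)

theorem PAR_chart {S : Type w} [TopologicalSpace S] [ChartedSpace E2 S] [IsManifold (𝓡 2) 2 S]
    {u : S → ℝ} (hu : ContMDiff (𝓡 2) 𝓘(ℝ, ℝ) 2 u) (q : S) :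
    ContDiffOn ℝ 1 (ch u q) (extChartAt (𝓡 2) q).target := by
  have h1 : ContMDiffOn 𝓘(ℝ, E2) (𝓡 2) 2 (extChartAt (𝓡 2) q).symm
      (extChartAt (𝓡 2) q).target := contMDiffOn_extChartAt_symm q
  have h2 : ContMDiffOn 𝓘(ℝ, E2) 𝓘(ℝ, ℝ) 2 (u ∘ (extChartAt (𝓡 2) q).symm)
      (extChartAt (𝓡 2) q).target := hu.comp_contMDiffOn h1
  exact (contMDiffOn_iff_contDiffOn.1 h2).of_le (by norm_num)

theorem blk_PAR : Stmt_PAR.{w} := by
  intro S _ _ _ _ _
  classical
  obtain ⟨f⟩ : Nonempty (∀ p : S, SmoothBumpFunction (𝓡 2) p) :=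
    ⟨fun p => Classical.choice inferInstance⟩
  obtain ⟨F, hF⟩ := isCompact_univ.elim_finite_subcover (fun p : S => Function.support (f p : S → ℝ))
    (fun p => (f p).isOpen_support) (fun p _ => mem_iUnion.2 ⟨p, (f p).c_mem_support⟩)
  have hpos : ∀ p : S, 0 < ∑ q ∈ F, (f q : S → ℝ) p := by
    intro p
    obtain ⟨q, hq⟩ := mem_iUnion.1 (hF (mem_univ p))
    obtain ⟨hqF, hq'⟩ := mem_iUnion.1 hq
    refine Finset.sum_pos' (fun q _ => (f q).nonneg) ⟨q, hqF, ?_⟩
    exact lt_of_le_of_ne (f q).nonneg (Ne.symm hq')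
  refine ⟨F, fun q p => (f q : S → ℝ) p / ∑ q' ∈ F, (f q' : S → ℝ) p, fun q _ q' => ?_,
    fun q _ p => ?_, fun q _ => ?_, fun p => ?_⟩
  · have h1 : ∀ r, ContDiffOn ℝ 1 (ch (f r : S → ℝ) q') (extChartAt (𝓡 2) q').target :=
      fun r => PAR_chart (PAR_smooth (f r)) q'
    have h2 : ContDiffOn ℝ 1 (fun x => ∑ r ∈ F, ch (f r : S → ℝ) q' x)
        (extChartAt (𝓡 2) q').target := ContDiffOn.sum fun r _ => h1 r
    exact (h1 q).div h2 fun x _ => (hpos _).ne'
  · exact div_nonneg (f q).nonneg (hpos p).le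
  · refine Subset.trans (closure_mono ?_) (f q).tsupport_subset_extChartAt_source
    intro p hp h0
    exact hp (by simp only [h0, zero_div])
  · rw [← Finset.sum_div]
    exact div_self (hpos p).ne'

end Pool.SXB
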