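import Pool.Agent.Work.MP_02e829_sf.Interface

open Set Filter Manifold Matrix MeasureTheory Metric
open scoped Topology ContDiff Manifold

set_option autoImplicit false

universe w

namespace Pool.SXB

open Pool.FR (pd ee)

theorem blk_SGK (hDIF : Stmt_DIF) (hMIX : Stmt_MIX) (hBND : Stmt_BND) : Stmt_SGK := by
  intro U F G hP x hx hpos
  obtain ⟨h0, h1, -, -⟩ := hDIF U F G hP x hx
  obtain ⟨h2, h3⟩ := hMIX U F G hP x hx
  have hd : 0 < ss F G 0 0 x * ss F G 1 1 x - ss F G 0 1 x ^ 2 := hpos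
  have h4 := hBND _ _ _ _ _ _ hd h3
  have h5 : 0 < ss F G 0 0 x * ss F G 1 1 x := by nlinarith [sq_nonneg (ss F G 0 1 x)]
  have h6 : 0 < 2 * ss F G 0 0 x ^ 2 + 2 * ss F G 1 1 x ^ 2 + ss F G 0 0 x * ss F G 1 1 x := by
    nlinarith [sq_nonneg (ss F G 0 0 x), sq_nonneg (ss F G 1 1 x)]
  have h7 : 0 ≤ (kk F G 0 0 x ^ 2 + kk F G 0 1 x ^ 2 + kk F G 1 1 x ^ 2) *
      (ss F G 0 0 x * ss F G 1 1 x - ss F G 0 1 x ^ 2) := by positivity
  have h8 : 0 ≤ kk F G 0 1 x ^ 2 - kk F G 0 0 x * kk F G 1 1 x := by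
    by_contra hn
    push Not at hn
    have := mul_neg_of_pos_of_neg h6 hn
    linarith
  refine ⟨by linarith, fun h9 => ?_⟩
  have h10 : kk F G 0 1 x ^ 2 - kk F G 0 0 x * kk F G 1 1 x = 0 := by linarith
  rw [h10, mul_zero] at h4
  have h11 : kk F G 0 0 x ^ 2 + kk F G 0 1 x ^ 2 + kk F G 1 1 x ^ 2 ≤ 0 := by
    by_contra hn
    push Not at hn
    have := mul_pos hn hd
    linarith
  have k0 : kk F G 0 0 x = 0 := by nlinarith [sq_nonneg (kk F G 0 0 x), sq_nonneg (kk F G 0 1 x), sq_nonneg (kk F G 1 1 x)]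
  have k1 : kk F G 0 1 x = 0 := by nlinarith [sq_nonneg (kk F G 0 0 x), sq_nonneg (kk F G 0 1 x), sq_nonneg (kk F G 1 1 x)]
  have k2 : kk F G 1 1 x = 0 := by nlinarith [sq_nonneg (kk F G 0 0 x), sq_nonneg (kk F G 0 1 x), sq_nonneg (kk F G 1 1 x)]
  intro i
  fin_cases i
  · change pd 0 (yy F G) x = 0
    rw [h0, k0, k1]
    simp
  · change pd 1 (yy F G) x = 0
    rw [h1, k1, k2]
    simp

end Pool.SXB
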