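import Pool.Agent.Work.MP_02e829_sf.Interface

/-!
# Block STT: the static theorem
-/

open Set Filter Manifold Matrix MeasureTheory Metric
open scoped Topology ContDiff Manifold

set_option autoImplicit false

universe w

namespace Pool.SXB

open Pool.FR (pd ee)

theorem STT_dm_open {S : Type w} [TopologicalSpace S] [ChartedSpace E2 S] (C : Set S)
    (hC : IsOpen C) (q : S) : IsOpen (dm C q) :=
  (continuousOn_extChartAt_symm q).isOpen_inter_preimage (isOpen_extChartAt_target q) hC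

theorem STT_ch_cont {S : Type w} [TopologicalSpace S] [ChartedSpace E2 S] (u : S → ℝ)
    (hu : C1S u) (q : S) : ContinuousOn (ch u q) (extChartAt (𝓡 2) q).target :=
  (hu q).continuousOn

theorem STT_pd_cont {S : Type w} [TopologicalSpace S] [ChartedSpace E2 S] (u : S → ℝ)
    (hu : C1S u) (q : S) (i : Fin 2) :
    ContinuousOn (pd i (ch u q)) (extChartAt (𝓡 2) q).target :=
  ((hu q).continuousOn_fderiv_of_isOpen (isOpen_extChartAt_target q) le_rfl).clm_apply
    continuousOn_const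

theorem STT_JJ_cont {S : Type w} [TopologicalSpace S] [ChartedSpace E2 S] (u W : S → ℝ)
    (hu : C1S u) (hW : C1S W) (q : S) :
    ContinuousOn (JJ u W q) (extChartAt (𝓡 2) q).target :=
  ((STT_pd_cont u hu q 0).mul (STT_pd_cont W hW q 1)).sub
    ((STT_pd_cont u hu q 1).mul (STT_pd_cont W hW q 0))

theorem STT_sg_cont {S : Type w} [TopologicalSpace S] [ChartedSpace E2 S] (C : Set S)
    (ν : S → E2 → ℝ) (h : Ori C ν) (q : S) :
    ContinuousOn (fun x => sg (ν q x)) (dm C q) := by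
  have h1 : ContinuousOn (ν q) (dm C q) := (h.cont q).mono inter_subset_left
  exact h1.div h1.abs fun x hx => abs_ne_zero.2 (h.ne q x hx)

theorem STT_sg_ne {r : ℝ} (hr : r ≠ 0) : sg r ≠ 0 :=
  div_ne_zero hr (abs_ne_zero.2 hr)

/-- the chart of `p`, seen from `q` -/
theorem STT_change {S : Type w} [TopologicalSpace S] [ChartedSpace E2 S] (C : Set S) (q r : S)
    (x : E2) (hx : x ∈ dm C q)
    (hr : (extChartAt (𝓡 2) q).symm x ∈ (extChartAt (𝓡 2) r).source) :
    TT q r x ∈ dm C r ∧ (extChartAt (𝓡 2) r).symm (TT q r x) = (extChartAt (𝓡 2) q).symm x := by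
  have h1 : (extChartAt (𝓡 2) r).symm (TT q r x) = (extChartAt (𝓡 2) q).symm x :=
    (extChartAt (𝓡 2) r).left_inv hr
  refine ⟨⟨(extChartAt (𝓡 2) r).map_source hr, ?_⟩, h1⟩
  show (extChartAt (𝓡 2) r).symm (TT q r x) ∈ C
  rw [h1]
  exact hx.2

theorem blk_STT (hPAR : Stmt_PAR.{w}) (hLIM : Stmt_LIM.{w}) (hITG : Stmt_ITG.{w})
    (hDEC : Stmt_DEC) (hC1L : Stmt_C1L.{w}) (hJLW : Stmt_JLW.{w}) (hORI : Stmt_ORI.{w})
    (hTLE : Stmt_TLE.{w}) : Stmt_STT.{w} := by
  intro S _ _ _ _ _ f g hM C hC hEll hct c L k hTr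
  obtain ⟨F, χ, hP⟩ := hPAR S
  obtain ⟨ι, _, a, b, a', b', hdec⟩ := hDEC c L k
  have hO : Ori C (nu c L k f g) := hORI S f g hM C c L k hTr
  obtain ⟨h1, h2⟩ := hTLE S f g hM C hC hEll c L k hTr ι a b a' b' hdec
  refine h2 ?_
  obtain ⟨u, hu⟩ : ∃ u : ι → S → ℝ, u = fun i p => LP (a i) (b i) 0 (Mo f g p) := ⟨_, rfl⟩
  obtain ⟨W, hW⟩ : ∃ W : ι → S → ℝ, W = fun i p => LP (a' i) (b' i) 0 (Mo f g p) := ⟨_, rfl⟩
  obtain ⟨ν, hν⟩ : ∃ ν : S → E2 → ℝ, ν = nu c L k f g := ⟨_, rfl⟩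
  have hJ : ∀ q x, (∑ i, JJ (fun p => LP (a i) (b i) 0 (Mo f g p))
      (fun p => LP (a' i) (b' i) 0 (Mo f g p)) q x) = ∑ i, JJ (u i) (W i) q x := by
    intro q x
    rw [hu, hW]
  simp only [hJ, ← hν] at h1 ⊢
  rw [← hν] at hO
  have hu1 : ∀ i, C1S (u i) := by
    intro i
    rw [hu]
    exact hC1L S f g hM (a i) (b i)
  have hW1 : ∀ i, C1S (W i) := by
    intro i
    rw [hW]
    exact hC1L S f g hM (a' i) (b' i)
  have huc : ∀ i, (u i '' frontier C).Countable := by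
    intro i
    have h3 : u i '' frontier C = LP (a i) (b i) 0 '' (Mo f g '' frontier C) := by
      rw [image_image, hu]
    rw [h3]
    exact hct.image _
  have hL : ∀ i, ∑ q ∈ F, ∫ x in dm C q, ch (χ q) q x * (JJ (u i) (W i) q x * sg (ν q x)) = 0 :=
    fun i => hLIM S C ν hC hO F χ hP (u i) (W i) (hu1 i) (hW1 i) (huc i)
  -- integrability
  have hI : ∀ i, ∀ q ∈ F, IntegrableOn
      (fun x => ch (χ q) q x * (JJ (u i) (W i) q x * sg (ν q x))) (dm C q) volume := by
    intro i q hq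
    have h3 := hITG S C ν hC hO q (tsupport (χ q)) (isClosed_tsupport _) (hP.sup q hq)
      (fun x => ch (χ q) q x * JJ (u i) (W i) q x)
      ((STT_ch_cont (χ q) (hP.c1 q hq) q).mul (STT_JJ_cont (u i) (W i) (hu1 i) (hW1 i) q)) (by
        intro x _ hx'
        have h4 : ch (χ q) q x = 0 := by
          show χ q ((extChartAt (𝓡 2) q).symm x) = 0
          exact image_eq_zero_of_notMem_tsupport hx'
        show ch (χ q) q x * JJ (u i) (W i) q x = 0
        rw [h4, zero_mul])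
    refine h3.congr_fun (fun x _ => ?_) (STT_dm_open C hC q).measurableSet
    show ch (χ q) q x * JJ (u i) (W i) q x * sg (ν q x) = _
    ring
  have hsum : ∀ q x, ch (χ q) q x * ((∑ i, JJ (u i) (W i) q x) * sg (ν q x)) =
      ∑ i, ch (χ q) q x * (JJ (u i) (W i) q x * sg (ν q x)) := by
    intro q x
    rw [Finset.sum_mul, Finset.mul_sum]
  have hT : ∑ q ∈ F, ∫ x in dm C q,
      ch (χ q) q x * ((∑ i, JJ (u i) (W i) q x) * sg (ν q x)) = 0 := by
    have h3 : ∀ q ∈ F, ∫ x in dm C q,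
        ch (χ q) q x * ((∑ i, JJ (u i) (W i) q x) * sg (ν q x)) =
        ∑ i, ∫ x in dm C q, ch (χ q) q x * (JJ (u i) (W i) q x * sg (ν q x)) := by
      intro q hq
      simp_rw [hsum]
      exact integral_finsetSum _ fun i _ => hI i q hq
    rw [Finset.sum_congr rfl h3, Finset.sum_comm]
    exact Finset.sum_eq_zero fun i _ => hL i
  have hle : ∀ q ∈ F, ∀ x ∈ dm C q,
      ch (χ q) q x * ((∑ i, JJ (u i) (W i) q x) * sg (ν q x)) ≤ 0 := fun q hq x hx =>
    mul_nonpos_of_nonneg_of_nonpos (hP.nonneg q hq _) (h1 q x hx)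
  have hInt : ∀ q ∈ F, ∫ x in dm C q,
      ch (χ q) q x * ((∑ i, JJ (u i) (W i) q x) * sg (ν q x)) = 0 := by
    refine (Finset.sum_eq_zero_iff_of_nonpos fun q hq => ?_).1 hT
    exact setIntegral_nonpos (STT_dm_open C hC q).measurableSet fun x hx => hle q hq x hx
  have hI2 : ∀ q ∈ F, IntegrableOn
      (fun x => ch (χ q) q x * ((∑ i, JJ (u i) (W i) q x) * sg (ν q x))) (dm C q) volume := by
    intro q hq
    simp_rw [hsum]
    exact integrable_finsetSum _ fun i _ => hI i q hq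
  have hcont : ∀ q ∈ F, ContinuousOn
      (fun x => ch (χ q) q x * ((∑ i, JJ (u i) (W i) q x) * sg (ν q x))) (dm C q) := by
    intro q hq
    refine ((STT_ch_cont (χ q) (hP.c1 q hq) q).mono inter_subset_left).mul
      (ContinuousOn.mul ?_ (STT_sg_cont C ν hO q))
    exact continuousOn_finsetSum _ fun i _ =>
      (STT_JJ_cont (u i) (W i) (hu1 i) (hW1 i) q).mono inter_subset_left
  have hzero : ∀ q ∈ F, ∀ x ∈ dm C q,
      ch (χ q) q x * ((∑ i, JJ (u i) (W i) q x) * sg (ν q x)) = 0 := by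
    intro q hq
    have hae : (fun x => -(ch (χ q) q x * ((∑ i, JJ (u i) (W i) q x) * sg (ν q x))))
        =ᵐ[volume.restrict (dm C q)] 0 := by
      refine (setIntegral_eq_zero_iff_of_nonneg_ae ?_ (hI2 q hq).neg).1 ?_
      · refine (ae_restrict_iff' (STT_dm_open C hC q).measurableSet).2 (Eventually.of_forall ?_)
        intro x hx
        show (0 : ℝ) ≤ -_
        exact neg_nonneg.2 (hle q hq x hx)
      · show ∫ x in dm C q,
          -(ch (χ q) q x * ((∑ i, JJ (u i) (W i) q x) * sg (ν q x))) = 0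
        rw [integral_neg, hInt q hq, neg_zero]
    have h5 := Measure.eqOn_open_of_ae_eq hae (STT_dm_open C hC q) (hcont q hq).neg
      continuousOn_const
    intro x hx
    have h6 := h5 hx
    have h7 : -(ch (χ q) q x * ((∑ i, JJ (u i) (W i) q x) * sg (ν q x))) = 0 := h6
    exact neg_eq_zero.1 h7
  intro q x hx
  obtain ⟨p, hp⟩ : ∃ p, p = (extChartAt (𝓡 2) q).symm x := ⟨_, rfl⟩
  obtain ⟨r, hr, hχ⟩ : ∃ r ∈ F, χ r p ≠ 0 := by
    by_contra hcon
    push Not at hcon
    have h3 := hP.sum p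
    rw [Finset.sum_eq_zero hcon] at h3
    exact zero_ne_one h3
  have hpr : p ∈ (extChartAt (𝓡 2) r).source := hP.sup r hr (subset_tsupport _ hχ)
  rw [hp] at hpr
  obtain ⟨h3, h4⟩ := STT_change C q r x hx hpr
  have h5 := hzero r hr _ h3
  have h6 : ch (χ r) r (TT q r x) ≠ 0 := by
    show χ r ((extChartAt (𝓡 2) r).symm (TT q r x)) ≠ 0
    rw [h4, ← hp]
    exact hχ
  have h7 : ∑ i, JJ (u i) (W i) r (TT q r x) = 0 := by
    rcases mul_eq_zero.1 h5 with h | h
    · exact absurd h h6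
    · rcases mul_eq_zero.1 h with h | h
      · exact h
      · exact absurd h (STT_sg_ne (hO.ne r _ h3))
  have h8 : ∑ i, JJ (u i) (W i) q x = 0 := by
    have h9 : ∀ i, JJ (u i) (W i) q x =
        (fderiv ℝ (TT q r) x).det * JJ (u i) (W i) r (TT q r x) := fun i =>
      hJLW S (u i) (W i) (hu1 i) (hW1 i) q r x hx.1 hpr
    simp_rw [h9]
    rw [← Finset.mul_sum, h7, mul_zero]
  rw [h8, zero_mul]

end Pool.SXB

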