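import Pool.Agent.Work.MP_02e829_sf.Interface

/-!
# Block TAU (helper16): cut off functions
-/

open Set Filter Manifold Matrix MeasureTheory Metric
open scoped Topology ContDiff Manifold

set_option autoImplicit false

namespace Pool.SXB

theorem blk_TAU : Stmt_TAU := by
  intro K hK
  have key : ∀ n : ℕ, ∃ f : ℝ → ℝ, ContDiff ℝ 1 f ∧ (∀ s, 0 ≤ f s ∧ f s ≤ 1) ∧
      (∀ s ∈ K, ∀ᶠ r in 𝓝 s, f r = 0) ∧
      ∀ s, s ∉ thickening (1 / ((n : ℝ) + 1)) K → f s = 1 := by
    intro n
    have hpos : (0 : ℝ) < 1 / ((n : ℝ) + 1) := by positivity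
    obtain ⟨f, h0, h1, h2⟩ := exists_contMDiffMap_zero_one_nhds_of_isClosed
      (n := 1) (I := modelWithCornersSelf ℝ ℝ) (M := ℝ) hK
      (isOpen_thickening (δ := 1 / ((n : ℝ) + 1)) (E := K)).isClosed_compl
      (by
        rw [Set.disjoint_compl_right_iff_subset]
        exact self_subset_thickening hpos K)
    refine ⟨f, f.contMDiff.contDiff, fun s => h2 s, fun s hs => ?_, fun s hs => ?_⟩
    · exact (eventually_nhdsSet_iff_forall.1 h0) s hs
    · exact h1.self_of_nhdsSet s hs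
  choose f hf1 hf2 hf3 hf4 using key
  refine ⟨f, hf1, hf2, hf3, fun s hs => ?_⟩
  rcases K.eq_empty_or_nonempty with rfl | hne
  · refine tendsto_const_nhds.congr fun n => ?_
    rw [hf4 n s (by simp)]
  · have hd : 0 < infDist s K := (hK.notMem_iff_infDist_pos hne).1 hs
    have h1 : Tendsto (fun n : ℕ => 1 / ((n : ℝ) + 1)) atTop (𝓝 0) :=
      tendsto_one_div_add_atTop_nhds_zero_nat
    have h2 : ∀ᶠ n : ℕ in atTop, 1 / ((n : ℝ) + 1) < infDist s K := h1.eventually (gt_mem_nhds hd)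
    refine tendsto_const_nhds.congr' ?_
    filter_upwards [h2] with n hn
    rw [hf4 n s]
    intro hmem
    rw [mem_thickening_iff_infDist_lt hne] at hmem
    linarith

end Pool.SXB
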