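import Pool.Agent.Work.MP_02e829_sf.Interface
import Pool.Agent.Work.MP_02e829_sb.B_STA
import Pool.Agent.Work.MP_02e829_sb.B_BAD

/-!
# Block TLE: the sign of the density
-/

open Set Filter Manifold Matrix MeasureTheory Metric
open scoped Topology ContDiff Manifold

set_option autoImplicit false

universe w

namespace Pool.SXB

open Pool.FR (pd ee)

section TLE

variable {S : Type w} [TopologicalSpace S] [ChartedSpace E2 S] [IsManifold (𝓡 2) 2 S]

/-- the sum of the Jacobians in a chart -/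
lemma TLE_sum (hJAC : Stmt_JAC.{w}) {f g : S → E3} (h : MPair f g) {c : V3}
    {L : Matrix (Fin 3) (Fin 3) ℝ} {k : V3} {ι : Type} [Fintype ι] {a b a' b' : ι → V3}
    (hX : ∀ x : V3, ∑ i, (a i + b i ⨯₃ x) ⨯₃ (a' i + b' i ⨯₃ x) = XX c L k x) (q : S) {x : E2}
    (hx : x ∈ (extChartAt (𝓡 2) q).target) :
    ∑ i, JJ (fun p => LP (a i) (b i) 0 (Mo f g p)) (fun p => LP (a' i) (b' i) 0 (Mo f g p)) q x =
      (kk (loc f q) (loc g q) 0 0 x * kk (loc f q) (loc g q) 1 1 x -
        kk (loc f q) (loc g q) 0 1 x ^ 2) * nu c L k f g q x := by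
  have h1 : ∀ i, JJ (fun p => LP (a i) (b i) 0 (Mo f g p))
      (fun p => LP (a' i) (b' i) 0 (Mo f g p)) q x =
      (kk (loc f q) (loc g q) 0 0 x * kk (loc f q) (loc g q) 1 1 x -
        kk (loc f q) (loc g q) 0 1 x ^ 2) *
      (((a i + b i ⨯₃ mm (loc f q) (loc g q) x) ⨯₃ (a' i + b' i ⨯₃ mm (loc f q) (loc g q) x)) ⬝ᵥ
        nn (loc f q) (loc g q) x) := fun i => hJAC S f g h _ _ _ _ q x hx
  simp_rw [h1]
  rw [← Finset.mul_sum, ← sum_dotProduct, hX]
  rfl

lemma TLE_sg (D T n : ℝ) : (D * T) * sg (D * n) = |D| * (T * sg n) := by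
  unfold sg
  rw [abs_mul]
  rcases eq_or_ne D 0 with h | h
  · simp [h]
  · have h1 : |D| ≠ 0 := abs_ne_zero.2 h
    have h2 : D * D = |D| * |D| := (abs_mul_abs_self D).symm
    rcases eq_or_ne n 0 with hn | hn
    · simp [hn]
    · have h3 : |n| ≠ 0 := abs_ne_zero.2 hn
      rw [mul_div_assoc', mul_div_assoc', mul_div_assoc', div_eq_div_iff (mul_ne_zero h1 h3) h3]
      calc D * T * (D * n) * |n| = (D * D) * (T * n * |n|) := by ring
        _ = (|D| * |D|) * (T * n * |n|) := by rw [h2]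
        _ = _ := by ring

lemma TLE_sgn (n : ℝ) : n * sg n = |n| := by
  unfold sg
  rcases eq_or_ne n 0 with hn | hn
  · simp [hn]
  · have h3 : |n| ≠ 0 := abs_ne_zero.2 hn
    rw [mul_div_assoc', div_eq_iff h3, abs_mul_abs_self]

theorem blk_TLE (hJLW : Stmt_JLW.{w}) (hC1L : Stmt_C1L.{w}) (hJAC : Stmt_JAC.{w})
    (hSGK : Stmt_SGK) (hSIG : Stmt_SIG) (hLOC : Stmt_LOC.{w}) (hORI : Stmt_ORI.{w})
    (hLCN : Stmt_LCN.{w}) : Stmt_TLE.{w} := by
  intro S _ _ _ f g h C hC hell c L k htr ι _ a b a' b' hX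
  have hori := hORI S f g h C c L k htr
  refine ⟨?_, ?_⟩
  · intro q x hx
    obtain ⟨hx1, hx2⟩ := hx
    set p := (extChartAt (𝓡 2) q).symm x with hp
    have hpC : p ∈ C := hx2
    have hps : p ∈ (extChartAt (𝓡 2) p).source := mem_extChartAt_source p
    have hz : extChartAt (𝓡 2) p p ∈ (extChartAt (𝓡 2) p).target := mem_extChartAt_target p
    have hT : TT q p x = extChartAt (𝓡 2) p p := rfl
    have hsum : ∑ i, JJ (fun p => LP (a i) (b i) 0 (Mo f g p))
        (fun p => LP (a' i) (b' i) 0 (Mo f g p)) q x =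
        (fderiv ℝ (TT q p) x).det * ∑ i, JJ (fun p => LP (a i) (b i) 0 (Mo f g p))
        (fun p => LP (a' i) (b' i) 0 (Mo f g p)) p (extChartAt (𝓡 2) p p) := by
      rw [Finset.mul_sum]
      refine Finset.sum_congr rfl fun i _ => ?_
      have := hJLW S _ _ (hC1L S f g h (a i) (b i)) (hC1L S f g h (a' i) (b' i)) q p x hx1 hps
      rw [hT] at this
      exact this
    have hnu := hori.law q p x hx1 hps
    rw [hT] at hnu
    rw [hsum, hnu, TLE_sg, TLE_sum hJAC h hX p hz, mul_assoc _ (nu c L k f g p _) _, TLE_sgn]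
    have hpos : PosAt (loc f p) (loc g p) (extChartAt (𝓡 2) p p) :=
      STA_pos hSIG hLOC h (hell p hpC)
    have hk := (hSGK _ _ _ (hLOC S f g h p) _ hz hpos).1
    exact mul_nonpos_of_nonneg_of_nonpos (abs_nonneg _)
      (mul_nonpos_of_nonpos_of_nonneg hk (abs_nonneg _))
  · intro hzero q hq
    have hz : extChartAt (𝓡 2) q q ∈ (extChartAt (𝓡 2) q).target := mem_extChartAt_target q
    have hpos : PosAt (loc f q) (loc g q) (extChartAt (𝓡 2) q q) :=
      STA_pos hSIG hLOC h (hell q hq)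
    have h1 := BAD_pos (hLOC S f g h q) hz hpos
    have h2 : ∀ᶠ z in 𝓝 (extChartAt (𝓡 2) q q), z ∈ (extChartAt (𝓡 2) q).target :=
      (isOpen_extChartAt_target q).mem_nhds hz
    have h3 : ∀ᶠ z in 𝓝 (extChartAt (𝓡 2) q q), (extChartAt (𝓡 2) q).symm z ∈ C :=
      (STA_tend q).eventually (hC.mem_nhds hq)
    have hrig : Rig (loc f q) (loc g q) (extChartAt (𝓡 2) q q) := by
      filter_upwards [h1, h2, h3] with z e1 e2 e3
      have hdm : z ∈ dm C q := ⟨e2, e3⟩
      have e4 := hzero q z hdm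
      rw [TLE_sum hJAC h hX q e2, mul_assoc, TLE_sgn] at e4
      have e5 : nu c L k f g q z ≠ 0 := hori.ne q z hdm
      have e6 := (mul_eq_zero.1 e4).resolve_right (abs_ne_zero.2 e5)
      exact (hSGK _ _ _ (hLOC S f g h q) z e2 e1).2 e6
    filter_upwards [hLCN S f g h q hrig] with q' e
    unfold Mo
    rw [e.1, e.2]

end TLE

end Pool.SXB
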