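import Pool.Agent.Work.MP_02e829_sf.Interface
import Pool.Agent.Work.MP_02e829_sb.B_CLO

/-! # Block TRV: stability of transversality (helper4) -/

open Set Filter Manifold Matrix MeasureTheory Metric
open scoped Topology ContDiff Manifold

set_option autoImplicit false

universe w

namespace Pool.SXB

open Pool.FR (pd ee)

theorem TRV_contXX (c : V3) (L : Matrix (Fin 3) (Fin 3) ℝ) (k : V3) : Continuous (XX c L k) := by
  unfold XX
  have h1 : Continuous fun x : V3 => L *ᵥ x :=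
    LinearMap.continuous_of_finiteDimensional (Matrix.mulVecLin L)
  have h2 : Continuous fun x : V3 => (k ⬝ᵥ x) • x := by
    have h3 : Continuous fun x : V3 => k ⬝ᵥ x := by
      unfold dotProduct
      exact continuous_finsetSum _ fun i _ => continuous_const.mul (continuous_apply i)
    exact h3.smul continuous_id
  exact (continuous_const.add h1).add h2

theorem TRV_L3inj : Function.Injective L3 := (EuclideanSpace.equiv (Fin 3) ℝ).injective

/-- a vector off the image of an injective linear map: a lower bound of the distance -/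
theorem TRV_lower {B : E2 →L[ℝ] V3} (hB : Function.Injective B) {X : V3} (hX : ∀ w, B w ≠ X) :
    ∃ κ : ℝ, 0 < κ ∧ ∀ w, κ * (1 + ‖w‖) ≤ ‖X - B w‖ := by
  set T : ℝ × E2 →ₗ[ℝ] V3 :=
    (LinearMap.toSpanSingleton ℝ V3 X).comp (LinearMap.fst ℝ ℝ E2) -
      (B : E2 →ₗ[ℝ] V3).comp (LinearMap.snd ℝ ℝ E2) with hT
  have hTv : ∀ s w, T (s, w) = s • X - B w := fun s w => rfl
  have hker : T.ker = ⊥ := by
    rw [LinearMap.ker_eq_bot']
    rintro ⟨s, w⟩ h
    rw [hTv, sub_eq_zero] at h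
    have hs : s = 0 := by
      by_contra hs
      refine hX (s⁻¹ • w) ?_
      rw [map_smul, ← h, smul_smul, inv_mul_cancel₀ hs, one_smul]
    have hw : w = 0 := by
      refine hB ?_
      rw [← h, hs, zero_smul, map_zero]
    rw [hs, hw]
    rfl
  obtain ⟨K, K0, hK⟩ := LinearMap.exists_antilipschitzWith T hker
  obtain ⟨k, hk⟩ : ∃ k : ℝ, k = K := ⟨_, rfl⟩
  have hkpos : 0 < k := by
    rw [hk]
    exact K0
  refine ⟨(2 * k)⁻¹, by positivity, fun w => ?_⟩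
  have h1 : ‖((1 : ℝ), w)‖ ≤ k * ‖T (1, w)‖ := by
    have := hK.le_mul_dist ((1 : ℝ), w) 0
    rw [dist_zero_right, map_zero, dist_zero_right] at this
    rw [hk]
    exact this
  have h2 : (1 : ℝ) ≤ ‖((1 : ℝ), w)‖ := by
    have := norm_fst_le ((1 : ℝ), w)
    rwa [norm_one] at this
  have h3 : ‖w‖ ≤ ‖((1 : ℝ), w)‖ := norm_snd_le ((1 : ℝ), w)
  have h4 : T (1, w) = X - B w := by
    rw [hTv, one_smul]
  rw [h4] at h1
  rw [inv_mul_le_iff₀ (by positivity)]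
  linarith

section surface

variable {S : Type w} [TopologicalSpace S] [ChartedSpace E2 S] [IsManifold (𝓡 2) 2 S]

/-- the conclusion on a set -/
def TRV_P (f : S → E3) (c : V3) (L : Matrix (Fin 3) (Fin 3) ℝ) (k : V3) (s : Set S) : Prop :=
  ∃ η : ℝ, 0 < η ∧ ∀ p ∈ s, ∀ (z : E3) (D : E2 → E3), ‖z - f p‖ ≤ η →
    (∀ v, ‖D v - FRD.dvec f p v‖ ≤ η * ‖FRD.dvec f p v‖) →
    ∀ v, (1 / 2 : ℝ) • (L3 (FRD.dvec f p v) + L3 (D v)) ≠ XX c L k ((1 / 2 : ℝ) • (L3 (f p) + L3 z))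

theorem TRV_local {f : S → E3} (hf : ContMDiff (𝓡 2) (𝓡 3) 2 f)
    (himm : ∀ p, Function.Injective (FRD.dvec f p)) (c : V3) (L : Matrix (Fin 3) (Fin 3) ℝ) (k : V3)
    (p0 : S) (hp : ∀ v, L3 (FRD.dvec f p0 v) ≠ XX c L k (L3 (f p0))) :
    ∃ t ∈ 𝓝 p0, TRV_P f c L k t := by
  set φ := extChartAt (𝓡 2) p0 with hφ
  set A : E2 → (E2 →L[ℝ] E3) := fun x => fderiv ℝ (fun y => f (φ.symm y)) x with hA
  have hxp : φ p0 ∈ φ.target := φ.map_source (mem_extChartAt_source (I := 𝓡 2) p0)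
  have hfd : ∀ x ∈ φ.target, ∀ w, A x w = FRD.dvec f (φ.symm x)
      (mfderiv 𝓘(ℝ, E2) (𝓡 2) φ.symm x w) := fun x hx w => Pool.RL.fderiv_chart hf p0 hx w
  have hinj : Function.Injective (A (φ p0)) := by
    have h1 : ⇑(A (φ p0)) = FRD.dvec f (φ.symm (φ p0)) ∘
        (mfderiv 𝓘(ℝ, E2) (𝓡 2) φ.symm (φ p0)) := funext fun w => hfd _ hxp w
    rw [h1]
    exact (himm _).comp (Pool.RL.chart_injective p0 hxp)
  set B : E2 →L[ℝ] V3 := L3.comp (A (φ p0)) with hB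
  have hBinj : Function.Injective B := TRV_L3inj.comp hinj
  set X0 : V3 := XX c L k (L3 (f p0)) with hX0
  have hBX : ∀ w, B w ≠ X0 := fun w hw => by
    refine hp (mfderiv 𝓘(ℝ, E2) (𝓡 2) φ.symm (φ p0) w) ?_
    have h1 := hfd _ hxp w
    rw [φ.left_inv (mem_extChartAt_source (I := 𝓡 2) p0)] at h1
    exact (congrArg L3 h1.symm).trans hw
  obtain ⟨κ, hκ, hlow⟩ := TRV_lower hBinj hBX
  set M : ℝ := ‖L3‖ + 1 with hM
  have hMpos : 0 < M := by positivity
  set a : ℝ := ‖A (φ p0)‖ + 1 with ha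
  have hapos : 0 < a := by positivity
  set ε : ℝ := min 1 (κ / (8 * M)) with hε
  have hεpos : 0 < ε := lt_min one_pos (by positivity)
  have hε1 : ε ≤ 1 := min_le_left _ _
  have hε2 : M * ε ≤ κ / 8 := by
    have : ε ≤ κ / (8 * M) := min_le_right _ _
    calc M * ε ≤ M * (κ / (8 * M)) := by gcongr
      _ = κ / 8 := by field_simp
  -- continuity of the derivative
  have hcont : ∀ᶠ x in 𝓝 (φ p0), ‖A x - A (φ p0)‖ ≤ ε := by
    have hsm : ContDiffOn ℝ 2 (fun y => f (φ.symm y)) φ.target := by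
      have h1 := hf.comp_contMDiffOn (contMDiffOn_extChartAt_symm (I := 𝓡 2) (n := 2) p0)
      exact contMDiffOn_iff_contDiffOn.1 h1
    have h1 : ContinuousOn A φ.target :=
      hsm.continuousOn_fderiv_of_isOpen (isOpen_extChartAt_target p0) (by norm_num)
    have h2 : ContinuousAt A (φ p0) :=
      h1.continuousAt ((isOpen_extChartAt_target p0).mem_nhds hxp)
    have h3 := Metric.continuousAt_iff'.1 h2 ε hεpos
    filter_upwards [h3] with x hx
    rw [dist_eq_norm] at hx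
    exact hx.le
  have hφc : ContinuousAt φ p0 := continuousAt_extChartAt (I := 𝓡 2) p0
  have c1 : ∀ᶠ p in 𝓝 p0, ‖A (φ p) - A (φ p0)‖ ≤ ε := hφc.eventually hcont
  have c2 : ∀ᶠ p in 𝓝 p0, p ∈ φ.source := extChartAt_source_mem_nhds (I := 𝓡 2) p0
  -- continuity of the field
  obtain ⟨δ, hδ, hδX⟩ : ∃ δ : ℝ, 0 < δ ∧ ∀ y : V3, ‖y - L3 (f p0)‖ < δ →
      ‖XX c L k y - X0‖ < κ / 4 := by
    have h0 : ContinuousAt (XX c L k) (L3 (f p0)) := (TRV_contXX c L k).continuousAt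
    obtain ⟨δ, hδ, h2⟩ := Metric.continuousAt_iff.1 h0 (κ / 4) (by positivity)
    refine ⟨δ, hδ, fun y hy => ?_⟩
    rw [← dist_eq_norm] at hy ⊢
    exact h2 hy
  have c3 : ∀ᶠ p in 𝓝 p0, ‖f p - f p0‖ < δ / (2 * M) := by
    have h0 : ContinuousAt f p0 := hf.continuous.continuousAt
    have h1 := Metric.continuousAt_iff'.1 h0 (δ / (2 * M)) (by positivity)
    filter_upwards [h1] with x hx
    rw [dist_eq_norm] at hx
    exact hx
  refine ⟨{p | ‖A (φ p) - A (φ p0)‖ ≤ ε ∧ p ∈ φ.source ∧ ‖f p - f p0‖ < δ / (2 * M)},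
    c1.and (c2.and c3), min (δ / (2 * M)) (κ / (4 * M * a)), lt_min (by positivity)
    (by positivity), ?_⟩
  rintro p ⟨h1, h2, h3⟩ z D hz hD v heq
  have hη1 : ‖z - f p‖ ≤ δ / (2 * M) := hz.trans (min_le_left _ _)
  have hx : φ p ∈ φ.target := φ.map_source h2
  obtain ⟨w, hw⟩ : ∃ w : E2, mfderiv 𝓘(ℝ, E2) (𝓡 2) φ.symm (φ p) w = v := CLO_surj p0 hx v
  have e1 : A (φ p) w = FRD.dvec f p v := by
    have := hfd _ hx w
    rw [hw, φ.left_inv h2] at this
    exact this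
  -- the point
  have g1 : ‖(1 / 2 : ℝ) • (L3 (f p) + L3 z) - L3 (f p0)‖ < δ := by
    have q1 : (1 / 2 : ℝ) • (L3 (f p) + L3 z) - L3 (f p0) =
        L3 ((f p - f p0) + (1 / 2 : ℝ) • (z - f p)) := by
      simp only [map_add, map_sub, map_smul]
      module
    rw [q1]
    have q2 : ‖(f p - f p0) + (1 / 2 : ℝ) • (z - f p)‖ < δ / M := by
      have q3 := norm_add_le (f p - f p0) ((1 / 2 : ℝ) • (z - f p))
      rw [norm_smul] at q3
      have q4 : ‖(1 / 2 : ℝ)‖ = 1 / 2 := by norm_num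
      rw [q4] at q3
      have q5 : δ / M = δ / (2 * M) + δ / (2 * M) := by
        field_simp
        ring
      have q6 : 0 < δ / (2 * M) := by positivity
      rw [q5]
      linarith
    calc ‖L3 ((f p - f p0) + (1 / 2 : ℝ) • (z - f p))‖
        ≤ ‖L3‖ * ‖(f p - f p0) + (1 / 2 : ℝ) • (z - f p)‖ := L3.le_opNorm _
      _ ≤ M * ‖(f p - f p0) + (1 / 2 : ℝ) • (z - f p)‖ := by
          gcongr
          linarith
      _ < M * (δ / M) := by gcongr
      _ = δ := by field_simp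
  have g2 := hδX _ g1
  rw [← heq] at g2
  -- the vector
  have g3 : ‖A (φ p) w - A (φ p0) w‖ ≤ ε * ‖w‖ := by
    have := (A (φ p) - A (φ p0)).le_of_opNorm_le h1 w
    simpa using this
  have g4 : ‖A (φ p) w‖ ≤ a * ‖w‖ := by
    have q1 := (A (φ p0)).le_opNorm w
    have q2 : A (φ p) w = (A (φ p) w - A (φ p0) w) + A (φ p0) w := by abel
    have q3 := norm_add_le (A (φ p) w - A (φ p0) w) (A (φ p0) w)
    rw [← q2] at q3
    have q4 : ε * ‖w‖ ≤ 1 * ‖w‖ := by gcongr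
    rw [ha]
    linarith
  have g5 : ‖D v - A (φ p) w‖ ≤ κ / (4 * M) * ‖w‖ := by
    have q1 := hD v
    rw [← e1] at q1
    calc ‖D v - A (φ p) w‖ ≤ min (δ / (2 * M)) (κ / (4 * M * a)) * ‖A (φ p) w‖ := q1
      _ ≤ κ / (4 * M * a) * (a * ‖w‖) := by
          gcongr
          exact min_le_right _ _
      _ = κ / (4 * M) * ‖w‖ := by field_simp
  have g6 : ‖(1 / 2 : ℝ) • (L3 (FRD.dvec f p v) + L3 (D v)) - B w‖ ≤ κ / 4 * ‖w‖ := by
    have q1 : (1 / 2 : ℝ) • (L3 (FRD.dvec f p v) + L3 (D v)) - B w =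
        L3 ((A (φ p) w - A (φ p0) w) + (1 / 2 : ℝ) • (D v - A (φ p) w)) := by
      rw [← e1, hB]
      simp only [map_add, map_sub, map_smul, ContinuousLinearMap.comp_apply]
      module
    rw [q1]
    have q3 := norm_add_le (A (φ p) w - A (φ p0) w) ((1 / 2 : ℝ) • (D v - A (φ p) w))
    rw [norm_smul] at q3
    have q4 : ‖(1 / 2 : ℝ)‖ = 1 / 2 := by norm_num
    rw [q4] at q3
    calc ‖L3 ((A (φ p) w - A (φ p0) w) + (1 / 2 : ℝ) • (D v - A (φ p) w))‖
        ≤ ‖L3‖ * ‖(A (φ p) w - A (φ p0) w) + (1 / 2 : ℝ) • (D v - A (φ p) w)‖ := L3.le_opNorm _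
      _ ≤ M * (ε * ‖w‖ + 1 / 2 * (κ / (4 * M) * ‖w‖)) := by
          gcongr
          · linarith
          · linarith
      _ = (M * ε) * ‖w‖ + κ / 8 * ‖w‖ := by
          field_simp
          ring
      _ ≤ κ / 8 * ‖w‖ + κ / 8 * ‖w‖ := by gcongr
      _ = κ / 4 * ‖w‖ := by ring
  have g7 := hlow w
  have g8 : ‖X0 - B w‖ ≤ ‖(1 / 2 : ℝ) • (L3 (FRD.dvec f p v) + L3 (D v)) - X0‖ +
      ‖(1 / 2 : ℝ) • (L3 (FRD.dvec f p v) + L3 (D v)) - B w‖ := by
    have q1 := norm_sub_le ((1 / 2 : ℝ) • (L3 (FRD.dvec f p v) + L3 (D v)) - B w)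
      ((1 / 2 : ℝ) • (L3 (FRD.dvec f p v) + L3 (D v)) - X0)
    have q2 : (1 / 2 : ℝ) • (L3 (FRD.dvec f p v) + L3 (D v)) - B w -
      ((1 / 2 : ℝ) • (L3 (FRD.dvec f p v) + L3 (D v)) - X0) = X0 - B w := by abel
    rw [q2] at q1
    linarith
  have g9 : 0 ≤ κ * ‖w‖ := by positivity
  nlinarith

end surface

theorem blk_TRV : Stmt_TRV.{w} := by
  intro S _ _ _ _ f hf himm K hK c L k hT
  have hKc : IsCompact K := hK.isCompact
  refine hKc.induction_on (p := TRV_P f c L k) ?_ ?_ ?_ ?_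
  · exact ⟨1, one_pos, fun p hp => absurd hp (notMem_empty p)⟩
  · rintro s t hst ⟨η, hη, h⟩
    exact ⟨η, hη, fun p hp => h p (hst hp)⟩
  · rintro s t ⟨η, hη, h⟩ ⟨η', hη', h'⟩
    refine ⟨min η η', lt_min hη hη', fun p hp z D hz hD => ?_⟩
    rcases hp with hp | hp
    · refine h p hp z D (hz.trans (min_le_left _ _)) fun v => (hD v).trans ?_
      gcongr
      exact min_le_left _ _
    · refine h' p hp z D (hz.trans (min_le_right _ _)) fun v => (hD v).trans ?_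
      gcongr
      exact min_le_right _ _
  · intro p0 hp0
    obtain ⟨t, ht, h⟩ := TRV_local hf himm c L k p0 (hT p0 hp0)
    exact ⟨t, mem_nhdsWithin_of_mem_nhds ht, h⟩

end Pool.SXB
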