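import Pool.Agent.Work.MP_02e829_s7.All9
import Pool.Agent.Work.MP_02e829_sf.B_C1L
import Pool.Agent.Work.MP_02e829_sf.B_CHG
import Pool.Agent.Work.MP_02e829_sf.B_CLD
import Pool.Agent.Work.MP_02e829_sf.B_CLE
import Pool.Agent.Work.MP_02e829_sf.B_CMF
import Pool.Agent.Work.MP_02e829_sf.B_DEC
import Pool.Agent.Work.MP_02e829_sf.B_DN9
import Pool.Agent.Work.MP_02e829_sf.B_FTF
import Pool.Agent.Work.MP_02e829_sf.B_GSA
import Pool.Agent.Work.MP_02e829_sf.B_GSB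
import Pool.Agent.Work.MP_02e829_sf.B_ITG
import Pool.Agent.Work.MP_02e829_sf.B_JAC
import Pool.Agent.Work.MP_02e829_sf.B_JLW
import Pool.Agent.Work.MP_02e829_sf.B_LIM
import Pool.Agent.Work.MP_02e829_sf.B_LVL
import Pool.Agent.Work.MP_02e829_sf.B_MCO
import Pool.Agent.Work.MP_02e829_sf.B_MLC
import Pool.Agent.Work.MP_02e829_sf.B_MSC
import Pool.Agent.Work.MP_02e829_sf.B_ORI
import Pool.Agent.Work.MP_02e829_sf.B_PAR
import Pool.Agent.Work.MP_02e829_sf.B_PSH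
import Pool.Agent.Work.MP_02e829_sf.B_SGK
import Pool.Agent.Work.MP_02e829_sf.B_STT
import Pool.Agent.Work.MP_02e829_sf.B_TAU
import Pool.Agent.Work.MP_02e829_sf.B_TLE
import Pool.Agent.Work.MP_02e829_sf.B_TRV

/-!
# All blocks together
-/

open Set Filter Manifold Matrix MeasureTheory Metric
open scoped Topology ContDiff Manifold

set_option autoImplicit false

universe w

namespace Pool.SXB

/-- **The theorem**, without hypotheses on blocks. -/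
theorem allF (S : Type w) [TopologicalSpace S] [ChartedSpace E2 S] [IsManifold (𝓡 2) 2 S]
    [T2Space S] [CompactSpace S] [ConnectedSpace S] (f : ℝ → S → E3) (hf : Fam3 f)
    (hb : HypF f) :
    ∀ t ∈ Icc (0 : ℝ) 1, ∃ A : E3 ≃ᵃⁱ[ℝ] E3, Proper A ∧ ∀ p, f t p = A (f 0 p) := by
  have hYC1 := blk_YC1 blk_SOL
  have hDIF := blk_DIF hYC1
  have hMIX := blk_MIX blk_W0 hYC1 hDIF
  have hSMP := blk_SMP (blk_WMP blk_W0) (blk_ENE blk_W0) blk_CIR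
  have hSIG := blk_SIG (blk_EGR hYC1 hDIF) hMIX
  have hDL7 := blk_DL7 hYC1 hDIF
  have hGD7 := blk_GD7 hYC1 hDIF hMIX blk_BND hSMP hDL7
  have hBD7 := blk_BD7 hYC1 hGD7 (blk_SD7 hYC1 hDIF hMIX hDL7) (blk_IN7 hYC1 hDIF hDL7) blk_TOP
    hDL7
  have hLP7 := blk_LP7 hGD7 hBD7 hDL7
  have hKL7 := blk_KL7 hYC1 hDIF hMIX hDL7
  have hGLB : Stmt_GLB.{w} := blk_GLB blk_SOL hYC1 blk_LOC
  have hCTY : Stmt_CTY.{w} := blk_CTY hYC1 blk_LOC hGLB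
  have hLCN : Stmt_LCN.{w} := blk_LCN hYC1 hDIF blk_LOC hGLB
  have hMX7 : Stmt_MX7.{w} := blk_MX7 hSIG hLP7 blk_PT7 blk_LOC hGLB hCTY hLCN
  have hST7 : Stmt_ST7.{w} := blk_ST7 hMX7 hSIG hKL7 blk_LOC hGLB hLCN
  have hCY7 : Stmt_CY7.{w} := blk_CY7 hGLB
  -- the integral formula
  have hJLW : Stmt_JLW.{w} := p_JLW
  have hGSB : Stmt_GSB.{w} := blk_GSB (blk_GSA blk_W0) (p_CHG hJLW) blk_ITG
  have hLIM : Stmt_LIM.{w} := blk_LIM hGSB blk_LVL blk_TAU blk_ITG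
  have hC1L : Stmt_C1L.{w} := blk_C1L hYC1 blk_LOC hGLB
  have hORI : Stmt_ORI.{w} := blk_ORI blk_LOC
  have hTLE : Stmt_TLE.{w} := blk_TLE hJLW hC1L (blk_JAC hDL7 hDIF blk_LOC hGLB)
    (blk_SGK hDIF hMIX blk_BND) hSIG blk_LOC hORI hLCN
  have hSTT : Stmt_STT.{w} := blk_STT blk_PAR hLIM blk_ITG blk_DEC hC1L hJLW hORI hTLE
  have hMCO : Stmt_MCO.{w} := blk_MCO hCY7 blk_UQ7 blk_ROT hGLB
  exact blk_FTF hCY7 blk_UQ7 (blk_RB7 blk_HY7 blk_UQ7) blk_RP7 (blk_NS7 hGLB) blk_AL7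
    hST7 (blk_SH9 hMX7 hST7 hCTY) (blk_LR7 (blk_VAL hGLB blk_SOL))
    (blk_DN7 hYC1 blk_LOC hGLB hLCN) blk_ROT hGLB blk_CLO blk_ELP
    (blk_SGN blk_LOC hSIG blk_CLO) (blk_CMF hSTT hMCO blk_CLD blk_MSC blk_PSH) blk_TRV blk_CLE
    (blk_DN9 hYC1 blk_LOC hGLB hLCN) (blk_MLC blk_ROT hGLB) blk_CLD blk_MSC S f hf hb

end Pool.SXB
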