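import Pool.Agent.Work.MP_02e829_sf.Interface

open Set Filter Manifold Matrix MeasureTheory Metric
open scoped Topology ContDiff Manifold

set_option autoImplicit false
set_option linter.unusedSectionVars false

universe w

namespace Pool.SXB

open Pool.FR (pd ee)

section GSBaux

variable {S : Type w} [TopologicalSpace S] [ChartedSpace E2 S] [IsManifold (𝓡 2) 2 S]

theorem GSB_near {T : Set S} (hT : IsClosed T) {q : S} {x : E2}
    (hx : x ∈ (extChartAt (𝓡 2) q).target) (hn : (extChartAt (𝓡 2) q).symm x ∉ T) :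
    ∀ᶠ y in 𝓝 x, (extChartAt (𝓡 2) q).symm y ∉ T :=
  (continuousAt_extChartAt_symm'' hx).eventually (hT.isOpen_compl.mem_nhds hn)

theorem GSB_pd {χ : S → ℝ} {q : S} {x : E2} (hx : x ∈ (extChartAt (𝓡 2) q).target)
    (hn : (extChartAt (𝓡 2) q).symm x ∉ tsupport χ) (i : Fin 2) : pd i (ch χ q) x = 0 := by
  have h1 : ch χ q =ᶠ[𝓝 x] fun _ => (0 : ℝ) := by
    filter_upwards [GSB_near (isClosed_tsupport χ) hx hn] with y hy
    show χ ((extChartAt (𝓡 2) q).symm y) = 0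
    exact image_eq_zero_of_notMem_tsupport hy
  unfold pd
  rw [h1.fderiv_eq]
  simp

theorem GSB_JJ {χ l : S → ℝ} {q : S} {x : E2} (hx : x ∈ (extChartAt (𝓡 2) q).target)
    (hn : (extChartAt (𝓡 2) q).symm x ∉ tsupport χ) : JJ χ l q x = 0 := by
  unfold JJ
  rw [GSB_pd hx hn, GSB_pd hx hn]
  ring

theorem GSB_cpd {u : S → ℝ} (hu : C1S u) (q : S) (i : Fin 2) :
    ContinuousOn (pd i (ch u q)) (extChartAt (𝓡 2) q).target := by
  have h1 := (hu q).continuousOn_fderiv_of_isOpen (isOpen_extChartAt_target q) le_rfl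
  exact h1.clm_apply continuousOn_const

theorem GSB_cJJ {u W : S → ℝ} (hu : C1S u) (hW : C1S W) (q : S) :
    ContinuousOn (JJ u W q) (extChartAt (𝓡 2) q).target :=
  ((GSB_cpd hu q 0).mul (GSB_cpd hW q 1)).sub ((GSB_cpd hu q 1).mul (GSB_cpd hW q 0))

theorem GSB_sumpd {F : Finset S} {χ : S → S → ℝ} (hχ : Pou F χ) {r : S} {x : E2}
    (hx : x ∈ (extChartAt (𝓡 2) r).target) (i : Fin 2) : ∑ q ∈ F, pd i (ch (χ q) r) x = 0 := by
  have h1 : ∀ q ∈ F, DifferentiableAt ℝ (ch (χ q) r) x := fun q hq =>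
    ((hχ.c1 q hq r).differentiableOn one_ne_zero).differentiableAt
      ((isOpen_extChartAt_target r).mem_nhds hx)
  have h2 : (fun y => ∑ q ∈ F, ch (χ q) r y) = fun _ => (1 : ℝ) := by
    funext y
    exact hχ.sum _
  have h3 := fderiv_fun_sum h1
  rw [h2] at h3
  unfold pd
  have h4 := congrArg (fun L : E2 →L[ℝ] ℝ => L (ee i)) h3
  simp only [_root_.sum_apply] at h4
  rw [← h4]
  simp

theorem GSB_sumJJ {F : Finset S} {χ : S → S → ℝ} (hχ : Pou F χ) (l : S → ℝ) {r : S} {x : E2}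
    (hx : x ∈ (extChartAt (𝓡 2) r).target) : ∑ q ∈ F, JJ (χ q) l r x = 0 := by
  unfold JJ
  rw [Finset.sum_sub_distrib, ← Finset.sum_mul, ← Finset.sum_mul, GSB_sumpd hχ hx,
    GSB_sumpd hχ hx]
  ring

theorem GSB_dmOpen {C : Set S} (hC : IsOpen C) (q : S) : IsOpen (dm C q) :=
  (continuousOn_extChartAt_symm q).isOpen_inter_preimage (isOpen_extChartAt_target q) hC

end GSBaux

theorem blk_GSB (hGSA : Stmt_GSA.{w}) (hCHG : Stmt_CHG.{w}) (hITG : Stmt_ITG.{w}) :
    Stmt_GSB.{w} := by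
  intro S _ _ _ _ C ν hC hν F χ hχ l W hl hW δ hδ hfr
  have hcδ : ∀ s : S, ContinuousOn (fun x => δ (ch l s x) * ch W s x)
      (extChartAt (𝓡 2) s).target := fun s =>
    (hδ.continuous.comp_continuousOn (hl s).continuousOn).mul (hW s).continuousOn
  have hcH : ∀ q ∈ F, ∀ r ∈ F, ∀ s : S, ContinuousOn (fun x => ch (χ r) s x *
      (δ (ch l s x) * ch W s x) * JJ (χ q) l s x) (extChartAt (𝓡 2) s).target :=
    fun q hq r hr s => ((hχ.c1 r hr s).continuousOn.mul (hcδ s)).mul (GSB_cJJ (hχ.c1 q hq) hl s)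
  -- integrability in the chart at `q`
  have hi1 : ∀ q ∈ F, ∀ r ∈ F, IntegrableOn (fun x => (ch (χ r) q x *
      (δ (ch l q x) * ch W q x) * JJ (χ q) l q x) * sg (ν q x)) (dm C q) volume := by
    intro q hq r hr
    refine hITG S C ν hC hν q (tsupport (χ q)) (isClosed_tsupport _) (hχ.sup q hq) _
      (hcH q hq r hr q) (fun x hx hn => ?_)
    rw [GSB_JJ hx hn, mul_zero]
  -- integrability in the chart at `r`
  have hi2 : ∀ q ∈ F, ∀ r ∈ F, IntegrableOn (fun x => (ch (χ r) r x *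
      (δ (ch l r x) * ch W r x) * JJ (χ q) l r x) * sg (ν r x)) (dm C r) volume := by
    intro q hq r hr
    refine hITG S C ν hC hν r (tsupport (χ r)) (isClosed_tsupport _) (hχ.sup r hr) _
      (hcH q hq r hr r) (fun x hx hn => ?_)
    have h0 : χ r ((extChartAt (𝓡 2) r).symm x) = 0 := image_eq_zero_of_notMem_tsupport hn
    have h1 : ch (χ r) r x = 0 := h0
    rw [h1, zero_mul, zero_mul]
  -- step 2
  have h2 : ∀ q ∈ F, ∫ x in dm C q, ch (χ q) q x * ((δ (ch l q x) * JJ l W q x) * sg (ν q x)) =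
      ∑ r ∈ F, ∫ x in dm C q, (ch (χ r) q x * (δ (ch l q x) * ch W q x) * JJ (χ q) l q x) *
        sg (ν q x) := by
    intro q hq
    rw [hGSA S C ν hC hν (χ q) l W (hχ.c1 q hq) hl hW q (hχ.sup q hq) δ hδ hfr]
    rw [← integral_finsetSum F (fun r hr => hi1 q hq r hr)]
    congr 1
    funext x
    have h1 : ∑ r ∈ F, ch (χ r) q x = 1 := hχ.sum _
    have e : ∀ r ∈ F, (ch (χ r) q x * (δ (ch l q x) * ch W q x) * JJ (χ q) l q x) * sg (ν q x) =
        ch (χ r) q x * ((δ (ch l q x) * ch W q x) * (JJ (χ q) l q x * sg (ν q x))) := by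
      intro r _; ring
    rw [Finset.sum_congr rfl e, ← Finset.sum_mul, h1, one_mul]
  -- step 3
  have h3 : ∀ q ∈ F, ∀ r ∈ F, ∫ x in dm C q, (ch (χ r) q x * (δ (ch l q x) * ch W q x) *
      JJ (χ q) l q x) * sg (ν q x) = ∫ x in dm C r, (ch (χ r) r x *
      (δ (ch l r x) * ch W r x) * JJ (χ q) l r x) * sg (ν r x) := by
    intro q hq r hr
    obtain ⟨ρ, hρ1, hρ2⟩ : ∃ ρ : S → ℝ, (∀ p ∈ (extChartAt (𝓡 2) q).source,
        ρ p = χ r p * (δ (l p) * W p)) ∧ ∀ p, p ∉ (extChartAt (𝓡 2) q).source → ρ p = 0 := by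
      classical
      refine ⟨fun p => if p ∈ (extChartAt (𝓡 2) q).source then χ r p * (δ (l p) * W p) else 0,
        fun p hp => if_pos hp, fun p hp => if_neg hp⟩
    have hρ : ∀ p, ρ p ≠ 0 → p ∈ (extChartAt (𝓡 2) q).source ∧
        p ∈ (extChartAt (𝓡 2) r).source := by
      intro p hp
      have h1 : p ∈ (extChartAt (𝓡 2) q).source := by
        by_contra hn
        exact hp (hρ2 p hn)
      refine ⟨h1, ?_⟩
      rw [hρ1 p h1] at hp
      have h2 : χ r p ≠ 0 := left_ne_zero_of_mul hp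
      exact hχ.sup r hr (subset_tsupport _ h2)
    have h4 := hCHG S C ν hC hν (χ q) l (hχ.c1 q hq) hl q r ρ hρ
    have e1 : ∫ x in dm C q, ch ρ q x * (JJ (χ q) l q x * sg (ν q x)) =
        ∫ x in dm C q, (ch (χ r) q x * (δ (ch l q x) * ch W q x) *
      JJ (χ q) l q x) * sg (ν q x) := by
      refine setIntegral_congr_fun (GSB_dmOpen hC q).measurableSet (fun x hx => ?_)
      have h5 : (extChartAt (𝓡 2) q).symm x ∈ (extChartAt (𝓡 2) q).source :=
        (extChartAt (𝓡 2) q).map_target hx.1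
      have h6 : ch ρ q x = ch (χ r) q x * (δ (ch l q x) * ch W q x) := hρ1 _ h5
      show ch ρ q x * (JJ (χ q) l q x * sg (ν q x)) = _
      rw [h6]; ring
    have e2 : ∫ x in dm C r, ch ρ r x * (JJ (χ q) l r x * sg (ν r x)) =
        ∫ x in dm C r, (ch (χ r) r x * (δ (ch l r x) * ch W r x) *
      JJ (χ q) l r x) * sg (ν r x) := by
      refine setIntegral_congr_fun (GSB_dmOpen hC r).measurableSet (fun x hx => ?_)
      show ch ρ r x * (JJ (χ q) l r x * sg (ν r x)) = _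
      by_cases h5 : (extChartAt (𝓡 2) r).symm x ∈ (extChartAt (𝓡 2) q).source
      · have h6 : ch ρ r x = ch (χ r) r x * (δ (ch l r x) * ch W r x) := hρ1 _ h5
        rw [h6]; ring
      · have h6 : (extChartAt (𝓡 2) r).symm x ∉ tsupport (χ q) := fun h => h5 (hχ.sup q hq h)
        rw [GSB_JJ hx.1 h6]; ring
    rw [← e1, h4, e2]
  rw [Finset.sum_congr rfl h2, Finset.sum_congr rfl (fun q hq => Finset.sum_congr rfl
    (fun r hr => h3 q hq r hr)), Finset.sum_comm]
  refine Finset.sum_eq_zero fun r hr => ?_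
  rw [← integral_finsetSum F (fun q hq => hi2 q hq r hr)]
  have h7 : ∫ x in dm C r, ∑ q ∈ F, (ch (χ r) r x * (δ (ch l r x) * ch W r x) *
      JJ (χ q) l r x) * sg (ν r x) = ∫ x in dm C r, (0 : ℝ) := by
    refine setIntegral_congr_fun (GSB_dmOpen hC r).measurableSet (fun x hx => ?_)
    show ∑ q ∈ F, (ch (χ r) r x * (δ (ch l r x) * ch W r x) *
      JJ (χ q) l r x) * sg (ν r x) = 0
    rw [← Finset.sum_mul, ← Finset.mul_sum, GSB_sumJJ hχ l hx.1]
    ring
  rw [h7, integral_zero]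

end Pool.SXB
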