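import Pool.Agent.Work.MP_02e829_sf.Interface
import Pool.Agent.Work.MP_02e829_s7.Mot9

/-!
# Countably many rigid bodies, block PSH: the image of a projective field under a motion
-/

open Set Filter Manifold Matrix MeasureTheory Metric
open scoped Topology ContDiff Manifold

set_option autoImplicit false

universe w

namespace Pool.SXB

open Pool.FR (pd ee)

lemma PSH_vec (u v y : V3) : vecMulVec u v *ᵥ y = (v ⬝ᵥ y) • u := by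
  funext i
  simp only [mulVec, dotProduct, vecMulVec_apply, Pi.smul_apply, smul_eq_mul, Finset.sum_mul]
  exact Finset.sum_congr rfl fun j _ => by ring

lemma PSH_alg (c : V3) (L R : Matrix (Fin 3) (Fin 3) ℝ) (hR : Rᵀ * R = 1) (k β X : V3) :
    XX (R *ᵥ c - (R * L * Rᵀ) *ᵥ β + ((R *ᵥ k) ⬝ᵥ β) • β)
      (R * L * Rᵀ - vecMulVec β (R *ᵥ k) - ((R *ᵥ k) ⬝ᵥ β) • (1 : Matrix (Fin 3) (Fin 3) ℝ))
      (R *ᵥ k) (R *ᵥ X + β) = R *ᵥ XX c L k X := by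
  have h1 : (R *ᵥ k) ⬝ᵥ (R *ᵥ X) = k ⬝ᵥ X := by
    rw [dotProduct_mulVec, vecMul_mulVec, hR, vecMul_one]
  have h2 : (R * L * Rᵀ) *ᵥ (R *ᵥ X) = R *ᵥ (L *ᵥ X) := by
    rw [mulVec_mulVec, mulVec_mulVec, Matrix.mul_assoc, hR, Matrix.mul_one]
  have h3 : (R *ᵥ k) ⬝ᵥ (R *ᵥ X + β) = k ⬝ᵥ X + (R *ᵥ k) ⬝ᵥ β := by
    rw [dotProduct_add, h1]
  unfold XX
  rw [h3, sub_mulVec, sub_mulVec, PSH_vec, smul_mulVec, one_mulVec, h3, mulVec_add (R * L * Rᵀ),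
    h2, mulVec_add, mulVec_add, mulVec_smul]
  module

theorem blk_PSH : Stmt_PSH := by
  intro c L k A hA
  obtain ⟨R, hR, b, -, rfl⟩ := isoE_exists A hA
  refine ⟨R *ᵥ c - (R * L * Rᵀ) *ᵥ L3 b + ((R *ᵥ k) ⬝ᵥ L3 b) • L3 b,
    R * L * Rᵀ - vecMulVec (L3 b) (R *ᵥ k) -
      ((R *ᵥ k) ⬝ᵥ L3 b) • (1 : Matrix (Fin 3) (Fin 3) ℝ), R *ᵥ k, fun x u hu => ?_⟩
  rw [isoE_apply, isoE_lin, linE_apply, turnE_L3, map_add, turnE_L3, hu]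
  exact PSH_alg c L R hR k (L3 b) (L3 x)

end Pool.SXB
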